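import Mathlib
import Pool.Agent.Y215.SK.Gam

set_option autoImplicit false
set_option linter.unusedSectionVars false
set_option linter.unusedSimpArgs false

/-!
# The subspace theorem over number fields for vanishing sums of almost units

The theorems `subK` and `subG` of `Pool.Agent.Y215.SK` (whose proofs are repeated here) with
coefficients whose height is at most a fixed small multiple of the height of the units.
-/

namespace Pool.Agent.Y556.TW

open Finset NumberField Height Filter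
open Pool.Agent.TH286.GT.GrowD (sg sg_coe sg_inj)
open Pool.Agent.Y215.SK

variable {K : Type} [Field K] [NumberField K]

variable [IsGalois ℚ K]

theorem subKF (ψ : K →+* ℂ) (cj : K ≃ₐ[ℚ] K) (hcj : ∀ x, ψ (cj x) = (starRingEnd ℂ) (ψ x))
    (iK : 𝓞 K) (hi : ψ (iK : K) = Complex.I) {m1 s : ℕ}
    (U : Fin s → 𝓞 K) (hU : ∀ v, U v ≠ 0) (c1 : ℝ) (hc1 : 0 ≤ c1)
    (k : ℕ → Fin (m1 + 1) → Fin s → ℕ) (c : ℕ → Fin (m1 + 1) → 𝓞 K) (N : ℕ → ℝ)
    (hN : Tendsto N atTop atTop)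
    (hlog : ∀ t j σ, |Real.log ‖ph ψ (sg σ (uu U (k t) j))‖| ≤ c1 * N t)
    (hht : ∀ t, N t ≤ ∑ σ, Real.log (⨆ j, ‖ph ψ (sg σ (uu U (k t) j))‖) -
        Real.log (Ideal.absNorm (Ideal.span (Set.range (uu U (k t))))))
    (hsm : ∀ᶠ t in atTop, ∀ j σ, ‖ph ψ (sg σ (c t j))‖ ≤
      Real.exp (1 / (16 * (((m1 * Module.finrank ℤ (𝓞 K) : ℕ) : ℝ) + 1)) * N t))
    (hsum : ∀ t, ∑ j, c t j * uu U (k t) j = 0) (hnz : ∀ t, c t ≠ 0) :
    ∃ d : Fin (m1 + 1) → K, (∃ i, d i ≠ d (Fin.last m1)) ∧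
      ∃ᶠ t in atTop, ∑ j, d j * ((c t j * uu U (k t) j : 𝓞 K) : K) = 0 := by
  classical
  by_contra hcon
  push Not at hcon
  -- the pattern
  have hmax : ∀ t, ∃ J : (K ≃ₐ[ℚ] K) → Fin (m1 + 1), ∀ σ,
      ⨆ j, ‖ph ψ (sg σ (uu U (k t) j))‖ = ‖ph ψ (sg σ (uu U (k t) (J σ)))‖ := by
    intro t
    choose J hJ using fun σ : K ≃ₐ[ℚ] K =>
      exists_eq_ciSup_of_finite (f := fun j => ‖ph ψ (sg σ (uu U (k t) j))‖)
    exact ⟨J, fun σ => (hJ σ).symm⟩
  choose JJ hJJ using hmax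
  obtain ⟨J, hJ⟩ : ∃ J, ∃ᶠ t in atTop, JJ t = J := by
    by_contra h
    push Not at h
    have h1 : ∀ᶠ t in atTop, ∀ J, JJ t ≠ J :=
      Filter.eventually_all.2 fun J => h J
    obtain ⟨t, ht⟩ := h1.exists
    exact ht _ rfl
  obtain ⟨τ, hτ, hτJ⟩ := Filter.extraction_of_frequently_atTop hJ
  have hτt : Tendsto τ atTop atTop := hτ.tendsto_atTop
  -- enumeration of the functionals
  obtain ⟨F, hF⟩ := exists_surjective_nat (Fin ((m1 + 1) * Module.finrank ℤ (𝓞 K)) → ℤ)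
  choose φ hφ using fun (f : Fin ((m1 + 1) * Module.finrank ℤ (𝓞 K)) → ℤ) (j : Fin (m1 + 1)) =>
    exists_trace (comp f j)
  choose B hB using fun i : ℕ => exists_avoid (K := K) i
  -- sizes of the multipliers
  have hH : ∀ i : ℕ, ∃ H : ℝ, 1 ≤ H ∧ ∀ s ≤ B i, ∀ σ : K ≃ₐ[ℚ] K,
      ‖ph ψ (sg σ (lamS K s))‖ ≤ H := by
    intro i
    refine ⟨1 + ∑ s ∈ Finset.range (B i + 1), ∑ σ : K ≃ₐ[ℚ] K, ‖ph ψ (sg σ (lamS K s))‖, ?_, ?_⟩
    · have : 0 ≤ ∑ s ∈ Finset.range (B i + 1), ∑ σ : K ≃ₐ[ℚ] K, ‖ph ψ (sg σ (lamS K s))‖ :=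
        Finset.sum_nonneg fun _ _ => Finset.sum_nonneg fun _ _ => norm_nonneg _
      linarith
    · intro s hs σ
      have h1 : ‖ph ψ (sg σ (lamS K s))‖ ≤ ∑ σ : K ≃ₐ[ℚ] K, ‖ph ψ (sg σ (lamS K s))‖ :=
        Finset.single_le_sum (f := fun σ : K ≃ₐ[ℚ] K => ‖ph ψ (sg σ (lamS K s))‖)
          (fun _ _ => norm_nonneg _) (Finset.mem_univ σ)
      have h2 : ∑ σ : K ≃ₐ[ℚ] K, ‖ph ψ (sg σ (lamS K s))‖ ≤
          ∑ s ∈ Finset.range (B i + 1), ∑ σ : K ≃ₐ[ℚ] K, ‖ph ψ (sg σ (lamS K s))‖ :=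
        Finset.single_le_sum (f := fun s => ∑ σ : K ≃ₐ[ℚ] K, ‖ph ψ (sg σ (lamS K s))‖)
          (fun _ _ => Finset.sum_nonneg fun _ _ => norm_nonneg _)
          (Finset.mem_range.2 (by omega))
      linarith
  choose H hH1 hH2 using hH
  -- the predicates
  let X : ℕ → Fin (m1 + 1) → 𝓞 K := fun t j => c t j * uu U (k t) j
  obtain ⟨κ, hκ, hκP⟩ := exists_diag (fun i t =>
    ((∃ j, φ (F i) j ≠ φ (F i) (Fin.last m1)) →
      ∑ j, φ (F i) j * ((X (τ t) j : 𝓞 K) : K) ≠ 0) ∧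
      (i + 1) * Real.log (H i) ≤ N (τ t)) (by
    intro i
    refine Filter.Eventually.and ?_ ?_
    · by_cases h : ∃ j, φ (F i) j ≠ φ (F i) (Fin.last m1)
      · have h1 := hτt.eventually (hcon _ h)
        filter_upwards [h1] with t ht _
        exact ht
      · exact Filter.Eventually.of_forall fun t h' => absurd h' h
    · exact (hN.comp hτt).eventually_ge_atTop _)
  -- the functionals of `λ`
  let gg : ℕ → (Fin ((m1 + 1) * Module.finrank ℤ (𝓞 K)) → ℤ) → (𝓞 K →ₗ[ℤ] ℤ) := fun t f =>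
    ∑ j, (comp f j) ∘ₗ (LinearMap.mulRight ℤ (X (τ t) j))
  have hgg : ∀ t f lam, gg t f lam = ∑ l, f l * cv (fun j => lam * X (τ t) j) l := by
    intro t f lam
    rw [sum_cv]
    simp only [gg, LinearMap.sum_apply]
    rfl
  have hgg0 : ∀ t f, ∑ j, φ f j * ((X (τ t) j : 𝓞 K) : K) ≠ 0 → gg t f ≠ 0 := by
    intro t f h h0
    apply h
    have h1 : ∀ lam : 𝓞 K, Algebra.trace ℚ K ((∑ j, φ f j * ((X (τ t) j : 𝓞 K) : K)) * lam) = 0 := by
      intro lam
      have h2 : ((gg t f lam : ℤ) : ℚ) = 0 := by rw [h0]; simp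
      simp only [gg, LinearMap.sum_apply, LinearMap.comp_apply, LinearMap.mulRight_apply] at h2
      push_cast at h2
      rw [← h2, Finset.sum_mul, map_sum]
      refine Finset.sum_congr rfl fun j _ => ?_
      rw [hφ]
      congr 1
      push_cast
      ring
    have hnd := traceForm_nondegenerate ℚ K
    refine hnd.1 _ fun y => ?_
    obtain ⟨n, hn, -, hint⟩ := NumberField.exists_nat_le_mulHeight₁ y
    have h3 := h1 ⟨(n : K) * y, hint⟩
    have hnK : (n : ℚ) ≠ 0 := by exact_mod_cast hn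
    rw [Algebra.traceForm_apply]
    have h4 : (∑ j, φ f j * ((X (τ t) j : 𝓞 K) : K)) * ((n : K) * y) =
        (n : ℚ) • ((∑ j, φ f j * ((X (τ t) j : 𝓞 K) : K)) * y) := by
      rw [Algebra.smul_def, map_natCast]
      ring
    have h5 : Algebra.trace ℚ K ((n : ℚ) • ((∑ j, φ f j * ((X (τ t) j : 𝓞 K) : K)) * y)) = 0 := by
      rw [← h4]
      exact h3
    rw [map_smul, smul_eq_mul] at h5
    exact (mul_eq_zero.1 h5).resolve_left hnK
  -- the multipliers
  have hsel : ∀ t, ∃ s ≤ B (κ t), ∀ i ≤ κ t, gg t (F i) ≠ 0 → gg t (F i) (lamS K s) ≠ 0 := by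
    intro t
    obtain ⟨s, hs, hs2⟩ := hB (κ t) (fun i => gg t (F i))
    exact ⟨s, hs, fun i hi => hs2 ⟨i, by omega⟩⟩
  choose sel hsel1 hsel2 using hsel
  obtain ⟨m', hm'⟩ : ∃ m' : ℕ, m' = m1 * Module.finrank ℤ (𝓞 K) := ⟨_, rfl⟩
  have hm'0 : (0 : ℝ) ≤ m' := Nat.cast_nonneg _
  obtain ⟨γ, hγ⟩ : ∃ γ : ℝ, γ = 1 / (8 * ((m' : ℝ) + 1)) := ⟨_, rfl⟩
  have hγ0 : 0 < γ := by rw [hγ]; positivity
  have hγ1 : γ * (8 * (((m1 * Module.finrank ℤ (𝓞 K) : ℕ) : ℝ) + 1)) ≤ 1 := by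
    rw [← hm', hγ, one_div, inv_mul_cancel₀ (by positivity)]
  obtain ⟨N0, hN0⟩ := subK_J ψ cj hcj iK hi U hU J c1 hc1 γ hγ0 hγ1
  have hev : ∀ᶠ t in atTop, N0 ≤ N (τ t) ∧ 0 ≤ N (τ t) ∧
      (∀ j σ, ‖ph ψ (sg σ (c (τ t) j))‖ ≤ Real.exp (γ / 2 * N (τ t))) ∧
      Real.log (H (κ t)) ≤ γ / 2 * N (τ t) := by
    have h1 : Tendsto (fun t => N (τ t)) atTop atTop := hN.comp hτt
    have h2 : ∀ᶠ t in atTop, ∀ j σ, ‖ph ψ (sg σ (c (τ t) j))‖ ≤ Real.exp (γ / 2 * N (τ t)) := by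
      have e : γ / 2 = 1 / (16 * (((m1 * Module.finrank ℤ (𝓞 K) : ℕ) : ℝ) + 1)) := by
        rw [hγ, hm', div_div]
        congr 1
        ring
      rw [e]
      exact hτt.eventually hsm
    have h3 : Tendsto (fun t => (κ t : ℝ)) atTop atTop := tendsto_natCast_atTop_atTop.comp hκ
    filter_upwards [h1.eventually_ge_atTop N0, h1.eventually_ge_atTop 0, h2,
      h3.eventually_ge_atTop (2 / γ), hκP] with t ht1 ht2 ht3 ht4 ht5
    refine ⟨ht1, ht2, ht3, ?_⟩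
    have h4 := (ht5 (κ t) le_rfl).2
    have h5 : 0 ≤ Real.log (H (κ t)) := Real.log_nonneg (hH1 _)
    have h6 : 2 / γ * Real.log (H (κ t)) ≤ N (τ t) := by
      refine le_trans ?_ h4
      refine mul_le_mul_of_nonneg_right ?_ h5
      linarith
    rw [div_mul_eq_mul_div, div_le_iff₀ hγ0] at h6
    linarith
  obtain ⟨t0, ht0⟩ := Filter.eventually_atTop.1 hev
  have hsh : Tendsto (fun t => t + t0) atTop atTop := tendsto_add_atTop_nat t0
  obtain ⟨f, ⟨i', b, hib⟩, hfr⟩ := hN0 (fun t => k (τ (t + t0)))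
    (fun t j => lamS K (sel (t + t0)) * c (τ (t + t0)) j) (fun t => N (τ (t + t0)))
    ((hN.comp hτt).comp hsh) (fun t => (ht0 (t + t0) (Nat.le_add_left _ _)).1)
    (fun t j σ => hlog _ j σ)
    (by
      intro t
      have h1 := hht (τ (t + t0))
      have h2 : ∀ σ : K ≃ₐ[ℚ] K, ⨆ j, ‖ph ψ (sg σ (uu U (k (τ (t + t0))) j))‖ =
          ‖ph ψ (sg σ (uu U (k (τ (t + t0))) (J σ)))‖ := by
        intro σ
        rw [hJJ, hτJ]
      simp_rw [h2] at h1
      exact h1)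
    (by
      intro t j σ
      obtain ⟨-, h2, h3, h4⟩ := ht0 (t + t0) (Nat.le_add_left _ _)
      rw [map_mul, map_mul, norm_mul]
      have h5 := hH2 (κ (t + t0)) (sel (t + t0)) (hsel1 _) σ
      have h6 : H (κ (t + t0)) ≤ Real.exp (γ / 2 * N (τ (t + t0))) :=
        (Real.log_le_iff_le_exp (lt_of_lt_of_le one_pos (hH1 _))).1 h4
      calc _ ≤ Real.exp (γ / 2 * N (τ (t + t0))) * Real.exp (γ / 2 * N (τ (t + t0))) :=
            mul_le_mul (h5.trans h6) (h3 j σ) (norm_nonneg _) (Real.exp_pos _).le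
        _ = Real.exp (γ * N (τ (t + t0))) := by
            rw [← Real.exp_add]
            congr 1
            ring)
    (by
      intro t
      have h1 := hsum (τ (t + t0))
      have h2 : ∀ j, lamS K (sel (t + t0)) * c (τ (t + t0)) j * uu U (k (τ (t + t0))) j =
          lamS K (sel (t + t0)) * (c (τ (t + t0)) j * uu U (k (τ (t + t0))) j) := fun j =>
        mul_assoc _ _ _
      simp_rw [h2]
      rw [← Finset.mul_sum, h1, mul_zero])
    (by
      intro t h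
      apply hnz (τ (t + t0))
      funext j
      exact (mul_eq_zero.1 (congrFun h j)).resolve_left (lamS_ne _))
  obtain ⟨i, rfl⟩ := hF f
  have hφne : φ (F i) i' ≠ φ (F i) (Fin.last m1) := by
    intro h
    apply hib
    have h1 := hφ (F i) i' (om K b)
    rw [h, ← hφ] at h1
    have h2 : comp (F i) i' (om K b) = comp (F i) (Fin.last m1) (om K b) := by exact_mod_cast h1
    rw [comp_om, comp_om] at h2
    exact h2
  have hev2 : ∀ᶠ t in atTop, i ≤ κ (t + t0) ∧ ∀ i ≤ κ (t + t0),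
      ((∃ j, φ (F i) j ≠ φ (F i) (Fin.last m1)) →
      ∑ j, φ (F i) j * ((X (τ (t + t0)) j : 𝓞 K) : K) ≠ 0) ∧
      (i + 1) * Real.log (H i) ≤ N (τ (t + t0)) :=
    (hsh.eventually (hκ.eventually_ge_atTop i)).and (hsh.eventually hκP)
  obtain ⟨t, ht1, ht2, ht3⟩ := (hfr.and_eventually hev2).exists
  have h1 := (ht3 i ht2).1 ⟨i', hφne⟩
  have h2 := hsel2 (t + t0) i ht2 (hgg0 _ _ h1)
  apply h2
  rw [hgg, ← ht1]
  refine Finset.sum_congr rfl fun l _ => ?_
  congr 2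
  funext j
  simp only [X]
  ring

theorem subGF (ψ : K →+* ℂ) (cj : K ≃ₐ[ℚ] K) (hcj : ∀ x, ψ (cj x) = (starRingEnd ℂ) (ψ x))
    (iK : 𝓞 K) (hi : ψ (iK : K) = Complex.I) {m1 ρ : ℕ}
    (g : Fin ρ → K) (hg : ∀ v, g v ≠ 0) (C : ℝ) (hC : 0 ≤ C)
    (q : ℕ → Fin (m1 + 1) → Fin ρ → ℤ) (a : ℕ → Fin (m1 + 1) → K) (N : ℕ → ℝ)
    (hN : Tendsto N atTop atTop) (hq : ∀ t j v, |(q t j v : ℝ)| ≤ C * N t)
    (hht : ∀ t, N t ≤ logHeight (fun j => ∏ v, g v ^ q t j v))
    (hsm : ∀ᶠ t in atTop, ∀ j, logHeight₁ (a t j) ≤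
      (1 / (16 * (((m1 * Module.finrank ℤ (𝓞 K) : ℕ) : ℝ) + 1)) / (m1 + 2)) * N t)
    (hsum : ∀ t, ∑ j, a t j * ∏ v, g v ^ q t j v = 0) (hnz : ∀ t, a t ≠ 0) :
    ∃ d : Fin (m1 + 1) → K, (∃ i, d i ≠ d (Fin.last m1)) ∧
      ∃ᶠ t in atTop, ∑ j, d j * (a t j * ∏ v, g v ^ q t j v) = 0 := by
  classical
  -- integral generators
  obtain ⟨b, hb0, -, hb⟩ := exists_den (fun v : Fin ρ ⊕ Fin ρ => Sum.elim g (fun v => (g v)⁻¹) v)
  have hbK : (b : K) ≠ 0 := by exact_mod_cast hb0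
  let ι := (Fin ρ ⊕ Fin ρ) ⊕ Unit
  let Ui : ι → 𝓞 K := Sum.elim (fun v => ⟨(b : K) * Sum.elim g (fun v => (g v)⁻¹) v, hb v⟩)
    (fun _ => (b : 𝓞 K))
  have hUi0 : ∀ v, Ui v ≠ 0 := by
    rintro ((v | v) | v) h
    · have h1 : (b : K) * g v = 0 := congrArg (fun x : 𝓞 K => (x : K)) h
      exact mul_ne_zero hbK (hg v) h1
    · have h1 : (b : K) * (g v)⁻¹ = 0 := congrArg (fun x : 𝓞 K => (x : K)) h
      exact mul_ne_zero hbK (inv_ne_zero (hg v)) h1
    · have h1 : (b : 𝓞 K) = 0 := h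
      exact hb0 (by exact_mod_cast h1)
  let E : ℕ → ℕ := fun t => ∑ j, ∑ v, (q t j v).natAbs
  let ki : ℕ → Fin (m1 + 1) → ι → ℕ := fun t j =>
    Sum.elim (Sum.elim (fun v => (q t j v).toNat) (fun v => (-q t j v).toNat))
      (fun _ => E t - ∑ v, (q t j v).natAbs)
  have hEj : ∀ t j, ∑ v, (q t j v).natAbs ≤ E t := fun t j =>
    Finset.single_le_sum (f := fun j => ∑ v, (q t j v).natAbs) (fun _ _ => Nat.zero_le _)
      (Finset.mem_univ j)
  let e : Fin (Fintype.card ι) ≃ ι := (Fintype.equivFin ι).symm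
  let U : Fin (Fintype.card ι) → 𝓞 K := fun v => Ui (e v)
  let k : ℕ → Fin (m1 + 1) → Fin (Fintype.card ι) → ℕ := fun t j v => ki t j (e v)
  have huu : ∀ t j, uu U (k t) j = ∏ x : ι, Ui x ^ ki t j x := by
    intro t j
    unfold uu
    exact Equiv.prod_comp e (fun x => Ui x ^ ki t j x)
  have huuK : ∀ t j, ((uu U (k t) j : 𝓞 K) : K) = (b : K) ^ E t * ∏ v, g v ^ q t j v := by
    intro t j
    rw [huu, Fintype.prod_sum_type, Fintype.prod_sum_type]
    have h1 : ∀ v : Fin ρ, ((Ui (Sum.inl (Sum.inl v)) ^ ki t j (Sum.inl (Sum.inl v)) : 𝓞 K) : K) *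
        ((Ui (Sum.inl (Sum.inr v)) ^ ki t j (Sum.inl (Sum.inr v)) : 𝓞 K) : K) =
        (b : K) ^ (q t j v).natAbs * g v ^ q t j v := by
      intro v
      have h2 : ((Ui (Sum.inl (Sum.inl v)) ^ ki t j (Sum.inl (Sum.inl v)) : 𝓞 K) : K) =
          ((b : K) * g v) ^ (q t j v).toNat := by
        show algebraMap (𝓞 K) K _ = _
        rw [map_pow]
        rfl
      have h3 : ((Ui (Sum.inl (Sum.inr v)) ^ ki t j (Sum.inl (Sum.inr v)) : 𝓞 K) : K) =
          ((b : K) * (g v)⁻¹) ^ (-q t j v).toNat := by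
        show algebraMap (𝓞 K) K _ = _
        rw [map_pow]
        rfl
      rw [h2, h3]
      rcases le_total 0 (q t j v) with h4 | h4
      · obtain ⟨n, hn⟩ := Int.eq_ofNat_of_zero_le h4
        rw [hn]
        simp [mul_pow]
      · obtain ⟨n, hn⟩ := Int.eq_ofNat_of_zero_le (neg_nonneg.2 h4)
        have h5 : q t j v = -(n : ℤ) := by omega
        rw [h5]
        simp [mul_pow]
    have h2 : ((∏ x : Unit, Ui (Sum.inr x) ^ ki t j (Sum.inr x) : 𝓞 K) : K) =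
        (b : K) ^ (E t - ∑ v, (q t j v).natAbs) := by
      show algebraMap (𝓞 K) K _ = _
      rw [map_prod]
      simp [Ui, ki]
    have h3 : (((∏ v, Ui (Sum.inl (Sum.inl v)) ^ ki t j (Sum.inl (Sum.inl v))) *
        (∏ v, Ui (Sum.inl (Sum.inr v)) ^ ki t j (Sum.inl (Sum.inr v))) : 𝓞 K) : K) =
        (b : K) ^ (∑ v, (q t j v).natAbs) * ∏ v, g v ^ q t j v := by
      rw [← Finset.prod_mul_distrib, RingOfIntegers.coe_eq_algebraMap, map_prod,
        ← Finset.prod_pow_eq_pow_sum, ← Finset.prod_mul_distrib]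
      refine Finset.prod_congr rfl fun v _ => ?_
      rw [map_mul]
      exact h1 v
    rw [RingOfIntegers.coe_eq_algebraMap, map_mul]
    rw [RingOfIntegers.coe_eq_algebraMap] at h2 h3
    rw [h2, h3]
    have h4 : (b : K) ^ E t = (b : K) ^ (∑ v, (q t j v).natAbs) *
        (b : K) ^ (E t - ∑ v, (q t j v).natAbs) := by
      rw [← pow_add, Nat.add_sub_cancel' (hEj t j)]
    rw [h4]
    ring
  -- logarithmic sizes
  obtain ⟨L, hL0, hL⟩ : ∃ L : ℝ, 0 ≤ L ∧ ∀ (x : ι) (σ : K ≃ₐ[ℚ] K),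
      |Real.log ‖ph ψ (sg σ (Ui x))‖| ≤ L := by
    refine ⟨∑ x : ι, ∑ σ : K ≃ₐ[ℚ] K, |Real.log ‖ph ψ (sg σ (Ui x))‖|,
      Finset.sum_nonneg fun _ _ => Finset.sum_nonneg fun _ _ => abs_nonneg _, fun x σ => ?_⟩
    refine (Finset.single_le_sum (f := fun σ : K ≃ₐ[ℚ] K => |Real.log ‖ph ψ (sg σ (Ui x))‖|)
      (fun _ _ => abs_nonneg _) (Finset.mem_univ σ)).trans ?_
    exact Finset.single_le_sum
      (f := fun x : ι => ∑ σ : K ≃ₐ[ℚ] K, |Real.log ‖ph ψ (sg σ (Ui x))‖|)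
      (fun _ _ => Finset.sum_nonneg fun _ _ => abs_nonneg _) (Finset.mem_univ x)
  have hki : ∀ t j, ∑ x : ι, ki t j x = E t := by
    intro t j
    rw [Fintype.sum_sum_type, Fintype.sum_sum_type, ← Finset.sum_add_distrib]
    have h1 : ∀ v : Fin ρ, ki t j (Sum.inl (Sum.inl v)) + ki t j (Sum.inl (Sum.inr v)) =
        (q t j v).natAbs := by
      intro v
      show (q t j v).toNat + (-q t j v).toNat = _
      omega
    rw [Finset.sum_congr rfl fun v _ => h1 v]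
    have h2 : ∑ x : Unit, ki t j (Sum.inr x) = E t - ∑ v, (q t j v).natAbs := by
      simp [ki]
    rw [h2]
    exact Nat.add_sub_cancel' (hEj t j)
  have hE : ∀ t, (E t : ℝ) ≤ (m1 + 1) * ρ * C * N t := by
    intro t
    have h1 : (E t : ℝ) = ∑ j : Fin (m1 + 1), ∑ v : Fin ρ, |(q t j v : ℝ)| := by
      simp only [E]
      push_cast
      refine Finset.sum_congr rfl fun j _ => Finset.sum_congr rfl fun v _ => ?_
      exact Nat.cast_natAbs (q t j v) |>.trans (by push_cast; rfl)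
    rw [h1]
    refine (Finset.sum_le_sum fun j _ => Finset.sum_le_sum fun v _ => hq t j v).trans ?_
    rw [Finset.sum_const, Finset.sum_const, Finset.card_univ, Finset.card_univ, Fintype.card_fin,
      Fintype.card_fin, nsmul_eq_mul, nsmul_eq_mul]
    push_cast
    exact le_of_eq (by ring)
  have hlog : ∀ t j (σ : K ≃ₐ[ℚ] K), |Real.log ‖ph ψ (sg σ (uu U (k t) j))‖| ≤
      (L * ((m1 + 1) * ρ * C)) * N t := by
    intro t j σ
    rw [huu, map_prod, map_prod, norm_prod, Real.log_prod]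
    · refine (Finset.abs_sum_le_sum_abs _ _).trans ?_
      have h1 : ∀ x ∈ (Finset.univ : Finset ι),
          |Real.log ‖ph ψ (sg σ (Ui x ^ ki t j x))‖| ≤ (ki t j x : ℝ) * L := by
        intro x _
        rw [map_pow, map_pow, norm_pow, Real.log_pow, abs_mul, Nat.abs_cast]
        exact mul_le_mul_of_nonneg_left (hL x σ) (Nat.cast_nonneg _)
      refine (Finset.sum_le_sum h1).trans ?_
      rw [← Finset.sum_mul, ← Nat.cast_sum, hki]
      calc (E t : ℝ) * L ≤ ((m1 + 1) * ρ * C * N t) * L := mul_le_mul_of_nonneg_right (hE t) hL0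
        _ = _ := by ring
    · intro x _
      rw [norm_ne_zero_iff]
      intro h
      exact pow_ne_zero _ (hUi0 x) (sg_inj σ (by rw [ph_inj ψ _ h, map_zero]))
  -- the coefficients
  choose β hβ0 hβ1 hβ2 using fun t => exists_den (a t)
  let c : ℕ → Fin (m1 + 1) → 𝓞 K := fun t j => ⟨(β t : K) * a t j, hβ2 t j⟩
  have hcK : ∀ t j, ((c t j : 𝓞 K) : K) = (β t : K) * a t j := fun t j => rfl
  have hβK : ∀ t, (β t : K) ≠ 0 := fun t => by exact_mod_cast hβ0 t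
  have hfac : ∀ t (d : Fin (m1 + 1) → K), ∑ j, d j * ((c t j * uu U (k t) j : 𝓞 K) : K) =
      ((β t : K) * (b : K) ^ E t) * ∑ j, d j * (a t j * ∏ v, g v ^ q t j v) := by
    intro t d
    rw [Finset.mul_sum]
    refine Finset.sum_congr rfl fun j _ => ?_
    rw [RingOfIntegers.coe_eq_algebraMap, map_mul, ← RingOfIntegers.coe_eq_algebraMap,
      ← RingOfIntegers.coe_eq_algebraMap, hcK, huuK]
    ring
  have hfac0 : ∀ t, (β t : K) * (b : K) ^ E t ≠ 0 := fun t => mul_ne_zero (hβK t)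
    (pow_ne_zero _ hbK)
  obtain ⟨d, hd1, hd2⟩ := subKF ψ cj hcj iK hi U (fun v => hUi0 (e v)) (L * ((m1 + 1) * ρ * C))
    (by positivity) k c N hN hlog
    (by
      intro t
      have h1 : uu U (k t) ≠ 0 := by
        intro h
        exact uu_ne U (fun v => hUi0 (e v)) (k t) 0 (congrFun h 0)
      rw [← height_int ψ _ h1]
      have h2 : (fun j => ((uu U (k t) j : 𝓞 K) : K)) =
          ((b : K) ^ E t) • (fun j => ∏ v, g v ^ q t j v) := by
        funext j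
        rw [huuK]
        rfl
      rw [h2, logHeight_smul_eq_logHeight _ (pow_ne_zero _ hbK)]
      exact hht t)
    (by
      obtain ⟨δ, hδe⟩ : ∃ δ : ℝ, δ = 1 / (16 * (((m1 * Module.finrank ℤ (𝓞 K) : ℕ) : ℝ) + 1)) :=
        ⟨_, rfl⟩
      rw [← hδe] at hsm ⊢
      have hδ : 0 < δ := by rw [hδe]; positivity
      have hm : (0 : ℝ) < m1 + 2 := by positivity
      filter_upwards [hsm] with t ht j σ
      have h1 : ph ψ (sg σ (c t j)) = (β t : ℂ) * ψ (σ (a t j)) := by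
        show ψ (σ ((c t j : 𝓞 K) : K)) = _
        rw [hcK, map_mul, map_mul, map_natCast, map_natCast]
      rw [h1, norm_mul, Complex.norm_natCast]
      have h2 : (β t : ℝ) ≤ Real.exp (∑ i, logHeight₁ (a t i)) := by
        rw [← Real.log_le_iff_le_exp (by exact_mod_cast Nat.pos_of_ne_zero (hβ0 t))]
        exact hβ1 t
      have h3 : ‖ψ (σ (a t j))‖ ≤ Real.exp (logHeight₁ (a t j)) :=
        place_le_height (InfinitePlace.mk (ψ.comp (σ : K →+* K))) (a t j)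
      have h4 : ∑ i, logHeight₁ (a t i) ≤ (m1 + 1) * (δ / (m1 + 2) * N t) := by
        refine (Finset.sum_le_sum fun i _ => ht i).trans ?_
        rw [Finset.sum_const, Finset.card_univ, Fintype.card_fin, nsmul_eq_mul]
        push_cast
        exact le_rfl
      calc (β t : ℝ) * ‖ψ (σ (a t j))‖ ≤
          Real.exp ((m1 + 1) * (δ / (m1 + 2) * N t)) * Real.exp (δ / (m1 + 2) * N t) := by
            refine mul_le_mul (h2.trans (Real.exp_le_exp.2 h4))
              (h3.trans (Real.exp_le_exp.2 (ht j))) (norm_nonneg _) (Real.exp_pos _).le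
        _ = Real.exp (δ * N t) := by
            rw [← Real.exp_add]
            congr 1
            field_simp
            ring)
    (by
      intro t
      have h1 := hfac t (fun _ => 1)
      simp only [one_mul] at h1
      rw [hsum t, mul_zero] at h1
      apply RingOfIntegers.ext
      rw [RingOfIntegers.coe_eq_algebraMap, map_sum]
      exact h1.trans (map_zero (algebraMap (𝓞 K) K)).symm)
    (by
      intro t h
      apply hnz t
      funext j
      have h1 := congrArg (fun x : 𝓞 K => (x : K)) (congrFun h j)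
      have h2 : (β t : K) * a t j = 0 := h1
      exact (mul_eq_zero.1 h2).resolve_left (hβK t))
  refine ⟨d, hd1, hd2.mono fun t ht => ?_⟩
  rw [hfac] at ht
  exact (mul_eq_zero.1 ht).resolve_left (hfac0 t)

end Pool.Agent.Y556.TW
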