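import Mathlib
import Pool.Agent.Y556.TW.SubF
import Pool.Agent.Y215.SK.Sui
import Pool.Agent.Y215.SK.Grps

set_option autoImplicit false

/-!
# Twisted power sequences `x (n + 1) = a n * x n ^ d`
-/

namespace Pool.Agent.Y556.TW

open Finset NumberField Height Module Filter Topology
open Pool.Agent.Helper259.AbsHt
open Pool.Agent.Y215.SK

variable {k : ℕ}

/-- Laurent monomials -/
noncomputable def mon (x : Fin k → Qbar) (e : Fin k → ℤ) : Qbar := ∏ i, x i ^ e i

theorem mon_ne {x : Fin k → Qbar} (hx : ∀ i, x i ≠ 0) (e : Fin k → ℤ) : mon x e ≠ 0 :=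
  Finset.prod_ne_zero_iff.2 fun i _ => zpow_ne_zero _ (hx i)

theorem mon_sub {x : Fin k → Qbar} (hx : ∀ i, x i ≠ 0) (e e' : Fin k → ℤ) :
    mon x (e - e') = mon x e / mon x e' := by
  unfold mon
  rw [← Finset.prod_div_distrib]
  exact Finset.prod_congr rfl fun i _ => zpow_sub₀ (hx i) _ _

theorem h1_mon_le (x : Fin k → Qbar) (e : Fin k → ℤ) :
    h1 (mon x e) ≤ ∑ i, |(e i : ℝ)| * h1 (x i) := by
  refine (h1_prod_le _ _).trans (Finset.sum_le_sum fun i _ => ?_)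
  rw [h1_zpow]

theorem mon_mem (K : IntermediateField ℚ Qbar) {x : Fin k → Qbar} (hx : ∀ i, x i ∈ K)
    (e : Fin k → ℤ) : mon x e ∈ K := prod_mem fun i _ => zpow_mem (hx i) _

/-- the error after the time `m` -/
noncomputable def rho (d : ℕ) (x : ℕ → Fin k → Qbar) (m n : ℕ) (i : Fin k) : Qbar :=
  x n i / x m i ^ (d ^ (n - m))

theorem rho_le (d : ℕ) (hd : 2 ≤ d) (x a : ℕ → Fin k → Qbar) (hx0 : ∀ n i, x n i ≠ 0)
    (hrec : ∀ n i, x (n + 1) i = a n i * x n i ^ d) (m n : ℕ) (hmn : m ≤ n) (i : Fin k) :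
    h1 (rho d x m n i) ≤ (d : ℝ) ^ n * ∑ l ∈ Finset.Ico m n, h1 (a l i) / (d : ℝ) ^ (l + 1) := by
  have hd0 : (0 : ℝ) < d := by
    have : 0 < d := by omega
    exact_mod_cast this
  induction n, hmn using Nat.le_induction with
  | base =>
    have : rho d x m m i = 1 := by
      unfold rho
      rw [Nat.sub_self, pow_zero, pow_one, div_self (hx0 m i)]
    rw [this, h1_one]
    simp
  | succ n hn ih =>
    have e : rho d x m (n + 1) i = a n i * rho d x m n i ^ d := by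
      unfold rho
      rw [hrec, Nat.succ_sub hn, pow_succ, pow_mul, div_pow]
      ring
    rw [e, Finset.sum_Ico_succ_top hn, mul_add]
    have h2 : (d : ℝ) ^ (n + 1) * (h1 (a n i) / (d : ℝ) ^ (n + 1)) = h1 (a n i) := by
      field_simp
    rw [h2]
    have h3 := h1_mul_le (a n i) (rho d x m n i ^ d)
    rw [h1_pow] at h3
    have h4 := mul_le_mul_of_nonneg_left ih hd0.le
    calc _ ≤ _ := h3
      _ ≤ h1 (a n i) + d * ((d : ℝ) ^ n *
          ∑ l ∈ Finset.Ico m n, h1 (a l i) / (d : ℝ) ^ (l + 1)) := by linarith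
      _ = _ := by ring

theorem tail (d : ℕ) (hd : 2 ≤ d) (a : ℕ → Fin k → Qbar)
    (hsum : ∀ i, Summable (fun n => h1 (a n i) / (d : ℝ) ^ n)) (ε : ℝ) (hε : 0 < ε) :
    ∀ᶠ m in atTop, ∀ i, ∀ n, m ≤ n →
      ∑ l ∈ Finset.Ico m n, h1 (a l i) / (d : ℝ) ^ (l + 1) ≤ ε := by
  have hd1 : (1 : ℝ) ≤ d := by
    have : 1 ≤ d := by omega
    exact_mod_cast this
  rw [eventually_all]
  intro i
  have h2 := tendsto_sum_nat_add (fun n => h1 (a n i) / (d : ℝ) ^ n)
  filter_upwards [h2.eventually_lt_const hε] with m hm n hmn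
  refine le_trans ?_ hm.le
  rw [Finset.sum_Ico_eq_sum_range]
  have h3 : ∑ l ∈ Finset.range (n - m), h1 (a (m + l) i) / (d : ℝ) ^ (m + l + 1) ≤
      ∑ l ∈ Finset.range (n - m), h1 (a (l + m) i) / (d : ℝ) ^ (l + m) := by
    refine Finset.sum_le_sum fun l _ => ?_
    rw [add_comm m l]
    refine div_le_div_of_nonneg_left (h1_nonneg _) (by positivity) ?_
    exact pow_le_pow_right₀ hd1 (Nat.le_succ _)
  refine h3.trans ?_
  exact ((summable_nat_add_iff m).2 (hsum i)).sum_le_tsum _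
    (fun l _ => div_nonneg (h1_nonneg _) (by positivity))

open Classical in
theorem tw_core (K : IntermediateField ℚ Qbar) [NumberField K] [IsGalois ℚ K]
    (hi : ∃ z : K, z ^ 2 = -1) (d : ℕ) (hd : 2 ≤ d) (x a : ℕ → Fin k → Qbar)
    (hxK : ∀ n i, x n i ∈ K) (hx0 : ∀ n i, x n i ≠ 0)
    (hrec : ∀ n i, x (n + 1) i = a n i * x n i ^ d)
    (hsum : ∀ i, Summable (fun n => h1 (a n i) / (d : ℝ) ^ n)) :
    ∀ (N : ℕ) (T : Finset (Fin k → ℤ)), T.card = N → T.Nonempty →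
      (∀ e ∈ T, ∀ e' ∈ T, e ≠ e' → ∃ η : ℝ, 0 < η ∧ ∀ᶠ n in atTop,
        η * (d : ℝ) ^ n ≤ h1 (mon (x n) (e - e'))) →
      ∀ (c : ℕ → (Fin k → ℤ) → Qbar) (φ : ℕ → ℕ), StrictMono φ →
        (∀ t, ∀ e ∈ T, c t e ∈ K) → (∀ t, ∀ e ∈ T, c t e ≠ 0) →
        (∀ e ∈ T, Tendsto (fun t => h1 (c t e) / (d : ℝ) ^ (φ t)) atTop (𝓝 0)) →
        (∀ t, ∑ e ∈ T, c t e * mon (x (φ t)) e = 0) → False := by
  have hd0 : (0 : ℝ) < d := by
    have : 0 < d := by omega
    exact_mod_cast this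
  intro N
  induction N using Nat.strong_induction_on with
  | _ N ih =>
  intro T hT hne hpair c φ hφ hcK hc0 hch hz
  obtain ⟨m1, hm1⟩ : ∃ m1, T.card = m1 + 1 := ⟨T.card - 1, by
    have := hne.card_pos
    omega⟩
  rcases Nat.eq_zero_or_pos m1 with rfl | hm1pos
  · rw [zero_add] at hm1
    obtain ⟨e, rfl⟩ := Finset.card_eq_one.1 hm1
    have h := hz 0
    rw [Finset.sum_singleton] at h
    exact mul_ne_zero (hc0 0 e (Finset.mem_singleton_self e)) (mon_ne (hx0 _) e) h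
  let ε : Fin (m1 + 1) ≃ T := (Finset.equivFinOfCardEq hm1).symm
  have hεne : (ε 0 : Fin k → ℤ) ≠ (ε (Fin.last m1) : Fin k → ℤ) := by
    intro h
    have := ε.injective (Subtype.ext h)
    have h2 := congrArg Fin.val this
    simp at h2
    omega
  obtain ⟨η, hη0, hη⟩ := hpair _ (ε 0).2 _ (ε (Fin.last m1)).2 hεne
  have hfin := finrank_pos' K
  obtain ⟨D, hD⟩ : ∃ D : ℝ, D = (finrank ℚ K : ℝ) := ⟨_, rfl⟩
  rw [← hD] at hfin
  obtain ⟨δ1, hδ1⟩ : ∃ δ1 : ℝ, δ1 = 1 / (16 * (((m1 * Module.finrank ℤ (𝓞 K) : ℕ) : ℝ) + 1)) /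
    (m1 + 2) := ⟨_, rfl⟩
  have hδ10 : 0 < δ1 := by rw [hδ1]; positivity
  obtain ⟨B, hB⟩ : ∃ B : ℝ, B = ∑ e ∈ T, ∑ i, |(e i : ℝ)| := ⟨_, rfl⟩
  have hB0 : 0 ≤ B := by
    rw [hB]
    exact Finset.sum_nonneg fun _ _ => Finset.sum_nonneg fun _ _ => abs_nonneg _
  have hBe : ∀ e ∈ T, ∑ i, |(e i : ℝ)| ≤ B := by
    intro e he
    rw [hB]
    exact Finset.single_le_sum (f := fun e : Fin k → ℤ => ∑ i, |(e i : ℝ)|)
      (fun _ _ => Finset.sum_nonneg fun _ _ => abs_nonneg _) he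
  obtain ⟨ε', hε'⟩ : ∃ ε' : ℝ, ε' = δ1 * η / (2 * (B + 1)) := ⟨_, rfl⟩
  have hε'0 : 0 < ε' := by rw [hε']; positivity
  have hBε : B * ε' ≤ δ1 * η / 2 := by
    rw [hε']
    have h2 : B * (δ1 * η / (2 * (B + 1))) = (δ1 * η / 2) * (B / (B + 1)) := by
      field_simp
    rw [h2]
    have h3 : B / (B + 1) ≤ 1 := by
      rw [div_le_one (by linarith)]
      linarith
    have h4 : 0 ≤ δ1 * η / 2 := by positivity
    nlinarith
  obtain ⟨m, hm1', hm2'⟩ := ((tail d hd a hsum ε' hε'0).and hη).exists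
  have hrho : ∀ n, m ≤ n → ∀ i, h1 (rho d x m n i) ≤ (d : ℝ) ^ n * ε' := fun n hn i =>
    (rho_le d hd x a hx0 hrec m n hn i).trans
      (mul_le_mul_of_nonneg_left (hm1' i n hn) (by positivity))
  -- the times
  obtain ⟨ψ, hψ⟩ : ∃ ψ : ℕ → ℕ, ψ = fun t => φ (t + m) := ⟨_, rfl⟩
  have hψm : ∀ t, m ≤ ψ t := fun t => by
    rw [hψ]
    exact (Nat.le_add_left m t).trans (hφ.le_apply)
  have hψs : StrictMono ψ := by
    rw [hψ]
    intro s t hst
    exact hφ (by omega)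
  have hψt : Tendsto ψ atTop atTop := hψs.tendsto_atTop
  have hdψ : Tendsto (fun t => (d : ℝ) ^ (ψ t)) atTop atTop := by
    have hd1 : (1 : ℝ) < d := by
      have : 1 < d := by omega
      exact_mod_cast this
    exact (tendsto_pow_atTop_atTop_of_one_lt hd1).comp hψt
  -- the data
  let g : Fin k → K := fun i => ⟨x m i, hxK m i⟩
  have hg : ∀ i, g i ≠ 0 := fun i h => hx0 m i (congrArg Subtype.val h)
  let q : ℕ → Fin (m1 + 1) → Fin k → ℤ := fun t j i => (ε j).1 i * (d : ℤ) ^ (ψ t - m)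
  have hrhoK : ∀ n i, rho d x m n i ∈ K := fun n i =>
    K.div_mem (hxK n i) (pow_mem (hxK m i) _)
  let a' : ℕ → Fin (m1 + 1) → K := fun t j =>
    ⟨c (t + m) (ε j).1 * mon (rho d x m (ψ t)) (ε j).1,
      K.mul_mem (hcK _ _ (ε j).2) (mon_mem K (hrhoK _) _)⟩
  have hprod : ∀ t j, ((∏ v, g v ^ q t j v : K) : Qbar) =
      mon (x m) (ε j).1 ^ (d ^ (ψ t - m)) := by
    intro t j
    have h2 : ((∏ v, g v ^ q t j v : K) : Qbar) = ∏ v, ((g v : K) : Qbar) ^ q t j v := by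
      rw [show ((∏ v, g v ^ q t j v : K) : Qbar) = algebraMap K Qbar (∏ v, g v ^ q t j v) from rfl,
        map_prod]
      exact Finset.prod_congr rfl fun v _ => map_zpow₀ _ _ _
    rw [h2]
    unfold mon
    rw [← Finset.prod_pow]
    refine Finset.prod_congr rfl fun v _ => ?_
    show (x m v) ^ ((ε j).1 v * (d : ℤ) ^ (ψ t - m)) = (x m v ^ (ε j).1 v) ^ (d ^ (ψ t - m))
    rw [zpow_mul, ← zpow_natCast (x m v ^ (ε j).1 v) (d ^ (ψ t - m))]
    push_cast
    rfl
  have hmonx : ∀ t j, mon (rho d x m (ψ t)) (ε j).1 * mon (x m) (ε j).1 ^ (d ^ (ψ t - m)) =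
      mon (x (ψ t)) (ε j).1 := by
    intro t j
    unfold mon
    rw [← Finset.prod_pow, ← Finset.prod_mul_distrib]
    refine Finset.prod_congr rfl fun v _ => ?_
    have h2 : (x m v ^ (ε j).1 v) ^ (d ^ (ψ t - m)) = (x m v ^ (d ^ (ψ t - m))) ^ (ε j).1 v := by
      rw [← zpow_natCast, ← zpow_natCast, ← zpow_mul, ← zpow_mul, mul_comm]
    rw [h2, ← mul_zpow]
    congr 1
    unfold rho
    rw [div_mul_cancel₀ _ (pow_ne_zero _ (hx0 m v))]
  have hz' : ∀ t j, ((a' t j * ∏ v, g v ^ q t j v : K) : Qbar) =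
      c (t + m) (ε j).1 * mon (x (ψ t)) (ε j).1 := by
    intro t j
    have h2 : ((a' t j * ∏ v, g v ^ q t j v : K) : Qbar) =
        (a' t j : Qbar) * ((∏ v, g v ^ q t j v : K) : Qbar) := rfl
    rw [h2, hprod, ← hmonx]
    show c (t + m) (ε j).1 * mon (rho d x m (ψ t)) (ε j).1 * _ = _
    ring
  obtain ⟨Nt, hNt⟩ : ∃ Nt : ℕ → ℝ, Nt = fun t => logHeight (fun j => ∏ v, g v ^ q t j v) :=
    ⟨_, rfl⟩
  have hlow : ∀ t, D * (η * (d : ℝ) ^ (ψ t)) ≤ Nt t := by
    intro t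
    rw [hNt]
    have h2 := logHeight_comp_le ![(0 : Fin (m1 + 1)), Fin.last m1]
      (fun j => ∏ v, g v ^ q t j v)
    refine le_trans ?_ h2
    have h3 : (fun j => ∏ v, g v ^ q t j v) ∘ ![(0 : Fin (m1 + 1)), Fin.last m1] =
        ![∏ v, g v ^ q t 0 v, ∏ v, g v ^ q t (Fin.last m1) v] := by
      funext b
      fin_cases b <;> rfl
    rw [h3, ← logHeight₁_div_eq_logHeight]
    have h4 : logHeight₁ ((∏ v, g v ^ q t 0 v) / ∏ v, g v ^ q t (Fin.last m1) v) =
        D * h1 (((∏ v, g v ^ q t 0 v) / ∏ v, g v ^ q t (Fin.last m1) v : K) : Qbar) := by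
      rw [h1_val, ← hD, mul_div_cancel₀ _ hfin.ne']
    rw [h4]
    refine mul_le_mul_of_nonneg_left ?_ hfin.le
    have h5 : (((∏ v, g v ^ q t 0 v) / ∏ v, g v ^ q t (Fin.last m1) v : K) : Qbar) =
        mon (x m) ((ε 0).1 - (ε (Fin.last m1)).1) ^ (d ^ (ψ t - m)) := by
      have h6 : (((∏ v, g v ^ q t 0 v) / ∏ v, g v ^ q t (Fin.last m1) v : K) : Qbar) =
          ((∏ v, g v ^ q t 0 v : K) : Qbar) / ((∏ v, g v ^ q t (Fin.last m1) v : K) : Qbar) :=
        rfl
      rw [h6, hprod, hprod, mon_sub (hx0 m), div_pow]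
    rw [h5, h1_pow]
    have h7 : (d : ℝ) ^ (ψ t) = (d : ℝ) ^ (ψ t - m) * (d : ℝ) ^ m := by
      rw [← pow_add, Nat.sub_add_cancel (hψm t)]
    rw [h7]
    push_cast
    have h8 := mul_le_mul_of_nonneg_left hm2' (by positivity : (0 : ℝ) ≤ (d : ℝ) ^ (ψ t - m))
    calc η * ((d : ℝ) ^ (ψ t - m) * (d : ℝ) ^ m) = (d : ℝ) ^ (ψ t - m) * (η * (d : ℝ) ^ m) := by
          ring
      _ ≤ _ := h8
  have hNtop : Tendsto Nt atTop atTop := by
    refine tendsto_atTop_mono hlow ?_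
    exact (hdψ.const_mul_atTop hη0).const_mul_atTop hfin
  have hDη : 0 < D * η := by positivity
  obtain ⟨ψ0, cj, hcj, iK, hiK⟩ := exists_psi K hi
  obtain ⟨dd, ⟨i0, hdd1⟩, hdd2⟩ := subGF ψ0 cj hcj iK hiK g hg (B / (D * η)) (by positivity) q a'
    Nt hNtop
    (by
      intro t j v
      have h2 := hlow t
      have h3 : |((q t j v : ℤ) : ℝ)| = |((ε j).1 v : ℝ)| * (d : ℝ) ^ (ψ t - m) := by
        simp only [q]
        push_cast
        rw [abs_mul, abs_of_nonneg (by positivity : (0 : ℝ) ≤ (d : ℝ) ^ (ψ t - m))]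
      rw [h3]
      have h4 : |((ε j).1 v : ℝ)| ≤ B :=
        (Finset.single_le_sum (f := fun i => |((ε j).1 i : ℝ)|) (fun _ _ => abs_nonneg _)
          (Finset.mem_univ v)).trans (hBe _ (ε j).2)
      have h5 : (d : ℝ) ^ (ψ t - m) ≤ (d : ℝ) ^ (ψ t) := by
        refine pow_le_pow_right₀ ?_ (Nat.sub_le _ _)
        have : 1 ≤ d := by omega
        exact_mod_cast this
      calc |((ε j).1 v : ℝ)| * (d : ℝ) ^ (ψ t - m) ≤ B * (d : ℝ) ^ (ψ t) :=
            mul_le_mul h4 h5 (by positivity) hB0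
        _ = B / (D * η) * (D * (η * (d : ℝ) ^ (ψ t))) := by field_simp
        _ ≤ _ := mul_le_mul_of_nonneg_left h2 (by positivity))
    (fun t => by rw [hNt])
    (by
      rw [← hδ1]
      have h2 : ∀ᶠ t in atTop, ∀ j : Fin (m1 + 1),
          h1 (c (t + m) (ε j).1) / (d : ℝ) ^ (ψ t) < δ1 * η / 2 := by
        rw [eventually_all]
        intro j
        have h3 := (hch _ (ε j).2).comp (tendsto_add_atTop_nat m)
        have h4 := h3.eventually_lt_const (by positivity : (0 : ℝ) < δ1 * η / 2)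
        filter_upwards [h4] with t ht
        rw [hψ]
        exact ht
      filter_upwards [h2] with t ht j
      have h3 := ht j
      have hpos : (0 : ℝ) < (d : ℝ) ^ (ψ t) := by positivity
      rw [div_lt_iff₀ hpos] at h3
      have h4 : logHeight₁ (a' t j) = D * h1 ((a' t j : K) : Qbar) := by
        rw [h1_val, ← hD, mul_div_cancel₀ _ hfin.ne']
      rw [h4]
      have h5 : h1 ((a' t j : K) : Qbar) ≤ h1 (c (t + m) (ε j).1) + B * ((d : ℝ) ^ (ψ t) * ε') := by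
        refine (h1_mul_le _ _).trans ?_
        have h6 : h1 (mon (rho d x m (ψ t)) (ε j).1) ≤ B * ((d : ℝ) ^ (ψ t) * ε') := by
          refine (h1_mon_le _ _).trans ?_
          refine (Finset.sum_le_sum fun i _ => mul_le_mul_of_nonneg_left
            (hrho (ψ t) (hψm t) i) (abs_nonneg _)).trans ?_
          rw [← Finset.sum_mul]
          exact mul_le_mul_of_nonneg_right (hBe _ (ε j).2) (by positivity)
        linarith
      have h7 : h1 ((a' t j : K) : Qbar) ≤ δ1 * (η * (d : ℝ) ^ (ψ t)) := by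
        refine h5.trans ?_
        have h8 : B * ((d : ℝ) ^ (ψ t) * ε') = (B * ε') * (d : ℝ) ^ (ψ t) := by ring
        rw [h8]
        have h9 := mul_le_mul_of_nonneg_right hBε hpos.le
        calc _ ≤ δ1 * η / 2 * (d : ℝ) ^ (ψ t) + δ1 * η / 2 * (d : ℝ) ^ (ψ t) := by linarith
          _ = _ := by ring
      calc D * h1 ((a' t j : K) : Qbar) ≤ D * (δ1 * (η * (d : ℝ) ^ (ψ t))) :=
            mul_le_mul_of_nonneg_left h7 hfin.le
        _ = δ1 * (D * (η * (d : ℝ) ^ (ψ t))) := by ring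
        _ ≤ δ1 * Nt t := mul_le_mul_of_nonneg_left (hlow t) hδ10.le)
    (by
      intro t
      have h2 : ((∑ j, a' t j * ∏ v, g v ^ q t j v : K) : Qbar) = 0 := by
        rw [show ((∑ j, a' t j * ∏ v, g v ^ q t j v : K) : Qbar) =
          algebraMap K Qbar (∑ j, a' t j * ∏ v, g v ^ q t j v) from rfl, map_sum]
        have h3 : ∀ j, algebraMap K Qbar (a' t j * ∏ v, g v ^ q t j v) =
            c (t + m) (ε j).1 * mon (x (ψ t)) (ε j).1 := hz' t
        rw [Finset.sum_congr rfl fun j _ => h3 j,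
          ε.sum_comp (fun e : T => c (t + m) e.1 * mon (x (ψ t)) e.1),
          Finset.sum_coe_sort T (fun e => c (t + m) e * mon (x (ψ t)) e), hψ]
        exact hz (t + m)
      exact Subtype.ext h2)
    (by
      intro t h
      have h2 := congrArg (fun y : K => (y : Qbar)) (congrFun h 0)
      have h3 : c (t + m) (ε 0).1 * mon (rho d x m (ψ t)) (ε 0).1 = 0 := h2
      refine mul_ne_zero (hc0 _ _ (ε 0).2) (mon_ne (fun i => ?_) _) h3
      exact div_ne_zero (hx0 _ _) (pow_ne_zero _ (hx0 _ _)))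
  -- the shorter relation
  obtain ⟨co, hco⟩ : ∃ co : (Fin k → ℤ) → Qbar, co = fun e =>
    ∑ j, if (ε j).1 = e then ((dd j : K) : Qbar) - ((dd (Fin.last m1) : K) : Qbar) else 0 :=
    ⟨_, rfl⟩
  have hcoj : ∀ j, co (ε j).1 = ((dd j : K) : Qbar) - ((dd (Fin.last m1) : K) : Qbar) := by
    intro j
    rw [hco]
    show ∑ j', (if (ε j').1 = (ε j).1 then ((dd j' : K) : Qbar) - ((dd (Fin.last m1) : K) : Qbar)
      else 0) = _
    rw [Finset.sum_eq_single j]
    · rw [if_pos rfl]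
    · intro j' _ hne'
      rw [if_neg]
      intro h
      exact hne' (ε.injective (Subtype.ext h))
    · intro h
      exact absurd (Finset.mem_univ j) h
  have hcoK : ∀ e, co e ∈ K := by
    intro e
    rw [hco]
    refine sum_mem fun j _ => ?_
    split_ifs
    · exact K.sub_mem (dd j).2 (dd _).2
    · exact K.zero_mem
  obtain ⟨χ, hχ, hχ2⟩ := Filter.extraction_of_frequently_atTop hdd2
  refine ih (T.filter (fun e => co e ≠ 0)).card ?_ (T.filter (fun e => co e ≠ 0)) rfl ?_ ?_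
    (fun s e => co e * c (χ s + m) e) (fun s => ψ (χ s)) (hψs.comp hχ) ?_ ?_ ?_ ?_
  · rw [← hT]
    apply Finset.card_lt_card
    rw [Finset.filter_ssubset]
    refine ⟨(ε (Fin.last m1)).1, (ε (Fin.last m1)).2, ?_⟩
    rw [hcoj, sub_self]
    simp
  · refine ⟨(ε i0).1, Finset.mem_filter.2 ⟨(ε i0).2, ?_⟩⟩
    rw [hcoj, sub_ne_zero]
    exact fun h => hdd1 (Subtype.ext h)
  · intro e he e' he' hne'
    exact hpair e (Finset.mem_filter.1 he).1 e' (Finset.mem_filter.1 he').1 hne'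
  · intro t e he
    exact K.mul_mem (hcoK e) (hcK _ _ (Finset.mem_filter.1 he).1)
  · intro t e he
    exact mul_ne_zero (Finset.mem_filter.1 he).2 (hc0 _ _ (Finset.mem_filter.1 he).1)
  · intro e he
    have h2 : Tendsto (fun s => h1 (co e) / (d : ℝ) ^ (ψ (χ s)) +
        h1 (c (χ s + m) e) / (d : ℝ) ^ (ψ (χ s))) atTop (𝓝 0) := by
      have h3 : Tendsto (fun s => h1 (co e) / (d : ℝ) ^ (ψ (χ s))) atTop (𝓝 0) :=
        (hdψ.comp hχ.tendsto_atTop).const_div_atTop _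
      have h4 := ((hch e (Finset.mem_filter.1 he).1).comp (tendsto_add_atTop_nat m)).comp
        hχ.tendsto_atTop
      have h5 : Tendsto (fun s => h1 (c (χ s + m) e) / (d : ℝ) ^ (ψ (χ s))) atTop (𝓝 0) := by
        rw [hψ]
        exact h4
      simpa using h3.add h5
    refine squeeze_zero (fun s => div_nonneg (h1_nonneg _) (by positivity)) (fun s => ?_) h2
    rw [← add_div]
    exact div_le_div_of_nonneg_right (h1_mul_le _ _) (by positivity)
  · intro s
    have h2 := hχ2 s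
    have h3 : ∑ e ∈ T, co e * c (χ s + m) e * mon (x (ψ (χ s))) e = 0 := by
      rw [← Finset.sum_coe_sort T (fun e => co e * c (χ s + m) e * mon (x (ψ (χ s))) e),
        ← ε.sum_comp (fun e : T => co e.1 * c (χ s + m) e.1 * mon (x (ψ (χ s))) e.1)]
      have h4 : ∀ j, co (ε j).1 * c (χ s + m) (ε j).1 * mon (x (ψ (χ s))) (ε j).1 =
          ((dd j : K) : Qbar) * ((a' (χ s) j * ∏ v, g v ^ q (χ s) j v : K) : Qbar) -
          ((dd (Fin.last m1) : K) : Qbar) * (c (χ s + m) (ε j).1 *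
            mon (x (ψ (χ s))) (ε j).1) := by
        intro j
        rw [hcoj, hz']
        ring
      rw [Finset.sum_congr rfl fun j _ => h4 j, Finset.sum_sub_distrib, ← Finset.mul_sum,
        ε.sum_comp (fun e : T => c (χ s + m) e.1 * mon (x (ψ (χ s))) e.1),
        Finset.sum_coe_sort T (fun e => c (χ s + m) e * mon (x (ψ (χ s))) e)]
      have h5 : ∑ e ∈ T, c (χ s + m) e * mon (x (ψ (χ s))) e = 0 := by
        rw [hψ]
        exact hz _
      have h6 : ∑ j, ((dd j : K) : Qbar) * ((a' (χ s) j * ∏ v, g v ^ q (χ s) j v : K) : Qbar) =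
          0 := by
        have h7 := congrArg (fun y : K => algebraMap K Qbar y) h2
        simp only [map_sum, map_mul, map_zero] at h7
        rw [← h7]
        refine Finset.sum_congr rfl fun j _ => ?_
        show _ = algebraMap K Qbar (dd j) * (algebraMap K Qbar (a' (χ s) j) *
          algebraMap K Qbar (∏ v, g v ^ q (χ s) j v))
        rfl
      rw [h5, h6, mul_zero, sub_zero]
    rw [Finset.sum_filter]
    refine Eq.trans ?_ h3
    refine Finset.sum_congr rfl fun e _ => ?_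
    by_cases h : co e = 0
    · rw [if_neg (by simpa using h), h]
      ring
    · rw [if_pos h]

end Pool.Agent.Y556.TW
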