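import Mathlib
import Pool.Agent.Y556.TW.Twist
import Pool.Agent.Y556.DM.Ops

set_option autoImplicit false

/-!
# Class sums for twisted power sequences
-/

namespace Pool.Agent.Y556.TW

open Finset NumberField Height Module Filter Topology
open Pool.Agent.Helper259.AbsHt
open Pool.Agent.Y215.SK
open Pool.Agent.Y556.DM (EPf EP Dml Psi)

variable {k : ℕ}

/-- the canonical height of the monomial is zero -/
def Zr (d : ℕ) (x : ℕ → Fin k → Qbar) (e : Fin k → ℤ) : Prop :=
  Tendsto (fun n => h1 (mon (x n) e) / (d : ℝ) ^ n) atTop (𝓝 0)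

theorem mon_zero (x : Fin k → Qbar) : mon x 0 = 1 := by
  unfold mon
  simp

theorem zr_zero (d : ℕ) (x : ℕ → Fin k → Qbar) : Zr d x 0 := by
  unfold Zr
  simp only [mon_zero, h1_one, zero_div]
  exact tendsto_const_nhds

theorem zr_sub {d : ℕ} {x : ℕ → Fin k → Qbar} (hx0 : ∀ n i, x n i ≠ 0) {e e' : Fin k → ℤ}
    (h : Zr d x e) (h' : Zr d x e') : Zr d x (e - e') := by
  unfold Zr at *
  have h2 := h.add h'
  rw [add_zero] at h2
  refine squeeze_zero (fun n => div_nonneg (h1_nonneg _) (by positivity)) (fun n => ?_) h2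
  rw [← add_div, mon_sub (hx0 n)]
  exact div_le_div_of_nonneg_right (h1_div_le _ _) (by positivity)

theorem mon_rec (d : ℕ) {x a : ℕ → Fin k → Qbar} (hrec : ∀ n i, x (n + 1) i = a n i * x n i ^ d)
    (n : ℕ) (e : Fin k → ℤ) : mon (x (n + 1)) e = mon (a n) e * mon (x n) e ^ d := by
  unfold mon
  rw [← Finset.prod_pow, ← Finset.prod_mul_distrib]
  refine Finset.prod_congr rfl fun i _ => ?_
  rw [hrec, mul_zpow]
  congr 1
  rw [← zpow_natCast, ← zpow_natCast, ← zpow_mul, ← zpow_mul, mul_comm]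

/-- the canonical height of a monomial is zero or positive -/
theorem dich (d : ℕ) (hd : 2 ≤ d) {x a : ℕ → Fin k → Qbar} (ha0 : ∀ n i, a n i ≠ 0)
    (hrec : ∀ n i, x (n + 1) i = a n i * x n i ^ d)
    (hsum : ∀ i, Summable (fun n => h1 (a n i) / (d : ℝ) ^ n)) (e : Fin k → ℤ) :
    Zr d x e ∨ ∃ η : ℝ, 0 < η ∧ ∀ᶠ n in atTop, η * (d : ℝ) ^ n ≤ h1 (mon (x n) e) := by
  have hd0 : (0 : ℝ) < d := by
    have : 0 < d := by omega
    exact_mod_cast this
  have hd1 : (1 : ℝ) ≤ d := by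
    have : 1 ≤ d := by omega
    exact_mod_cast this
  have hs : Summable (fun n => ∑ i, |(e i : ℝ)| * (h1 (a n i) / (d : ℝ) ^ n)) :=
    summable_sum fun i _ => (hsum i).mul_left _
  have hdist : ∀ n, dist (h1 (mon (x n) e) / (d : ℝ) ^ n)
      (h1 (mon (x (n + 1)) e) / (d : ℝ) ^ (n + 1)) ≤
      ∑ i, |(e i : ℝ)| * (h1 (a n i) / (d : ℝ) ^ n) := by
    intro n
    have h2 : h1 (mon (x (n + 1)) e) ≤ h1 (mon (a n) e) + d * h1 (mon (x n) e) := by
      rw [mon_rec d hrec]
      refine (h1_mul_le _ _).trans ?_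
      rw [h1_pow]
    have h3 : d * h1 (mon (x n) e) ≤ h1 (mon (x (n + 1)) e) + h1 (mon (a n) e) := by
      have h4 : mon (x n) e ^ d = mon (x (n + 1)) e / mon (a n) e := by
        rw [mon_rec d hrec, mul_div_cancel_left₀ _ (mon_ne (ha0 n) e)]
      rw [← h1_pow, h4]
      exact h1_div_le _ _
    have h4 : h1 (mon (a n) e) ≤ ∑ i, |(e i : ℝ)| * h1 (a n i) := h1_mon_le _ _
    rw [Real.dist_eq]
    have h5 : h1 (mon (x n) e) / (d : ℝ) ^ n - h1 (mon (x (n + 1)) e) / (d : ℝ) ^ (n + 1) =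
        (d * h1 (mon (x n) e) - h1 (mon (x (n + 1)) e)) / (d : ℝ) ^ (n + 1) := by
      field_simp
      ring
    rw [h5, abs_div, abs_of_pos (by positivity : (0 : ℝ) < (d : ℝ) ^ (n + 1)),
      div_le_iff₀ (by positivity)]
    have h6 : |d * h1 (mon (x n) e) - h1 (mon (x (n + 1)) e)| ≤ h1 (mon (a n) e) := by
      rw [abs_le]
      constructor
      · linarith
      · linarith
    refine h6.trans (h4.trans ?_)
    rw [Finset.sum_mul]
    refine Finset.sum_le_sum fun i _ => ?_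
    have h7 : |(e i : ℝ)| * (h1 (a n i) / (d : ℝ) ^ n) * (d : ℝ) ^ (n + 1) =
        |(e i : ℝ)| * h1 (a n i) * d := by
      rw [pow_succ]
      field_simp
    rw [h7]
    have h8 : 0 ≤ |(e i : ℝ)| * h1 (a n i) := mul_nonneg (abs_nonneg _) (h1_nonneg _)
    nlinarith
  have hC := cauchySeq_of_dist_le_of_summable _ hdist hs
  obtain ⟨l, hl⟩ := cauchySeq_tendsto_of_complete hC
  have hl0 : 0 ≤ l := ge_of_tendsto' hl fun n => div_nonneg (h1_nonneg _) (by positivity)
  rcases hl0.eq_or_lt with h | h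
  · left
    unfold Zr
    rw [h]
    exact hl
  · right
    refine ⟨l / 2, by positivity, ?_⟩
    filter_upwards [hl.eventually_const_lt (half_lt_self h)] with n hn
    rw [lt_div_iff₀ (by positivity)] at hn
    exact hn.le

open Classical in
/-- **Class sums.** -/
theorem tw_class (K : IntermediateField ℚ Qbar) [NumberField K] [IsGalois ℚ K]
    (hi : ∃ z : K, z ^ 2 = -1) (d : ℕ) (hd : 2 ≤ d) (x a : ℕ → Fin k → Qbar)
    (hxK : ∀ n i, x n i ∈ K) (hx0 : ∀ n i, x n i ≠ 0) (ha0 : ∀ n i, a n i ≠ 0)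
    (hrec : ∀ n i, x (n + 1) i = a n i * x n i ^ d)
    (hsum : ∀ i, Summable (fun n => h1 (a n i) / (d : ℝ) ^ n))
    (T : Finset (Fin k → ℤ)) (c : ℕ → (Fin k → ℤ) → Qbar) (hcK : ∀ n, ∀ e ∈ T, c n e ∈ K)
    (hch : ∀ e ∈ T, Tendsto (fun n => h1 (c n e) / (d : ℝ) ^ n) atTop (𝓝 0)) (b : Fin k → ℤ) :
    ∀ᶠ n in atTop, ∑ e ∈ T, c n e * mon (x n) e = 0 →
      ∑ e ∈ T.filter (fun e => Zr d x (e - b)), c n e * mon (x n) e = 0 := by
  have hd1 : (1 : ℝ) < d := by
    have : 1 < d := by omega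
    exact_mod_cast this
  -- representatives
  let st : Setoid (Fin k → ℤ) := ⟨fun e e' => Zr d x (e - e'), fun e => by
      rw [sub_self]; exact zr_zero d x, fun {e e'} h => by
      have h2 := zr_sub hx0 (zr_zero d x) h
      rwa [zero_sub, neg_sub] at h2, fun {e e' e''} h h' => by
      have h2 := zr_sub hx0 (zr_zero d x) h'
      have h3 := zr_sub hx0 h h2
      have e1 : e - e' - (0 - (e' - e'')) = e - e'' := by ring
      rwa [e1] at h3⟩
  obtain ⟨f, hf⟩ : ∃ f : (Fin k → ℤ) → (Fin k → ℤ), f = fun e => (Quotient.mk st e).out :=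
    ⟨_, rfl⟩
  have hf1 : ∀ e, Zr d x (e - f e) := by
    intro e
    have h2 : st.r (f e) e := by
      rw [hf]
      exact Quotient.mk_out (s := st) e
    exact st.symm h2
  have hf2 : ∀ e e', Zr d x (e - e') → f e = f e' := by
    intro e e' h
    rw [hf]
    have h2 : Quotient.mk st e = Quotient.mk st e' := Quotient.sound h
    simp only [h2]
  have hf3 : ∀ e e', f e = f e' → Zr d x (e - e') := by
    intro e e' h
    have h2 := zr_sub hx0 (hf1 e) (hf1 e')
    have e1 : e - f e - (e' - f e') = e - e' := by rw [h]; ring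
    rwa [e1] at h2
  obtain ⟨C, hC⟩ : ∃ C : ℕ → (Fin k → ℤ) → Qbar, C = fun n β =>
    ∑ e ∈ T.filter (fun e => f e = β), c n e * mon (x n) (e - β) := ⟨_, rfl⟩
  have hCm : ∀ n β, C n β * mon (x n) β = ∑ e ∈ T.filter (fun e => f e = β),
      c n e * mon (x n) e := by
    intro n β
    rw [hC]
    show (∑ e ∈ T.filter (fun e => f e = β), c n e * mon (x n) (e - β)) * mon (x n) β = _
    rw [Finset.sum_mul]
    refine Finset.sum_congr rfl fun e _ => ?_
    rw [mon_sub (hx0 n), mul_assoc, div_mul_cancel₀ _ (mon_ne (hx0 n) β)]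
  have hCh : ∀ β, Tendsto (fun n => h1 (C n β) / (d : ℝ) ^ n) atTop (𝓝 0) := by
    intro β
    have h2 : Tendsto (fun n => ((T.filter (fun e => f e = β)).card * Real.log 2) / (d : ℝ) ^ n +
        ∑ e ∈ T.filter (fun e => f e = β), (h1 (c n e) / (d : ℝ) ^ n +
          h1 (mon (x n) (e - β)) / (d : ℝ) ^ n)) atTop (𝓝 0) := by
      have h3 : Tendsto (fun n : ℕ => ((T.filter (fun e => f e = β)).card * Real.log 2) /
          (d : ℝ) ^ n) atTop (𝓝 0) :=
        (tendsto_pow_atTop_atTop_of_one_lt hd1).const_div_atTop _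
      have h4 : Tendsto (fun n => ∑ e ∈ T.filter (fun e => f e = β),
          (h1 (c n e) / (d : ℝ) ^ n + h1 (mon (x n) (e - β)) / (d : ℝ) ^ n)) atTop
          (𝓝 (∑ e ∈ T.filter (fun e => f e = β), (0 + 0))) := by
        refine tendsto_finset_sum _ fun e he => ?_
        obtain ⟨he1, he2⟩ := Finset.mem_filter.1 he
        have h5 := hf1 e
        rw [he2] at h5
        exact (hch e he1).add h5
      have h6 := h3.add h4
      simpa using h6
    refine squeeze_zero (fun n => div_nonneg (h1_nonneg _) (by positivity)) (fun n => ?_) h2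
    rw [hC]
    show h1 (∑ e ∈ T.filter (fun e => f e = β), c n e * mon (x n) (e - β)) / (d : ℝ) ^ n ≤ _
    have h3 : ∑ e ∈ T.filter (fun e => f e = β), (h1 (c n e) / (d : ℝ) ^ n +
        h1 (mon (x n) (e - β)) / (d : ℝ) ^ n) = (∑ e ∈ T.filter (fun e => f e = β),
        (h1 (c n e) + h1 (mon (x n) (e - β)))) / (d : ℝ) ^ n := by
      rw [Finset.sum_div]
      exact Finset.sum_congr rfl fun e _ => (add_div _ _ _).symm
    rw [h3, ← add_div]
    refine div_le_div_of_nonneg_right ?_ (by positivity)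
    refine (h1_sum_le _ _).trans ?_
    have h4 := Finset.sum_le_sum fun e (_ : e ∈ T.filter (fun e => f e = β)) =>
      h1_mul_le (c n e) (mon (x n) (e - β))
    linarith
  by_contra hcon
  rw [Filter.not_eventually] at hcon
  push Not at hcon
  obtain ⟨Rep, hRep⟩ : ∃ Rep : Finset (Fin k → ℤ), Rep = T.image f := ⟨_, rfl⟩
  -- the support
  have hfreq : ∃ T' ∈ Rep.powerset, ∃ᶠ n in atTop, Rep.filter (fun β => C n β ≠ 0) = T' ∧
      (∑ e ∈ T, c n e * mon (x n) e = 0) ∧ T'.Nonempty := by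
    by_contra h
    have h2 : ∀ᶠ n in atTop, ∀ T' ∈ Rep.powerset,
        ¬ (Rep.filter (fun β => C n β ≠ 0) = T' ∧
          (∑ e ∈ T, c n e * mon (x n) e = 0) ∧ T'.Nonempty) := by
      rw [Filter.eventually_all_finset]
      intro T' hT'
      exact Filter.not_frequently.1 fun h' => h ⟨T', hT', h'⟩
    obtain ⟨n, ⟨hn1, hn2⟩, hn3⟩ := (hcon.and_eventually h2).exists
    refine hn3 (Rep.filter (fun β => C n β ≠ 0)) (Finset.mem_powerset.2 (Finset.filter_subset _ _))
      ⟨rfl, hn1, f b, ?_⟩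
    have hbcl : T.filter (fun e => Zr d x (e - b)) = T.filter (fun e => f e = f b) := by
      ext e
      simp only [Finset.mem_filter]
      exact and_congr_right fun _ => ⟨hf2 e b, hf3 e b⟩
    rw [hbcl] at hn2
    rw [Finset.mem_filter]
    constructor
    · rw [hRep, Finset.mem_image]
      by_contra hno
      apply hn2
      refine Finset.sum_eq_zero fun e he => ?_
      exact absurd ⟨e, (Finset.mem_filter.1 he).1, (Finset.mem_filter.1 he).2⟩ hno
    · intro h0
      apply hn2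
      rw [← hCm, h0, zero_mul]
  obtain ⟨T', hT', hfr⟩ := hfreq
  obtain ⟨φ, hφ, hφ2⟩ := Filter.extraction_of_frequently_atTop hfr
  have hmem : ∀ β ∈ T', β ∈ Rep := fun β hβ => Finset.mem_powerset.1 hT' hβ
  refine tw_core K hi d hd x a hxK hx0 hrec hsum T'.card T' rfl (hφ2 0).2.2 ?_
    (fun t β => C (φ t) β) φ hφ ?_ ?_ ?_ ?_
  · intro e he e' he' hne
    rcases dich d hd ha0 hrec hsum (e - e') with h | h
    · exfalso
      apply hne
      obtain ⟨e1, -, rfl⟩ := Finset.mem_image.1 (hRep ▸ hmem e he)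
      obtain ⟨e2, -, rfl⟩ := Finset.mem_image.1 (hRep ▸ hmem e' he')
      have h2 : f (f e1) = f (f e2) := hf2 _ _ h
      have h3 : ∀ e, f (f e) = f e := fun e => (hf2 _ _ (hf1 e)).symm
      rw [h3, h3] at h2
      exact h2
    · exact h
  · intro t β _
    rw [hC]
    exact sum_mem fun e he => K.mul_mem (hcK _ e (Finset.mem_filter.1 he).1)
      (mon_mem K (hxK _) _)
  · intro t β hβ
    have h2 := (hφ2 t).1
    rw [← h2] at hβ
    exact (Finset.mem_filter.1 hβ).2
  · intro β _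
    exact (hCh β).comp hφ.tendsto_atTop
  · intro t
    obtain ⟨h2, h3, -⟩ := hφ2 t
    rw [← h2, Finset.sum_filter]
    have h4 : ∑ β ∈ Rep, C (φ t) β * mon (x (φ t)) β = 0 := by
      rw [← h3, ← Finset.sum_fiberwise_of_maps_to (s := T) (t := Rep) (g := f)
        (fun e he => hRep ▸ Finset.mem_image_of_mem f he)]
      exact Finset.sum_congr rfl fun β _ => hCm _ β
    refine Eq.trans ?_ h4
    refine Finset.sum_congr rfl fun β _ => ?_
    by_cases h : C (φ t) β = 0
    · rw [if_neg (by simpa using h), h, zero_mul]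
    · rw [if_pos h]

end Pool.Agent.Y556.TW
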