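import Mathlib
import Pool.Agent.Y556.TW.Class

set_option autoImplicit false

/-!
# Dynamical Mordell-Lang for twisted power sequences over a sequence
-/

namespace Pool.Agent.Y556.TW

open Finset NumberField Height Module Filter Topology MvPolynomial
open Pool.Agent.Helper259.AbsHt
open Pool.Agent.Y215.SK (h1 h1_nonneg h1_zero h1_one h1_mul_le h1_add_le h1_pow h1_inv h1_div_le
  exists_galois)
open Pool.Agent.Y556.DM (EPf EP Dml Psi eval_Psi)

variable {k : ℕ}

/-- exponents as integral vectors -/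
def toZ (m : Fin k →₀ ℕ) : Fin k → ℤ := fun i => (m i : ℤ)

/-- integral vectors as exponents -/
noncomputable def ofZ (e : Fin k → ℤ) : Fin k →₀ ℕ :=
  Finsupp.equivFunOnFinite.symm (fun i => (e i).toNat)

theorem ofZ_toZ (m : Fin k →₀ ℕ) : ofZ (toZ m) = m := by
  ext i
  simp [ofZ, toZ]

section

variable {ι : Type}

open Classical in
/-- the exponents of `F` in the second group of variables -/
noncomputable def supp (F : MvPolynomial (ι ⊕ Fin k) Qbar) : Finset (Fin k → ℤ) :=
  (Psi F).support.image toZ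

/-- the coefficients of `F` in the second group of variables -/
noncomputable def cf (F : MvPolynomial (ι ⊕ Fin k) Qbar) (e : Fin k → ℤ) : MvPolynomial ι Qbar :=
  coeff (ofZ e) (Psi F)

theorem expand (F : MvPolynomial (ι ⊕ Fin k) Qbar) (y : ι → Qbar) (x : Fin k → Qbar) :
    eval (Sum.elim y x) F = ∑ e ∈ supp F, eval y (cf F e) * mon x e := by
  rw [← eval_Psi, eval_map, eval₂_eq', supp, Finset.sum_image]
  · refine Finset.sum_congr rfl fun m _ => ?_
    rw [cf, ofZ_toZ]
    congr 1
    unfold mon toZ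
    exact Finset.prod_congr rfl fun i _ => (zpow_natCast _ _).symm
  · intro m _ m' _ h
    have := congrArg ofZ h
    rwa [ofZ_toZ, ofZ_toZ] at this

/-- twisted power sequences over a sequence of smaller growth, in a finitely generated field -/
structure TwS [Fintype ι] (d : ℕ) (y : ℕ → ι → Qbar) (x a : ℕ → Fin k → Qbar) : Prop where
  hd : 2 ≤ d
  fld : ∃ s : Set Qbar, s.Finite ∧ ∀ n, (∀ i, y n i ∈ IntermediateField.adjoin ℚ s) ∧
    ∀ i, x n i ∈ IntermediateField.adjoin ℚ s
  hx0 : ∀ n i, x n i ≠ 0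
  ha0 : ∀ n i, a n i ≠ 0
  hrec : ∀ n i, x (n + 1) i = a n i * x n i ^ d
  hsum : ∀ i, Summable (fun n => h1 (a n i) / (d : ℝ) ^ n)
  hgr : Tendsto (fun n => (∑ i, h1 (y n i)) / (d : ℝ) ^ n) atTop (𝓝 0)

variable [Fintype ι] {d : ℕ} {y : ℕ → ι → Qbar} {x a : ℕ → Fin k → Qbar}

theorem eval_mem (K : IntermediateField ℚ Qbar) (G : MvPolynomial ι Qbar)
    (hG : ∀ m ∈ G.support, coeff m G ∈ K) {w : ι → Qbar} (hw : ∀ i, w i ∈ K) :
    eval w G ∈ K := by
  rw [eval_eq']
  exact sum_mem fun m hm => K.mul_mem (hG m hm) (prod_mem fun i _ => pow_mem (hw i) _)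

theorem TwS.field (h : TwS d y x a) (s' : Set Qbar) (hs' : s'.Finite) :
    ∃ (K : IntermediateField ℚ Qbar) (_ : NumberField K) (_ : IsGalois ℚ K),
      (∃ z : K, z ^ 2 = -1) ∧ (∀ n i, y n i ∈ K) ∧ (∀ n i, x n i ∈ K) ∧ ∀ w ∈ s', w ∈ K := by
  obtain ⟨s, hs, hys⟩ := h.fld
  obtain ⟨z, hz⟩ := IsAlgClosed.exists_pow_nat_eq (-1 : Qbar) (n := 2) (by norm_num)
  obtain ⟨K, hK, hgal, hmem⟩ := exists_galois (s ∪ s' ∪ {z})
    ((hs.union hs').union (Set.finite_singleton z))
  have hsK : IntermediateField.adjoin ℚ s ≤ K := by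
    rw [IntermediateField.adjoin_le_iff]
    exact fun w hw => hmem w (Or.inl (Or.inl hw))
  exact ⟨K, hK, hgal, ⟨⟨z, hmem z (Or.inr rfl)⟩, Subtype.ext hz⟩, fun n i => hsK ((hys n).1 i),
    fun n i => hsK ((hys n).2 i), fun w hw => hmem w (Or.inl (Or.inr hw))⟩

theorem eval_growth (hd : 2 ≤ d)
    (hgr : Tendsto (fun n => (∑ i, h1 (y n i)) / (d : ℝ) ^ n) atTop (𝓝 0))
    (G : MvPolynomial ι Qbar) :
    Tendsto (fun n => h1 (eval (y n) G) / (d : ℝ) ^ n) atTop (𝓝 0) := by
  have hd1 : (1 : ℝ) < d := by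
    have : 1 < d := by omega
    exact_mod_cast this
  obtain ⟨C, hC0, hC⟩ := Pool.Agent.Helper259.Uniform.h1_eval G
  have h1' : ∀ x, Pool.Agent.Helper259.Uniform.h1 x = h1 x := fun x =>
    Pool.Agent.Y556.SK.h1_swap x
  simp only [h1'] at hC
  have h2 : Tendsto (fun n => C * (1 / (d : ℝ) ^ n + (∑ i, h1 (y n i)) / (d : ℝ) ^ n)) atTop
      (𝓝 0) := by
    have h3 : Tendsto (fun n : ℕ => 1 / (d : ℝ) ^ n) atTop (𝓝 0) :=
      (tendsto_pow_atTop_atTop_of_one_lt hd1).const_div_atTop _
    simpa using (h3.add hgr).const_mul C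
  refine squeeze_zero (fun n => div_nonneg (h1_nonneg _) (by positivity)) (fun n => ?_) h2
  rw [← add_div, ← mul_div_assoc]
  exact div_le_div_of_nonneg_right (hC (y n)) (by positivity)

open Classical in
/-- class sums -/
theorem TwS.cls (h : TwS d y x a) (F : MvPolynomial (ι ⊕ Fin k) Qbar) (b : Fin k → ℤ) :
    ∀ᶠ n in atTop, eval (Sum.elim (y n) (x n)) F = 0 →
      ∑ e ∈ (supp F).filter (fun e => Zr d x (e - b)), eval (y n) (cf F e) * mon (x n) e = 0 := by
  obtain ⟨K, hK, hgal, hi, hyK, hxK, hcK⟩ := h.field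
    (⋃ e ∈ supp F, ⋃ m ∈ (cf F e).support, {coeff m (cf F e)})
    ((Finset.finite_toSet _).biUnion fun e _ => (Finset.finite_toSet _).biUnion fun m _ =>
      Set.finite_singleton _)
  have h2 := tw_class K hi d h.hd x a hxK h.hx0 h.ha0 h.hrec h.hsum (supp F)
    (fun n e => eval (y n) (cf F e))
    (fun n e he => eval_mem K _ (fun m hm => hcK _ (Set.mem_biUnion he (Set.mem_biUnion hm rfl)))
      (hyK n)) (fun e _ => eval_growth h.hd h.hgr _) b
  refine h2.mono fun n hn hF => hn ?_
  rw [← expand]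
  exact hF

open Classical in
/-- **Twisted power sequences.** If the monomials of canonical height zero are rational functions
of `y`, then zero sets of polynomials along `(y, x)` are eventually periodic if this holds for
`y`. -/
theorem TwS.dml (h : TwS d y x a) (hy : Dml y)
    (hZ : ∀ e, Zr d x e → ∃ p q : MvPolynomial ι Qbar, ∀ᶠ n in atTop, eval (y n) q ≠ 0 ∧
      mon (x n) e * eval (y n) q = eval (y n) p) :
    Dml (fun n => Sum.elim (y n) (x n)) := by
  intro F
  have hZ' : ∀ e, ∃ p q : MvPolynomial ι Qbar, Zr d x e → ∀ᶠ n in atTop, eval (y n) q ≠ 0 ∧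
      mon (x n) e * eval (y n) q = eval (y n) p := by
    intro e
    by_cases he : Zr d x e
    · obtain ⟨p, q, hpq⟩ := hZ e he
      exact ⟨p, q, fun _ => hpq⟩
    · exact ⟨0, 1, fun h => absurd h he⟩
  choose p q hpq using hZ'
  obtain ⟨T, hT⟩ : ∃ T : (Fin k → ℤ) → Finset (Fin k → ℤ), T = fun b =>
    (supp F).filter (fun e => Zr d x (e - b)) := ⟨_, rfl⟩
  obtain ⟨G, hG⟩ : ∃ G : (Fin k → ℤ) → MvPolynomial ι Qbar, G = fun b =>
    ∑ e ∈ T b, cf F e * p (e - b) * ∏ e' ∈ (T b).erase e, q (e' - b) := ⟨_, rfl⟩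
  have hTZ : ∀ b, ∀ e ∈ T b, Zr d x (e - b) := by
    intro b e he
    rw [hT] at he
    exact (Finset.mem_filter.1 he).2
  have hGev : ∀ b, ∀ᶠ n in atTop, (eval (y n) (G b) = 0 ↔
      ∑ e ∈ T b, eval (y n) (cf F e) * mon (x n) e = 0) := by
    intro b
    have h2 : ∀ᶠ n in atTop, ∀ e ∈ T b, eval (y n) (q (e - b)) ≠ 0 ∧
        mon (x n) (e - b) * eval (y n) (q (e - b)) = eval (y n) (p (e - b)) := by
      rw [Filter.eventually_all_finset]
      exact fun e he => hpq _ (hTZ b e he)
    filter_upwards [h2] with n hn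
    have h3 : eval (y n) (G b) * mon (x n) b = (∏ e' ∈ T b, eval (y n) (q (e' - b))) *
        ∑ e ∈ T b, eval (y n) (cf F e) * mon (x n) e := by
      rw [hG]
      simp only [map_sum, map_mul, map_prod]
      rw [Finset.sum_mul, Finset.mul_sum]
      refine Finset.sum_congr rfl fun e he => ?_
      rw [← Finset.mul_prod_erase (T b) (fun e' => eval (y n) (q (e' - b))) he, ← (hn e he).2,
        mon_sub (h.hx0 n)]
      have h4 := mon_ne (h.hx0 n) b
      field_simp
    have h4 : (∏ e' ∈ T b, eval (y n) (q (e' - b))) ≠ 0 :=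
      Finset.prod_ne_zero_iff.2 fun e he => (hn e he).1
    have h5 := mon_ne (h.hx0 n) b
    constructor
    · intro h6
      rw [h6, zero_mul] at h3
      exact (mul_eq_zero.1 h3.symm).resolve_left h4
    · intro h6
      rw [h6, mul_zero] at h3
      exact (mul_eq_zero.1 h3).resolve_right h5
  have hmain : EP {n | ∀ b ∈ supp F, n ∈ {n | eval (y n) (G b) = 0}} :=
    EP.forall_mem _ fun b _ => hy _
  have hev : ∀ᶠ n in atTop, ∀ b ∈ supp F, (eval (y n) (G b) = 0 ↔
      ∑ e ∈ T b, eval (y n) (cf F e) * mon (x n) e = 0) ∧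
      (eval (Sum.elim (y n) (x n)) F = 0 →
        ∑ e ∈ T b, eval (y n) (cf F e) * mon (x n) e = 0) := by
    rw [Filter.eventually_all_finset]
    intro b _
    have h2 := h.cls F b
    rw [hT] at hGev ⊢
    exact (hGev b).and h2
  refine hmain.congr (hev.mono fun n hn => ?_)
  simp only [Set.mem_setOf_eq]
  constructor
  · intro h2
    -- representatives
    let st : Setoid (Fin k → ℤ) := ⟨fun e e' => Zr d x (e - e'), fun e => by
        rw [sub_self]; exact zr_zero d x, fun {e e'} h' => by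
        have h3 := zr_sub h.hx0 (zr_zero d x) h'
        rwa [zero_sub, neg_sub] at h3, fun {e e' e''} h' h'' => by
        have h3 := zr_sub h.hx0 (zr_zero d x) h''
        have h4 := zr_sub h.hx0 h' h3
        have e1 : e - e' - (0 - (e' - e'')) = e - e'' := by ring
        rwa [e1] at h4⟩
    rw [expand, ← Finset.sum_fiberwise_of_maps_to (s := supp F)
      (t := (supp F).image (Quotient.mk st)) (g := Quotient.mk st)
      (fun e he => Finset.mem_image_of_mem _ he)]
    refine Finset.sum_eq_zero fun β hβ => ?_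
    obtain ⟨b, hb, rfl⟩ := Finset.mem_image.1 hβ
    have h3 : (supp F).filter (fun e => Quotient.mk st e = Quotient.mk st b) = T b := by
      rw [hT]
      ext e
      simp only [Finset.mem_filter]
      refine and_congr_right fun _ => ?_
      exact Quotient.eq (r := st)
    rw [h3]
    exact (hn b hb).1.1 (h2 b hb)
  · intro h2 b hb
    exact (hn b hb).1.2 ((hn b hb).2 h2)

/-- **The generic case.** -/
theorem TwS.generic (h : TwS d y x a) (hZ : ∀ e, Zr d x e → e = 0)
    (F : MvPolynomial (ι ⊕ Fin k) Qbar) :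
    ∀ᶠ n in atTop, (eval (Sum.elim (y n) (x n)) F = 0 ↔
      ∀ m, eval (y n) (coeff m (Psi F)) = 0) := by
  classical
  have hev : ∀ᶠ n in atTop, ∀ b ∈ supp F, eval (Sum.elim (y n) (x n)) F = 0 →
      ∑ e ∈ (supp F).filter (fun e => Zr d x (e - b)), eval (y n) (cf F e) * mon (x n) e = 0 := by
    rw [Filter.eventually_all_finset]
    intro b _
    have h2 := h.cls F b
    exact h2
  refine hev.mono fun n hn => ⟨fun h2 m => ?_, fun h2 => ?_⟩
  · by_cases hm : m ∈ (Psi F).support
    · have hb : toZ m ∈ supp F := by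
        unfold supp
        exact Finset.mem_image_of_mem _ hm
      have h3 := hn _ hb h2
      have h4 : (supp F).filter (fun e => Zr d x (e - toZ m)) = {toZ m} := by
        ext e
        simp only [Finset.mem_filter, Finset.mem_singleton]
        constructor
        · rintro ⟨-, h5⟩
          exact sub_eq_zero.1 (hZ _ h5)
        · rintro rfl
          exact ⟨hb, by rw [sub_self]; exact zr_zero d x⟩
      rw [h4, Finset.sum_singleton] at h3
      have h5 := (mul_eq_zero.1 h3).resolve_right (mon_ne (h.hx0 n) _)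
      rw [cf, ofZ_toZ] at h5
      exact h5
    · rw [notMem_support_iff.1 hm, map_zero]
  · rw [expand]
    refine Finset.sum_eq_zero fun e _ => ?_
    rw [cf, h2, zero_mul]

end

end Pool.Agent.Y556.TW
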