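import Mathlib
import Pool.Agent.Y556.TW.Red

set_option autoImplicit false

/-!
# Monomials of canonical height zero with eventually periodic twists
-/

namespace Pool.Agent.Y556.TW

open Finset NumberField Height Module Filter Topology
open Pool.Agent.Helper259.AbsHt
open Pool.Agent.Y215.SK (h1 h1_nonneg h1_zero h1_one h1_mul_le h1_add_le h1_pow h1_inv h1_div_le
  h1_val)
open Pool.Agent.Y556.SK (h1_swap)
open Pool.Agent.Y556.DM (EPf EP Dml Psi eval_Psi)

theorem EPf.range_finite {β : Type} {f : ℕ → β} (h : EPf f) : (Set.range f).Finite := by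
  obtain ⟨N, L, hL, h⟩ := h
  refine ((Finset.range (N + L)).finite_toSet.image f).subset ?_
  rintro _ ⟨n, rfl⟩
  by_cases hn : n < N + L
  · exact ⟨n, by simpa using hn, rfl⟩
  · have h2 := EPf.mul h ((n - N) / L) (N + (n - N) % L) (by omega)
    refine ⟨N + (n - N) % L, ?_, ?_⟩
    · have := Nat.mod_lt (n - N) hL
      simp only [Finset.coe_range, Set.mem_Iio]
      omega
    · rw [← h2]
      congr 1
      have h5 := Nat.mod_add_div (n - N) L
      rw [mul_comm] at h5
      omega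

theorem EPf.of_shift {β : Type} {f : ℕ → β} (k : ℕ) (h : EPf fun n => f (k + n)) : EPf f := by
  obtain ⟨N, L, hL, h⟩ := h
  refine ⟨N + k, L, hL, fun n hn => ?_⟩
  have h1 := h (n - k) (by omega)
  have e1 : k + (n - k + L) = n + L := by omega
  have e2 : k + (n - k) = n := by omega
  simp only [e1, e2] at h1
  exact h1

/-- a recurrence with eventually periodic right hand side and finitely many values -/
theorem ep_of_fin {β γ : Type} {z : ℕ → β} {A : ℕ → γ} (hA : EPf A) (f : γ → β → β)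
    (hrec : ∀ n, z (n + 1) = f (A n) (z n)) (hfin : (Set.range z).Finite) : EPf z := by
  obtain ⟨N, L, hL, hA⟩ := hA
  refine EPf.of_shift N ?_
  have hA' : ∀ n, A (N + n) = A (N + n % L) := by
    intro n
    have h2 := EPf.mul hA (n / L) (N + n % L) (by omega)
    rw [← h2]
    congr 1
    have h5 := Nat.mod_add_div n L
    rw [mul_comm] at h5
    omega
  obtain ⟨p, hp⟩ : ∃ p : ℕ → ℕ × β, p = fun n => (n % L, z (N + n)) := ⟨_, rfl⟩
  have hrange : (Set.range p).Finite := by
    refine (((Finset.range L).finite_toSet).prod hfin).subset ?_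
    rintro _ ⟨n, rfl⟩
    rw [hp]
    refine ⟨?_, ⟨N + n, rfl⟩⟩
    simpa using Nat.mod_lt n hL
  have hni : ¬ Function.Injective p := fun h => Set.infinite_range_of_injective h hrange
  rw [Function.Injective] at hni
  push Not at hni
  obtain ⟨a, b, hab, hne⟩ := hni
  have h2 : EPf p := EPf.orbit (f := fun q => ((q.1 + 1) % L, f (A (N + q.1)) q.2)) (fun n => by
    rw [hp]
    simp only
    refine Prod.ext ?_ ?_
    · simp
    · show z (N + (n + 1)) = f (A (N + n % L)) (z (N + n))
      rw [← hA', ← add_assoc, hrec]) hne hab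
  rw [hp] at h2
  exact h2.comp Prod.snd

theorem zr_bdd (d : ℕ) (hd : 2 ≤ d) {z A : ℕ → Qbar} (B : ℝ) (hB : ∀ n, h1 (A n) ≤ B)
    (hA0 : ∀ n, A n ≠ 0) (hrec : ∀ n, z (n + 1) = A n * z n ^ d)
    (hz : Tendsto (fun n => h1 (z n) / (d : ℝ) ^ n) atTop (𝓝 0)) (n : ℕ) : h1 (z n) ≤ B := by
  have hd2 : (2 : ℝ) ≤ d := by exact_mod_cast hd
  have hd0 : (0 : ℝ) < d := by linarith
  have hB0 : 0 ≤ B := (h1_nonneg _).trans (hB 0)
  have hstep : ∀ m, d * (h1 (z m) - B) ≤ h1 (z (m + 1)) - B := by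
    intro m
    have h4 : z m ^ d = z (m + 1) / A m := by
      rw [hrec, mul_div_cancel_left₀ _ (hA0 m)]
    have h5 : d * h1 (z m) ≤ h1 (z (m + 1)) + h1 (A m) := by
      rw [← h1_pow, h4]
      exact h1_div_le _ _
    have h6 := hB m
    nlinarith
  have hj : ∀ j, (d : ℝ) ^ j * (h1 (z n) - B) ≤ h1 (z (n + j)) - B := by
    intro j
    induction j with
    | zero => simp
    | succ j ih =>
      have h2 := mul_le_mul_of_nonneg_left ih hd0.le
      have h3 := hstep (n + j)
      rw [pow_succ]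
      rw [← add_assoc]
      linarith
  have h2 : Tendsto (fun j => (d : ℝ) ^ n * (h1 (z (n + j)) / (d : ℝ) ^ (n + j))) atTop (𝓝 0) := by
    have h3 := (hz.comp (tendsto_add_atTop_nat n)).const_mul ((d : ℝ) ^ n)
    rw [mul_zero] at h3
    refine h3.congr fun j => ?_
    simp only [Function.comp]
    rw [add_comm j n]
  have h3 : h1 (z n) - B ≤ 0 := by
    refine ge_of_tendsto' h2 fun j => ?_
    have h4 : (d : ℝ) ^ n * (h1 (z (n + j)) / (d : ℝ) ^ (n + j)) =
        h1 (z (n + j)) / (d : ℝ) ^ j := by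
      rw [pow_add]
      field_simp
    rw [h4, le_div_iff₀ (by positivity)]
    have h5 := hj j
    nlinarith
  linarith

theorem northcott_field (K : IntermediateField ℚ Qbar) [NumberField K] (B : ℝ) :
    {w : Qbar | w ∈ K ∧ h1 w ≤ B}.Finite := by
  refine (Pool.Agent.H58W.northcott (finrank ℚ K) B).subset ?_
  rintro w ⟨hw, hB⟩
  refine ⟨?_, ?_⟩
  · have h2 : minpoly ℚ w = minpoly ℚ (⟨w, hw⟩ : K) := by
      have := minpoly.algebraMap_eq (A := ℚ) (B := K) (B' := Qbar)
        (FaithfulSMul.algebraMap_injective K Qbar) ⟨w, hw⟩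
      exact this
    rw [h2]
    exact minpoly.natDegree_le _
  · rw [h1_swap]
    exact hB

variable {k : ℕ}

/-- monomials of canonical height zero with eventually periodic twists are eventually periodic -/
theorem zr_ep (K : IntermediateField ℚ Qbar) [NumberField K] (d : ℕ) (hd : 2 ≤ d)
    {x a : ℕ → Fin k → Qbar} (hxK : ∀ n i, x n i ∈ K) (ha0 : ∀ n i, a n i ≠ 0)
    (hrec : ∀ n i, x (n + 1) i = a n i * x n i ^ d) (e : Fin k → ℤ)
    (ha : EPf (fun n => mon (a n) e)) (he : Zr d x e) : EPf (fun n => mon (x n) e) := by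
  obtain ⟨B, hB⟩ : ∃ B : ℝ, ∀ n, h1 (mon (a n) e) ≤ B := by
    have h2 := (EPf.range_finite ha).image h1
    obtain ⟨B, hB⟩ := h2.bddAbove
    exact ⟨B, fun n => hB ⟨_, ⟨n, rfl⟩, rfl⟩⟩
  have hb := zr_bdd d hd B hB (fun n => mon_ne (ha0 n) e) (mon_rec d hrec · e) he
  refine ep_of_fin ha (fun A z => A * z ^ d) (mon_rec d hrec · e) ?_
  refine (northcott_field K B).subset ?_
  rintro _ ⟨n, rfl⟩
  exact ⟨mon_mem K (hxK n) e, hb n⟩

end Pool.Agent.Y556.TW
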