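import Mathlib
import Pool.Agent.Y556.TW.Zh

set_option autoImplicit false

/-!
# The unit equation in two variables in a finitely generated group
-/

namespace Pool.Agent.Y556.TW

open Finset NumberField Height Module Filter Topology
open Pool.Agent.Helper259.AbsHt
open Pool.Agent.Y215.SK

theorem closure_mem (K : IntermediateField ℚ Qbar) (S : Set Qbarˣ)
    (hS : ∀ s ∈ S, (s : Qbar) ∈ K) {u : Qbarˣ} (hu : u ∈ Subgroup.closure S) : (u : Qbar) ∈ K := by
  induction hu using Subgroup.closure_induction with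
  | mem s hs => exact hS s hs
  | one => exact K.one_mem
  | mul a b _ _ ha hb => exact K.mul_mem ha hb
  | inv a _ ha =>
    rw [Units.val_inv_eq_inv_val]
    exact K.inv_mem ha

theorem unit_eq (Γ : Subgroup Qbarˣ) (hΓ : Γ.FG) :
    {u : Qbar | ∃ v ∈ Γ, ∃ w ∈ Γ, u = v ∧ (v : Qbar) + w = 1}.Finite := by
  classical
  by_contra hinf
  have hinf : {u : Qbar | ∃ v ∈ Γ, ∃ w ∈ Γ, u = v ∧ (v : Qbar) + w = 1}.Infinite := hinf
  obtain ⟨ρ, D, C0, hD⟩ := exists_grp Γ hΓ
  obtain ⟨S, hS⟩ := hΓ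
  obtain ⟨z, hz⟩ := IsAlgClosed.exists_pow_nat_eq (-1 : Qbar) (n := 2) (by norm_num)
  obtain ⟨K, hK, hgal, hmem⟩ := exists_galois
    (Set.range (fun i => (D.g i : Qbar)) ∪ (fun u : Qbarˣ => (u : Qbar)) '' (S : Set Qbarˣ) ∪ {z})
    (((Set.finite_range _).union (S.finite_toSet.image _)).union (Set.finite_singleton z))
  have hgK : ∀ i, (D.g i : Qbar) ∈ K := fun i => hmem _ (Or.inl (Or.inl ⟨i, rfl⟩))
  have hΓK : ∀ u ∈ Γ, (u : Qbar) ∈ K := by
    intro u hu
    rw [← hS] at hu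
    exact closure_mem K _ (fun s hs => hmem _ (Or.inl (Or.inr ⟨s, hs, rfl⟩))) hu
  have hi : ∃ z : K, z ^ 2 = -1 := ⟨⟨z, hmem z (Or.inr rfl)⟩, Subtype.ext hz⟩
  let g : Fin ρ → K := fun i => ⟨D.g i, hgK i⟩
  have hg : ∀ i, g i ≠ 0 := by
    intro i h
    have h2 : (D.g i : Qbar) = 0 := congrArg (fun y : K => (y : Qbar)) h
    exact D.hg i (Subtype.ext h2)
  have hgv : ∀ q, ((mo g q : K) : Qbar) = ((mo D.g q : D.K) : Qbar) := by
    intro q
    have h2 : ((mo g q : K) : Qbar) = mo (fun v => (D.g v : Qbar)) q := map_mo g (algebraMap K Qbar) q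
    have h3 : ((mo D.g q : D.K) : Qbar) = mo (fun v => (D.g v : Qbar)) q :=
      map_mo D.g (algebraMap D.K Qbar) q
    rw [h2, h3]
  -- the sequence of the solutions
  let em := Set.Infinite.natEmbedding _ hinf
  have hem : ∀ t, ∃ v ∈ Γ, ∃ w ∈ Γ, ((em t : Qbar)) = (v : Qbar) ∧ (v : Qbar) + w = 1 :=
    fun t => (em t).2
  choose u hu w hw hemu huw using hem
  have hinj : Function.Injective (fun t => (u t : Qbar)) := by
    intro s t hst
    have h2 : (u s : Qbar) = u t := hst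
    rw [← hemu, ← hemu] at h2
    exact em.injective (Subtype.ext h2)
  have hdec : ∀ (v : Qbarˣ) (_ : v ∈ Γ), ∃ (s : K) (q : Fin ρ → ℤ), s ≠ 0 ∧ h1 (s : Qbar) ≤ C0 ∧
      (v : Qbar) = (s : Qbar) * ((mo g q : K) : Qbar) := by
    intro v hv
    obtain ⟨s, q, hs0, hs1, hs2⟩ := hD v ⟨1, one_pos, by rwa [pow_one]⟩
    rw [← hgv] at hs2
    have hmq : ((mo g q : K) : Qbar) ≠ 0 := fun h => mo_ne g hg q (Subtype.ext h)
    have hsK : s ∈ K := by
      have : s = (v : Qbar) / ((mo g q : K) : Qbar) := by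
        rw [hs2, mul_div_cancel_right₀ _ hmq]
      rw [this]
      exact K.div_mem (hΓK v hv) (mo g q : K).2
    exact ⟨⟨s, hsK⟩, q, fun h => hs0 (congrArg Subtype.val h), hs1, hs2⟩
  choose s1 q1 hs10 hs11 hs12 using fun t => hdec (u t) (hu t)
  choose s2 q2 hs20 hs21 hs22 using fun t => hdec (w t) (hw t)
  -- heights
  have hfin := finrank_pos' K
  obtain ⟨Dk, hDk⟩ : ∃ Dk : ℝ, Dk = (finrank ℚ K : ℝ) := ⟨_, rfl⟩
  rw [← hDk] at hfin
  let q : ℕ → Fin (2 + 1) → Fin ρ → ℤ := fun t => ![q1 t, q2 t, 0]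
  let a : ℕ → Fin (2 + 1) → K := fun t => ![s1 t, s2 t, -1]
  obtain ⟨N, hN⟩ : ∃ N : ℕ → ℝ, N = fun t => logHeight (fun j => ∏ v, g v ^ q t j v) := ⟨_, rfl⟩
  have hone : ∀ t, (∏ v, g v ^ q t 2 v) = 1 := by
    intro t
    refine Finset.prod_eq_one fun v _ => ?_
    show g v ^ (0 : ℤ) = 1
    rw [zpow_zero]
  have hlow : ∀ t (j : Fin 3), Dk * h1 ((∏ v, g v ^ q t j v : K) : Qbar) ≤ N t := by
    intro t j
    rw [hN]
    have h2 := logHeight_comp_le ![j, (2 : Fin 3)] (fun j => ∏ v, g v ^ q t j v)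
    refine le_trans ?_ h2
    have h3 : (fun j => ∏ v, g v ^ q t j v) ∘ ![j, (2 : Fin 3)] =
        ![∏ v, g v ^ q t j v, ∏ v, g v ^ q t 2 v] := by
      funext b
      fin_cases b <;> rfl
    rw [h3, ← logHeight₁_div_eq_logHeight, hone, div_one, h1_val, ← hDk, mul_div_cancel₀ _ hfin.ne']
  have hfinB : ∀ B : ℝ, {t | h1 (u t : Qbar) ≤ B}.Finite := by
    intro B
    refine Set.Finite.of_finite_image (f := fun t => (u t : Qbar)) ?_ hinj.injOn
    refine (northcott_field K B).subset ?_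
    rintro _ ⟨t, ht, rfl⟩
    exact ⟨hΓK _ (hu t), ht⟩
  have htop : Tendsto (fun t => h1 (u t : Qbar)) atTop atTop := by
    rw [tendsto_atTop]
    intro B
    have h2 := hfinB B
    rw [← Nat.cofinite_eq_atTop]
    have h3 : {t | h1 (u t : Qbar) ≤ B}ᶜ ∈ cofinite := h2.compl_mem_cofinite
    filter_upwards [h3] with t ht
    have ht' : ¬ h1 (u t : Qbar) ≤ B := ht
    exact (not_le.1 ht').le
  have hNtop : Tendsto N atTop atTop := by
    have h2 : Tendsto (fun t => Dk * (h1 (u t : Qbar) - C0)) atTop atTop :=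
      (tendsto_atTop_add_const_right _ (-C0) htop).const_mul_atTop hfin
    refine tendsto_atTop_mono (fun t => ?_) h2
    refine le_trans ?_ (hlow t 0)
    refine mul_le_mul_of_nonneg_left ?_ hfin.le
    have h3 : h1 (u t : Qbar) ≤ h1 (s1 t : Qbar) + h1 ((mo g (q1 t) : K) : Qbar) := by
      rw [hs12]
      exact h1_mul_le _ _
    have h4 := hs11 t
    have h5 : ((∏ v, g v ^ q t 0 v : K) : Qbar) = ((mo g (q1 t) : K) : Qbar) := rfl
    rw [h5]
    linarith
  obtain ⟨ψ0, cj, hcj, iK, hiK⟩ := exists_psi K hi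
  obtain ⟨dd, ⟨i0, hdd1⟩, hdd2⟩ := subG ψ0 cj hcj iK hiK g hg (D.C / Dk)
    (div_nonneg D.hC.le hfin.le) q a N hNtop
    (by
      intro t j v
      have h2 := D.hlow (q t j) v
      rw [← hgv] at h2
      refine h2.trans ?_
      have h3 := hlow t j
      have h4 : ((∏ v, g v ^ q t j v : K) : Qbar) = ((mo g (q t j) : K) : Qbar) := rfl
      rw [h4] at h3
      rw [div_mul_eq_mul_div, le_div_iff₀ hfin, mul_assoc]
      refine mul_le_mul_of_nonneg_left ?_ D.hC.le
      rw [mul_comm]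
      exact h3)
    (fun t => by rw [hN])
    (by
      intro δ hδ
      have h2 : Tendsto (fun t => δ * N t) atTop atTop := hNtop.const_mul_atTop hδ
      filter_upwards [h2.eventually_ge_atTop (Dk * (|C0| + h1 (-1 : Qbar)))] with t ht j
      refine le_trans ?_ ht
      have h4 : logHeight₁ (a t j) = Dk * h1 ((a t j : K) : Qbar) := by
        rw [h1_val, ← hDk, mul_div_cancel₀ _ hfin.ne']
      rw [h4]
      refine mul_le_mul_of_nonneg_left ?_ hfin.le
      have h5 := h1_nonneg (-1 : Qbar)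
      have h6 := le_abs_self C0
      have h7 := abs_nonneg C0
      fin_cases j
      · exact (hs11 t).trans (by linarith)
      · exact (hs21 t).trans (by linarith)
      · show h1 ((-1 : K) : Qbar) ≤ _
        have : ((-1 : K) : Qbar) = -1 := rfl
        rw [this]
        linarith)
    (by
      intro t
      rw [Fin.sum_univ_three, hone]
      apply Subtype.ext
      show (s1 t : Qbar) * ((mo g (q1 t) : K) : Qbar) + (s2 t : Qbar) * ((mo g (q2 t) : K) : Qbar) +
        (-1) * 1 = 0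
      rw [← hs12, ← hs22, huw]
      ring)
    (by
      intro t h
      exact hs10 t (congrFun h 0))
  have hrel : ∀ t, ∑ j, dd j * (a t j * ∏ v, g v ^ q t j v) = 0 →
      ((dd 0 : K) : Qbar) * u t + ((dd 1 : K) : Qbar) * w t = ((dd 2 : K) : Qbar) := by
    intro t ht
    rw [Fin.sum_univ_three, hone] at ht
    have h2 : ((dd 0 : K) : Qbar) * ((s1 t : Qbar) * ((mo g (q1 t) : K) : Qbar)) +
      ((dd 1 : K) : Qbar) * ((s2 t : Qbar) * ((mo g (q2 t) : K) : Qbar)) +
        ((dd 2 : K) : Qbar) * ((-1) * 1) = 0 := congrArg (fun y : K => (y : Qbar)) ht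
    rw [← hs12, ← hs22] at h2
    linear_combination h2
  obtain ⟨t1, ht1⟩ := hdd2.exists
  have hdd3 : ∃ t2, t1 < t2 ∧ ∑ j, dd j * (a t2 j * ∏ v, g v ^ q t2 j v) = 0 := by
    obtain ⟨t2, h2, h3⟩ := (hdd2.and_eventually (eventually_gt_atTop t1)).exists
    exact ⟨t2, h3, h2⟩
  obtain ⟨t2, ht12, ht2⟩ := hdd3
  have e1 := hrel t1 ht1
  have e2 := hrel t2 ht2
  have f1 := huw t1
  have f2 := huw t2
  have hne : (u t1 : Qbar) - u t2 ≠ 0 := by
    intro h
    exact ht12.ne (hinj (sub_eq_zero.1 h))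
  have h3 : (((dd 0 : K) : Qbar) - ((dd 1 : K) : Qbar)) * ((u t1 : Qbar) - u t2) = 0 := by
    have g1 : (w t1 : Qbar) = 1 - u t1 := by rw [← f1]; ring
    have g2 : (w t2 : Qbar) = 1 - u t2 := by rw [← f2]; ring
    rw [g1] at e1
    rw [g2] at e2
    linear_combination e1 - e2
  have h4 := sub_eq_zero.1 ((mul_eq_zero.1 h3).resolve_right hne)
  have h5 : ((dd 0 : K) : Qbar) = ((dd 2 : K) : Qbar) := by
    rw [← h4, ← mul_add, f1, mul_one] at e1
    exact e1
  apply hdd1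
  have h6 : dd 0 = dd 2 := Subtype.ext h5
  have h7 : dd 0 = dd 1 := Subtype.ext h4
  fin_cases i0
  · exact h6
  · exact h7.symm.trans h6
  · rfl

end Pool.Agent.Y556.TW
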