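import Mathlib
import Pool.Agent.Y556.TW.UE
import Pool.Agent.H39R3.Tor.SUnit

set_option autoImplicit false

/-!
# Zeros of canonical height force the twists to be S-units
-/

namespace Pool.Agent.Y556.TW

open Finset NumberField Height Module Filter Topology IsDedekindDomain
open Pool.Agent.Helper259.AbsHt
open Pool.Agent.Y215.SK (h1 h1_nonneg h1_zero h1_one h1_mul_le h1_add_le h1_pow h1_inv h1_div_le
  h1_val)

section

variable {K : Type} [Field K] [NumberField K] (v : HeightOneSpectrum (𝓞 K))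

theorem val_height {z : K} (hz : z ≠ 0) (j : ℕ)
    (h : v.valuation K z ≤ WithZero.exp (-(j : ℤ))) :
    j * Real.log 2 ≤ finrank ℤ (𝓞 K) * logHeight₁ z := by
  obtain ⟨n, hn0, hn1, hint⟩ := exists_nat_le_mulHeight₁ z⁻¹
  obtain ⟨w, hw⟩ : ∃ w : 𝓞 K, (w : K) = n * z⁻¹ := ⟨⟨n * z⁻¹, hint⟩, rfl⟩
  have h1 : v.valuation K (w : K) ≤ 1 := v.valuation_le_one w
  have h2 : (n : K) = w * z := by
    rw [hw]
    field_simp
  have h3 : v.valuation K (n : K) ≤ WithZero.exp (-(j : ℤ)) := by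
    rw [h2, map_mul]
    calc _ ≤ 1 * WithZero.exp (-(j : ℤ)) := mul_le_mul' h1 h
      _ = _ := one_mul _
  have h4 : v.intValuation (n : 𝓞 K) ≤ WithZero.exp (-(j : ℤ)) := by
    rw [← v.valuation_of_algebraMap (K := K)]
    simpa using h3
  rw [v.intValuation_le_pow_iff_dvd] at h4
  have h5 := map_dvd (Ideal.absNorm (S := 𝓞 K)) h4
  rw [map_pow, Ideal.absNorm_span_natCast] at h5
  have h6 : 2 ≤ Ideal.absNorm v.asIdeal := by
    have h7 : Ideal.absNorm v.asIdeal ≠ 0 := by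
      rw [Ne, Ideal.absNorm_eq_zero_iff]
      exact v.ne_bot
    have h8 : Ideal.absNorm v.asIdeal ≠ 1 := by
      rw [Ne, Ideal.absNorm_eq_one_iff]
      exact v.isPrime.ne_top
    omega
  have h7 : 2 ^ j ≤ n ^ finrank ℤ (𝓞 K) :=
    (Nat.pow_le_pow_left h6 j).trans (Nat.le_of_dvd (pow_pos (Nat.pos_of_ne_zero hn0) _) h5)
  have h8 : ((2 : ℝ)) ^ j ≤ (n : ℝ) ^ finrank ℤ (𝓞 K) := by exact_mod_cast h7
  have h9 := Real.log_le_log (by positivity) h8
  rw [Real.log_pow, Real.log_pow] at h9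
  refine h9.trans (mul_le_mul_of_nonneg_left ?_ (Nat.cast_nonneg _))
  have h10 : Real.log n ≤ Real.log (mulHeight₁ z⁻¹) :=
    Real.log_le_log (by exact_mod_cast Nat.pos_of_ne_zero hn0) hn1
  refine h10.trans (le_of_eq ?_)
  rw [← logHeight₁_inv z]
  rfl

theorem unit_of_small (d : ℕ) (hd : 2 ≤ d) (z A : ℕ → K) (hz0 : ∀ n, z n ≠ 0)
    (hrec : ∀ n, z (n + 1) = A n * z n ^ d) (hA : ∀ n, v.valuation K (A n) ≤ 1)
    (hz : v.valuation K (z 0) ≤ 1)
    (hsm : Tendsto (fun n => logHeight₁ (z n) / (d : ℝ) ^ n) atTop (𝓝 0)) (n : ℕ) :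
    v.valuation K (A n) = 1 := by
  by_contra hne
  have hlt : v.valuation K (A n) < 1 := lt_of_le_of_ne (hA n) hne
  have hd1 : (1 : ℝ) < d := by
    have : 1 < d := by omega
    exact_mod_cast this
  have hzle : ∀ m, v.valuation K (z m) ≤ 1 := by
    intro m
    induction m with
    | zero => exact hz
    | succ m ih =>
      rw [hrec, map_mul, map_pow]
      exact mul_le_one' (hA m) (pow_le_one' ih d)
  have hz1 : v.valuation K (z (n + 1)) ≤ WithZero.exp (-((d ^ 0 : ℕ) : ℤ)) := by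
    have h2 : v.valuation K (z (n + 1)) < 1 := by
      rw [hrec, map_mul, map_pow]
      exact mul_lt_one_of_lt_of_le hlt (pow_le_one' (hzle n) d)
    have h3 : v.valuation K (z (n + 1)) ≠ 0 := by
      rw [Ne, map_eq_zero]
      exact hz0 _
    rw [← WithZero.log_le_iff_le_exp h3]
    have h4 : v.valuation K (z (n + 1)) < WithZero.exp (0 : ℤ) := h2
    rw [← WithZero.log_lt_iff_lt_exp h3] at h4
    simp only [pow_zero, Nat.cast_one]
    omega
  have hzj : ∀ j, v.valuation K (z (n + 1 + j)) ≤ WithZero.exp (-((d ^ j : ℕ) : ℤ)) := by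
    intro j
    induction j with
    | zero => exact hz1
    | succ j ih =>
      rw [← add_assoc, hrec, map_mul, map_pow]
      have h2 : (v.valuation K (z (n + 1 + j))) ^ d ≤ (WithZero.exp (-((d ^ j : ℕ) : ℤ))) ^ d :=
        pow_le_pow_left' ih d
      calc _ ≤ 1 * (WithZero.exp (-((d ^ j : ℕ) : ℤ))) ^ d := mul_le_mul' (hA _) h2
        _ = WithZero.exp (-((d ^ (j + 1) : ℕ) : ℤ)) := by
          rw [one_mul, ← WithZero.exp_nsmul]
          congr 1
          rw [nsmul_eq_mul]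
          push_cast
          ring
  have hlow : ∀ j, (d : ℝ) ^ j * Real.log 2 ≤ finrank ℤ (𝓞 K) * logHeight₁ (z (n + 1 + j)) := by
    intro j
    have h2 := val_height v (hz0 _) _ (hzj j)
    push_cast at h2
    exact h2
  have h2 : Tendsto (fun j => (d : ℝ) ^ (n + 1) * (finrank ℤ (𝓞 K) *
      (logHeight₁ (z (n + 1 + j)) / (d : ℝ) ^ (n + 1 + j)))) atTop (𝓝 0) := by
    have h3 := ((hsm.comp (tendsto_add_atTop_nat (n + 1))).const_mul
      (finrank ℤ (𝓞 K) : ℝ)).const_mul ((d : ℝ) ^ (n + 1))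
    rw [mul_zero, mul_zero] at h3
    refine h3.congr fun j => ?_
    simp only [Function.comp]
    rw [add_comm j (n + 1)]
  have h3 : Real.log 2 ≤ 0 := by
    refine ge_of_tendsto' h2 fun j => ?_
    have h4 : (d : ℝ) ^ (n + 1) * (finrank ℤ (𝓞 K) *
        (logHeight₁ (z (n + 1 + j)) / (d : ℝ) ^ (n + 1 + j))) =
        finrank ℤ (𝓞 K) * logHeight₁ (z (n + 1 + j)) / (d : ℝ) ^ j := by
      rw [pow_add _ (n + 1) j]
      field_simp
    rw [h4, le_div_iff₀ (by positivity), mul_comm]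
    exact hlow j
  have h4 := Real.log_pos (by norm_num : (1 : ℝ) < 2)
  linarith

end

section

variable {K : IntermediateField ℚ Qbar} [NumberField K]

/-- the elements of `K` which are integral at `v` -/
noncomputable def Ov (v : HeightOneSpectrum (𝓞 K)) : Subring Qbar :=
  ((v.valuation K).integer).map (algebraMap K Qbar)

theorem mem_Ov {v : HeightOneSpectrum (𝓞 K)} (u : K) : (u : Qbar) ∈ Ov v ↔
    v.valuation K u ≤ 1 := by
  constructor
  · rintro ⟨w, hw, hwu⟩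
    have : w = u := Subtype.ext hwu
    rw [← this]
    exact hw
  · intro h
    exact ⟨u, h, rfl⟩

theorem Ov_mem {v : HeightOneSpectrum (𝓞 K)} {w : Qbar} (h : w ∈ Ov v) : w ∈ K := by
  obtain ⟨u, -, rfl⟩ := h
  exact u.2

theorem bad_finite (s : Set Qbar) (hs : s.Finite) (hsK : ∀ w ∈ s, w ∈ K) :
    {v : HeightOneSpectrum (𝓞 K) | ∃ w ∈ s, w ∉ Ov v}.Finite := by
  have h2 : {v : HeightOneSpectrum (𝓞 K) | ∃ w ∈ s, w ∉ Ov v} =
      ⋃ w ∈ s, {v | w ∉ Ov v} := by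
    ext v
    simp
  rw [h2]
  refine hs.biUnion fun w hw => ?_
  refine (HeightOneSpectrum.Support.finite (𝓞 K) (⟨w, hsK w hw⟩ : K)).subset ?_
  intro v hv
  have h3 : ¬ v.valuation K (⟨w, hsK w hw⟩ : K) ≤ 1 := fun h => hv ((mem_Ov _).2 h)
  exact not_le.1 h3

/-- the group of `S`-units -/
noncomputable def GS (S : Set (HeightOneSpectrum (𝓞 K))) : Subgroup Qbarˣ :=
  (S.unit K).map (Units.map (algebraMap K Qbar).toMonoidHom)

theorem GS_fg (S : Set (HeightOneSpectrum (𝓞 K))) (hS : S.Finite) : (GS S).FG := by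
  classical
  obtain ⟨T, hT⟩ := Pool.Agent.H39R3.Tor.sunit_fg K S hS
  refine ⟨T.image (Units.map (algebraMap K Qbar).toMonoidHom), ?_⟩
  unfold GS
  rw [← hT, Finset.coe_image, MonoidHom.map_closure]

theorem mem_GS {S : Set (HeightOneSpectrum (𝓞 K))} {w : Qbar} (hw0 : w ≠ 0) (hwK : w ∈ K)
    (hw : ∀ v, v ∉ S → w ∈ Ov v ∧ w⁻¹ ∈ Ov v) : Units.mk0 w hw0 ∈ GS S := by
  have hne : (⟨w, hwK⟩ : K) ≠ 0 := fun h => hw0 (congrArg (fun y : K => (y : Qbar)) h)
  refine ⟨Units.mk0 ⟨w, hwK⟩ hne, ?_, ?_⟩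
  · intro v hv
    obtain ⟨h2, h3⟩ := hw v hv
    have h4 : v.valuation K (⟨w, hwK⟩ : K) ≤ 1 := (mem_Ov _).1 h2
    have h5 : v.valuation K ((⟨w, hwK⟩ : K)⁻¹) ≤ 1 := (mem_Ov _).1 h3
    rw [map_inv₀] at h5
    have h6 : v.valuation K (⟨w, hwK⟩ : K) ≠ 0 := by
      rw [Ne, map_eq_zero]
      exact hne
    show v.valuation K (⟨w, hwK⟩ : K) = 1
    refine le_antisymm h4 ?_
    rwa [inv_le_one₀ (zero_lt_iff.2 h6)] at h5
  · apply Units.ext
    rfl

theorem units_of_small (d : ℕ) (hd : 2 ≤ d) (S : Set (HeightOneSpectrum (𝓞 K))) (hS : S.Finite)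
    (z b : ℕ → Qbar) (C : Qbar) (M : ℕ) (hM : 1 ≤ M) (hC : C ≠ 0) (hz0 : ∀ n, z n ≠ 0)
    (hrec : ∀ n, z (n + 1) = C * b n ^ M * z n ^ d) (hzK : ∀ n, z n ∈ K) (hbK : ∀ n, b n ∈ K)
    (hCK : C ∈ K) (hsm : Tendsto (fun n => h1 (z n) / (d : ℝ) ^ n) atTop (𝓝 0))
    (hb : ∀ v, v ∉ S → ∀ n, b n ∈ Ov v) :
    ∃ S' : Set (HeightOneSpectrum (𝓞 K)), S'.Finite ∧ S ⊆ S' ∧
      ∀ v, v ∉ S' → ∀ n, (b n)⁻¹ ∈ Ov v := by
  refine ⟨S ∪ {v | ∃ w ∈ ({C, C⁻¹, z 0} : Set Qbar), w ∉ Ov v}, hS.union (bad_finite _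
    (by simp) ?_), Set.subset_union_left, fun v hv n => ?_⟩
  · rintro w (rfl | rfl | rfl)
    · exact hCK
    · exact K.inv_mem hCK
    · exact hzK 0
  rw [Set.mem_union, not_or] at hv
  obtain ⟨hv1, hv2⟩ := hv
  have hC1 : C ∈ Ov v := by
    by_contra h
    exact hv2 ⟨C, by simp, h⟩
  have hC2 : C⁻¹ ∈ Ov v := by
    by_contra h
    exact hv2 ⟨C⁻¹, by simp, h⟩
  have hz1 : z 0 ∈ Ov v := by
    by_contra h
    exact hv2 ⟨z 0, by simp, h⟩
  have hfin := finrank_pos' K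
  let zK : ℕ → K := fun n => ⟨z n, hzK n⟩
  have hAK : ∀ n, C * b n ^ M ∈ K := fun n => K.mul_mem hCK (pow_mem (hbK n) M)
  let AK : ℕ → K := fun n => ⟨C * b n ^ M, hAK n⟩
  have hun := unit_of_small v d hd zK AK (fun n h => hz0 n (congrArg (fun y : K => (y : Qbar)) h))
    (fun n => Subtype.ext (hrec n))
    (fun n => (mem_Ov _).1 ((Ov v).mul_mem hC1 ((Ov v).pow_mem (hb v hv1 n) M)))
    ((mem_Ov _).1 hz1)
    (by
      have h2 := hsm.const_mul (finrank ℚ K : ℝ)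
      rw [mul_zero] at h2
      refine h2.congr fun n => ?_
      have h3 := h1_val K (zK n)
      have h4 : h1 (z n) = logHeight₁ (zK n) / (finrank ℚ K : ℝ) := h3
      rw [h4]
      field_simp) n
  have hA0 : AK n ≠ 0 := by
    intro h
    rw [h, map_zero] at hun
    exact zero_ne_one hun
  have hb0 : b n ≠ 0 := by
    intro h
    apply hA0
    apply Subtype.ext
    show C * b n ^ M = 0
    rw [h, zero_pow (by omega), mul_zero]
  have hinv : (C * b n ^ M)⁻¹ ∈ Ov v := by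
    have h2 : v.valuation K ((AK n)⁻¹) ≤ 1 := by rw [map_inv₀, hun, inv_one]
    exact (mem_Ov _).2 h2
  have e : (b n)⁻¹ = (C * b n ^ M)⁻¹ * (C * b n ^ (M - 1)) := by
    obtain ⟨M', rfl⟩ : ∃ M', M = M' + 1 := ⟨M - 1, by omega⟩
    rw [Nat.add_sub_cancel, pow_succ]
    field_simp
  rw [e]
  exact (Ov v).mul_mem hinv ((Ov v).mul_mem hC1 ((Ov v).pow_mem (hb v hv1 n) _))

end

end Pool.Agent.Y556.TW
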