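import Mathlib
import Pool.Agent.Y556.TW.SI

set_option autoImplicit false

/-!
# Zero canonical heights over orbits of polynomials in one variable
-/

namespace Pool.Agent.Y556.TW

open Finset NumberField Height Module Filter Topology IsDedekindDomain
open Pool.Agent.Helper259.AbsHt
open Pool.Agent.Y215.SK (h1 h1_nonneg h1_zero h1_one h1_mul_le h1_add_le h1_pow h1_inv h1_div_le
  h1_val exists_galois)
open Pool.Agent.Y556.DM (EPf EP Dml Psi eval_Psi)

section

variable {K : IntermediateField ℚ Qbar} [NumberField K]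

theorem inv_mem_of_root {v : HeightOneSpectrum (𝓞 K)} (P : Polynomial Qbar) (t r : Qbar)
    (hr : r ∈ P.roots) (hroots : ∀ r ∈ P.roots, r ∈ Ov v) (hlc : P.leadingCoeff ∈ Ov v)
    (ht : t ∈ Ov v) (hP : P.eval t ≠ 0) (hinv : (P.eval t)⁻¹ ∈ Ov v) : (t - r)⁻¹ ∈ Ov v := by
  classical
  have h2 : P.eval t = P.leadingCoeff * (P.roots.map (fun r => t - r)).prod := by
    have h3 := (IsAlgClosed.splits P).eq_prod_roots
    conv_lhs => rw [h3]
    rw [Polynomial.eval_mul, Polynomial.eval_C, Polynomial.eval_multiset_prod, Multiset.map_map]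
    congr 2
    refine Multiset.map_congr rfl fun r _ => ?_
    simp
  rw [← Multiset.prod_map_erase hr (f := fun r => t - r)] at h2
  have hne : t - r ≠ 0 := by
    intro h
    rw [h2, h] at hP
    simp at hP
  have h4 : (t - r)⁻¹ = (P.leadingCoeff * ((P.roots.erase r).map (fun r => t - r)).prod) *
      (P.eval t)⁻¹ := by
    have h5 : P.leadingCoeff * ((P.roots.erase r).map (fun r => t - r)).prod ≠ 0 := by
      intro h
      apply hP
      rw [h2]
      linear_combination (t - r) * h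
    rw [h2]
    have h6 := (mul_ne_zero_iff.1 h5).1
    have h7 := (mul_ne_zero_iff.1 h5).2
    field_simp
  rw [h4]
  refine (Ov v).mul_mem ((Ov v).mul_mem hlc ?_) hinv
  refine Subring.multiset_prod_mem _ _ fun w hw => ?_
  obtain ⟨r', hr', rfl⟩ := Multiset.mem_map.1 hw
  exact (Ov v).sub_mem ht (hroots r' (Multiset.mem_of_mem_erase hr'))

theorem eval_Ov {v : HeightOneSpectrum (𝓞 K)} (P : Polynomial Qbar) (hP : ∀ i, P.coeff i ∈ Ov v)
    {t : Qbar} (ht : t ∈ Ov v) : P.eval t ∈ Ov v := by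
  rw [Polynomial.eval_eq_sum_range]
  exact sum_mem fun i _ => (Ov v).mul_mem (hP i) ((Ov v).pow_mem ht i)

end

theorem coeff_finite (P : Polynomial Qbar) : (Set.range P.coeff).Finite := by
  refine ((P.support.finite_toSet.image P.coeff).union (Set.finite_singleton 0)).subset ?_
  rintro _ ⟨i, rfl⟩
  by_cases h : i ∈ P.support
  · exact Or.inl ⟨i, h, rfl⟩
  · right
    simpa using h

theorem roots_eq (d : ℕ) (hd : 2 ≤ d) (g B : Polynomial Qbar) (y : ℕ → Qbar)
    (hy : ∀ n, y (n + 1) = g.eval (y n)) (hB0 : ∀ n, B.eval (y n) ≠ 0) (z : ℕ → Qbar) (C : Qbar)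
    (M : ℕ) (hM : 1 ≤ M) (hC : C ≠ 0) (hz0 : ∀ n, z n ≠ 0)
    (hrec : ∀ n, z (n + 1) = C * (B.eval (y n)) ^ M * z n ^ d)
    (hsm : Tendsto (fun n => h1 (z n) / (d : ℝ) ^ n) atTop (𝓝 0)) (hne : ¬ EPf y)
    (s s' : Qbar) (hs : B.eval s = 0 ∨ (B.comp g).eval s = 0)
    (hs' : B.eval s' = 0 ∨ (B.comp g).eval s' = 0) : s = s' := by
  classical
  by_contra hss
  obtain ⟨t, ht⟩ : ∃ t, t = s' - s := ⟨_, rfl⟩
  have ht0 : t ≠ 0 := by
    rw [ht]
    exact sub_ne_zero.2 (Ne.symm hss)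
  have hBne : B ≠ 0 := by
    rintro rfl
    exact hB0 0 (by simp)
  have hBg : ∀ n, (B.comp g).eval (y n) = B.eval (y (n + 1)) := by
    intro n
    rw [Polynomial.eval_comp, hy]
  have hBgne : B.comp g ≠ 0 := by
    intro h
    have h2 := hBg 0
    rw [h, Polynomial.eval_zero] at h2
    exact hB0 1 h2.symm
  obtain ⟨E, hE⟩ : ∃ E : Set Qbar, E = (Set.range g.coeff ∪ Set.range B.coeff) ∪
      ({r | r ∈ B.roots} ∪ {r | r ∈ (B.comp g).roots}) ∪
      {y 0, C, z 0, t, t⁻¹, B.leadingCoeff, (B.comp g).leadingCoeff} := ⟨_, rfl⟩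
  have hEfin : E.Finite := by
    rw [hE]
    refine (((coeff_finite g).union (coeff_finite B)).union ((B.roots.toFinset.finite_toSet.subset
      ?_).union ((B.comp g).roots.toFinset.finite_toSet.subset ?_))).union (by simp)
    · intro r hr
      simpa using hr
    · intro r hr
      simpa using hr
  obtain ⟨K, hK, -, hmem⟩ := exists_galois E hEfin
  obtain ⟨S, hS⟩ : ∃ S : Set (HeightOneSpectrum (𝓞 K)), S = {v | ∃ w ∈ E, w ∉ Ov v} := ⟨_, rfl⟩
  have hSfin : S.Finite := by
    rw [hS]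
    exact bad_finite E hEfin hmem
  have hOv : ∀ v, v ∉ S → ∀ w ∈ E, w ∈ Ov v := by
    intro v hv w hw
    by_contra h
    apply hv
    rw [hS]
    exact ⟨w, hw, h⟩
  have hE1 : ∀ i, g.coeff i ∈ E := fun i => by
    rw [hE]; exact Or.inl (Or.inl (Or.inl ⟨i, rfl⟩))
  have hE2 : ∀ i, B.coeff i ∈ E := fun i => by
    rw [hE]; exact Or.inl (Or.inl (Or.inr ⟨i, rfl⟩))
  have hE3 : ∀ r ∈ B.roots, r ∈ E := fun r hr => by
    rw [hE]; exact Or.inl (Or.inr (Or.inl hr))
  have hE4 : ∀ r ∈ (B.comp g).roots, r ∈ E := fun r hr => by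
    rw [hE]; exact Or.inl (Or.inr (Or.inr hr))
  have hE5 : ∀ w ∈ ({y 0, C, z 0, t, t⁻¹, B.leadingCoeff, (B.comp g).leadingCoeff} : Set Qbar),
      w ∈ E := fun w hw => by
    rw [hE]; exact Or.inr hw
  have hyK : ∀ n, y n ∈ K := by
    intro n
    induction n with
    | zero => exact hmem _ (hE5 _ (by simp))
    | succ n ih =>
      rw [hy, Polynomial.eval_eq_sum_range]
      exact sum_mem fun i _ => K.mul_mem (hmem _ (hE1 i)) (pow_mem ih i)
  have hbK : ∀ n, B.eval (y n) ∈ K := by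
    intro n
    rw [Polynomial.eval_eq_sum_range]
    exact sum_mem fun i _ => K.mul_mem (hmem _ (hE2 i)) (pow_mem (hyK n) i)
  have hCK : C ∈ K := hmem _ (hE5 _ (by simp))
  have hzK : ∀ n, z n ∈ K := by
    intro n
    induction n with
    | zero => exact hmem _ (hE5 _ (by simp))
    | succ n ih =>
      rw [hrec]
      exact K.mul_mem (K.mul_mem hCK (pow_mem (hbK n) M)) (pow_mem ih d)
  have hyO : ∀ v, v ∉ S → ∀ n, y n ∈ Ov v := by
    intro v hv n
    induction n with
    | zero => exact hOv v hv _ (hE5 _ (by simp))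
    | succ n ih =>
      rw [hy]
      exact eval_Ov g (fun i => hOv v hv _ (hE1 i)) ih
  obtain ⟨S', hS'fin, hSS', hS'⟩ := units_of_small d hd S hSfin z (fun n => B.eval (y n)) C M hM hC
    hz0 hrec hzK hbK hCK hsm
    (fun v hv n => eval_Ov B (fun i => hOv v hv _ (hE2 i)) (hyO v hv n))
  have hroot : ∀ r, (B.eval r = 0 ∨ (B.comp g).eval r = 0) → r ∈ E ∧
      ∀ n, y n - r ≠ 0 ∧ ∀ v, v ∉ S' → (y n - r)⁻¹ ∈ Ov v := by
    rintro r (hr | hr)
    · have hr' : r ∈ B.roots := (Polynomial.mem_roots hBne).2 hr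
      refine ⟨hE3 r hr', fun n => ⟨fun h => ?_, fun v hv => ?_⟩⟩
      · apply hB0 n
        rw [sub_eq_zero.1 h]
        exact hr
      · have hv' : v ∉ S := fun h => hv (hSS' h)
        exact inv_mem_of_root B _ r hr' (fun r hr => hOv v hv' _ (hE3 r hr))
          (hOv v hv' _ (hE5 _ (by simp))) (hyO v hv' n) (hB0 n) (hS' v hv n)
    · have hr' : r ∈ (B.comp g).roots := (Polynomial.mem_roots hBgne).2 hr
      refine ⟨hE4 r hr', fun n => ⟨fun h => ?_, fun v hv => ?_⟩⟩
      · apply hB0 (n + 1)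
        rw [← hBg, sub_eq_zero.1 h]
        exact hr
      · have hv' : v ∉ S := fun h => hv (hSS' h)
        exact inv_mem_of_root (B.comp g) _ r hr' (fun r hr => hOv v hv' _ (hE4 r hr))
          (hOv v hv' _ (hE5 _ (by simp))) (hyO v hv' n) (by rw [hBg]; exact hB0 (n + 1))
          (by rw [hBg]; exact hS' v hv (n + 1))
  obtain ⟨hsE, hs2⟩ := hroot s hs
  obtain ⟨hs'E, hs'2⟩ := hroot s' hs'
  have htE : t ∈ E := hE5 _ (by simp)
  have htE' : t⁻¹ ∈ E := hE5 _ (by simp)
  have hu0 : ∀ n, (y n - s) / t ≠ 0 := fun n => div_ne_zero (hs2 n).1 ht0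
  have hw0 : ∀ n, -((y n - s') / t) ≠ 0 := fun n => neg_ne_zero.2 (div_ne_zero (hs'2 n).1 ht0)
  have hmemO : ∀ v, v ∉ S' → ∀ r, r ∈ E → ∀ n, (y n - r)⁻¹ ∈ Ov v →
      (y n - r) / t ∈ Ov v ∧ ((y n - r) / t)⁻¹ ∈ Ov v := by
    intro v hv r hr n hinv
    have hv' : v ∉ S := fun h => hv (hSS' h)
    constructor
    · rw [div_eq_mul_inv]
      exact (Ov v).mul_mem ((Ov v).sub_mem (hyO v hv' n) (hOv v hv' _ hr)) (hOv v hv' _ htE')
    · rw [inv_div, div_eq_mul_inv]
      exact (Ov v).mul_mem (hOv v hv' _ htE) hinv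
  have hfinu := unit_eq (GS S') (GS_fg S' hS'fin)
  have hran : (Set.range y).Finite := by
    refine (hfinu.image (fun u => t * u + s)).subset ?_
    rintro _ ⟨n, rfl⟩
    refine ⟨(y n - s) / t, ⟨Units.mk0 _ (hu0 n), ?_, Units.mk0 _ (hw0 n), ?_, rfl, ?_⟩, ?_⟩
    · exact mem_GS (hu0 n) (K.div_mem (K.sub_mem (hyK n) (hmem _ hsE)) (hmem _ htE))
        fun v hv => hmemO v hv s hsE n ((hs2 n).2 v hv)
    · refine mem_GS (hw0 n) (K.neg_mem (K.div_mem (K.sub_mem (hyK n) (hmem _ hs'E))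
        (hmem _ htE))) fun v hv => ?_
      obtain ⟨h2, h3⟩ := hmemO v hv s' hs'E n ((hs'2 n).2 v hv)
      refine ⟨(Ov v).neg_mem h2, ?_⟩
      rw [inv_neg]
      exact (Ov v).neg_mem h3
    · show (y n - s) / t + -((y n - s') / t) = 1
      rw [← sub_eq_add_neg, ← sub_div, div_eq_one_iff_eq ht0, ht]
      ring
    · show t * ((y n - s) / t) + s = y n
      field_simp
      ring
  exact hne (ep_of_fin (EPf.const ()) (fun _ w => g.eval w) hy hran)

/-- orbits in one variable -/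
theorem dml_one {y : ℕ → Qbar} {f : Qbar → Qbar} (hy : ∀ n, y (n + 1) = f (y n)) :
    Dml (fun n (_ : Unit) => y n) := by
  classical
  intro F
  by_cases hep : EPf y
  · exact hep.comp (fun w => MvPolynomial.eval (fun _ : Unit => w) F = 0)
  have hinj := Pool.Agent.Y556.DM.injective_of_not hy hep
  by_cases hF : F = 0
  · refine (EPf.const True).congr (Eventually.of_forall fun n => ?_)
    rw [hF]
    simp
  obtain ⟨P, hP⟩ : ∃ P : Polynomial Qbar, P = MvPolynomial.aeval (fun _ => Polynomial.X) F :=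
    ⟨_, rfl⟩
  have hPe : ∀ w, P.eval w = MvPolynomial.eval (fun _ : Unit => w) F := by
    intro w
    have h : ((Polynomial.evalRingHom w).comp (MvPolynomial.aeval (fun _ : Unit =>
        (Polynomial.X : Polynomial Qbar)) : MvPolynomial Unit Qbar →ₐ[Qbar] _).toRingHom) =
        MvPolynomial.eval (fun _ : Unit => w) := by
      apply MvPolynomial.ringHom_ext
      · intro r
        simp
      · intro i
        simp
    rw [hP]
    exact congrArg (fun φ => φ F) h
  have hP0 : P ≠ 0 := by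
    rintro h0
    apply hF
    apply MvPolynomial.funext
    intro w
    have h2 := hPe (w ())
    rw [h0, Polynomial.eval_zero] at h2
    have e : (fun _ : Unit => w ()) = w := by
      funext i
      rfl
    rw [e] at h2
    rw [← h2, map_zero]
  have hfin : {n | P.eval (y n) = 0}.Finite := by
    refine Set.Finite.of_finite_image (f := y) ?_ hinj.injOn
    refine (P.roots.toFinset.finite_toSet).subset ?_
    rintro _ ⟨n, hn, rfl⟩
    simpa [hP0] using hn
  refine (EPf.const False).congr ?_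
  rw [← Nat.cofinite_eq_atTop]
  filter_upwards [hfin.compl_mem_cofinite] with n hn
  rw [eq_iff_iff]
  constructor
  · exact False.elim
  · intro h
    apply hn
    show P.eval (y n) = 0
    rw [hPe]
    exact h

end Pool.Agent.Y556.TW
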