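import Mathlib
import Pool.Agent.Y556.TW.One

set_option autoImplicit false

/-!
# Reduction to the monomials of canonical height zero
-/

namespace Pool.Agent.Y556.TW

open Finset NumberField Height Module Filter Topology MvPolynomial
open Pool.Agent.Helper259.AbsHt
open Pool.Agent.Y215.SK (h1 h1_nonneg h1_zero h1_one h1_mul_le h1_add_le h1_pow h1_inv h1_div_le
  h1_val exists_galois)
open Pool.Agent.Y556.DM (EPf EP Dml Psi eval_Psi)

variable {k : ℕ}

theorem mon_neg {x : Fin k → Qbar} (hx : ∀ i, x i ≠ 0) (e : Fin k → ℤ) :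
    mon x (-e) = (mon x e)⁻¹ := by
  have h := mon_sub hx 0 e
  rw [zero_sub, mon_zero, one_div] at h
  exact h

theorem mon_add {x : Fin k → Qbar} (hx : ∀ i, x i ≠ 0) (e e' : Fin k → ℤ) :
    mon x (e + e') = mon x e * mon x e' := by
  have h := mon_sub hx e (-e')
  rw [sub_neg_eq_add, mon_neg hx, div_inv_eq_mul] at h
  exact h

theorem mon_zsmul {x : Fin k → Qbar} (t : ℤ) (e : Fin k → ℤ) :
    mon x (t • e) = mon x e ^ t := by
  unfold mon
  rw [← Finset.prod_zpow]
  refine Finset.prod_congr rfl fun i _ => ?_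
  show x i ^ (t • e i) = _
  rw [smul_eq_mul, mul_comm, zpow_mul]

theorem mon_sum {r : ℕ} {x : Fin k → Qbar} (hx : ∀ i, x i ≠ 0) (t : Fin r → ℤ)
    (E : Fin r → Fin k → ℤ) : mon x (∑ j, t j • E j) = ∏ j, mon x (E j) ^ t j := by
  classical
  have : ∀ s : Finset (Fin r), mon x (∑ j ∈ s, t j • E j) = ∏ j ∈ s, mon x (E j) ^ t j := by
    intro s
    induction s using Finset.induction_on with
    | empty => simp [mon_zero]
    | insert j s hj ih => rw [Finset.sum_insert hj, Finset.prod_insert hj, mon_add hx, ih, mon_zsmul]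
  exact this univ

/-- the monomials of canonical height zero form a finitely generated group -/
theorem exists_gens (d : ℕ) {x : ℕ → Fin k → Qbar} (hx0 : ∀ n i, x n i ≠ 0) :
    ∃ (r : ℕ) (E : Fin r → Fin k → ℤ), (∀ j, Zr d x (E j)) ∧
      ∀ e, Zr d x e → ∃ t : Fin r → ℤ, e = ∑ j, t j • E j := by
  have hneg : ∀ {e}, Zr d x e → Zr d x (-e) := fun {e} h => by
    have h2 := zr_sub hx0 (zr_zero d x) h
    rwa [zero_sub] at h2
  let Z : AddSubgroup (Fin k → ℤ) :=
    { carrier := {e | Zr d x e}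
      zero_mem' := zr_zero d x
      add_mem' := fun {a b} ha hb => by
        have h2 := zr_sub hx0 ha (hneg hb)
        rwa [sub_neg_eq_add] at h2
      neg_mem' := fun {a} ha => hneg ha }
  have hfg : (AddSubgroup.toIntSubmodule Z).FG := IsNoetherian.noetherian _
  obtain ⟨r, E, hE⟩ := Submodule.fg_iff_exists_fin_generating_family.1 hfg
  refine ⟨r, E, fun j => ?_, fun e he => ?_⟩
  · have h2 : E j ∈ AddSubgroup.toIntSubmodule Z := by
      rw [← hE]
      exact Submodule.subset_span ⟨j, rfl⟩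
    exact h2
  · have h2 : e ∈ Submodule.span ℤ (Set.range E) := by
      rw [hE]
      exact he
    obtain ⟨t, ht⟩ := (Submodule.mem_span_range_iff_exists_fun ℤ).1 h2
    exact ⟨t, ht.symm⟩

section

variable {ι : Type} [Fintype ι] {d : ℕ} {y : ℕ → ι → Qbar} {x a : ℕ → Fin k → Qbar}

/-- the values of the monomials `E j` and of their inverses -/
noncomputable def mons {r : ℕ} (x : ℕ → Fin k → Qbar) (E : Fin r → Fin k → ℤ) (n : ℕ) :
    Fin r ⊕ Fin r → Qbar :=
  Sum.elim (fun j => mon (x n) (E j)) (fun j => (mon (x n) (E j))⁻¹)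

/-- **Reduction to the monomials of canonical height zero.** -/
theorem TwS.reduce (h : TwS d y x a) {r : ℕ} (E : Fin r → Fin k → ℤ) (hE0 : ∀ j, Zr d x (E j))
    (hE : ∀ e, Zr d x e → ∃ t : Fin r → ℤ, e = ∑ j, t j • E j)
    (hy : Dml (fun n => Sum.elim (y n) (mons x E n))) : Dml (fun n => Sum.elim (y n) (x n)) := by
  classical
  obtain ⟨s, hs, hys⟩ := h.fld
  have hfld : ∀ n, (∀ i, Sum.elim (y n) (mons x E n) i ∈ IntermediateField.adjoin ℚ s) ∧
      ∀ i, x n i ∈ IntermediateField.adjoin ℚ s := by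
    intro n
    refine ⟨?_, (hys n).2⟩
    rintro (i | (j | j))
    · exact (hys n).1 i
    · exact mon_mem _ (hys n).2 _
    · exact inv_mem (mon_mem _ (hys n).2 _)
  have hgr : Tendsto (fun n => (∑ i, h1 (Sum.elim (y n) (mons x E n) i)) / (d : ℝ) ^ n) atTop
      (𝓝 0) := by
    have h2 : Tendsto (fun n => (∑ i, h1 (y n i)) / (d : ℝ) ^ n +
        ∑ j, (h1 (mon (x n) (E j)) / (d : ℝ) ^ n + h1 (mon (x n) (E j)) / (d : ℝ) ^ n)) atTop
        (𝓝 (0 + ∑ j : Fin r, (0 + 0))) := by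
      refine h.hgr.add (tendsto_finset_sum _ fun j _ => ?_)
      exact (hE0 j).add (hE0 j)
    simp only [add_zero, Finset.sum_const_zero] at h2
    refine h2.congr fun n => ?_
    rw [Fintype.sum_sum_type, Fintype.sum_sum_type, add_div, add_div]
    simp only [Sum.elim_inl, Sum.elim_inr, mons, h1_inv]
    rw [Finset.sum_add_distrib, ← Finset.sum_div]
  have h' : TwS d (fun n => Sum.elim (y n) (mons x E n)) x a :=
    ⟨h.hd, ⟨s, hs, hfld⟩, h.hx0, h.ha0, h.hrec, h.hsum, hgr⟩
  have h2 := h'.dml hy (fun e he => by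
    obtain ⟨t, rfl⟩ := hE e he
    refine ⟨∏ j, (X (Sum.inr (Sum.inl j)) ^ (t j).toNat * X (Sum.inr (Sum.inr j)) ^ (-t j).toNat),
      1, Eventually.of_forall fun n => ⟨by simp, ?_⟩⟩
    rw [map_one, mul_one, mon_sum (h.hx0 n), map_prod]
    refine Finset.prod_congr rfl fun j _ => ?_
    rw [map_mul, map_pow, map_pow, eval_X, eval_X]
    simp only [Sum.elim_inr, mons, Sum.elim_inl]
    have hne := mon_ne (h.hx0 n) (E j)
    rcases le_total 0 (t j) with h4 | h4
    · obtain ⟨m, hm⟩ := Int.eq_ofNat_of_zero_le h4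
      rw [hm]
      simp
    · obtain ⟨m, hm⟩ := Int.eq_ofNat_of_zero_le (neg_nonneg.2 h4)
      have h5 : t j = -(m : ℤ) := by omega
      rw [h5]
      simp)
  refine h2.rat _ (Sum.elim (fun i => X (Sum.inl (Sum.inl i))) (fun i => X (Sum.inr i)))
    (fun _ => 1) (Eventually.of_forall fun n q => ⟨by simp, ?_⟩)
  rcases q with i | i <;> simp

/-- conversely -/
theorem dml_mons (hx0 : ∀ n i, x n i ≠ 0) {r : ℕ} (E : Fin r → Fin k → ℤ)
    (h : Dml (fun n => Sum.elim (y n) (x n))) : Dml (fun n => Sum.elim (y n) (mons x E n)) := by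
  have hsplit : ∀ n (e : Fin k → ℤ), (∏ i, x n i ^ (-e i).toNat) ≠ 0 ∧
      mon (x n) e * ∏ i, x n i ^ (-e i).toNat = ∏ i, x n i ^ (e i).toNat := by
    intro n e
    refine ⟨Finset.prod_ne_zero_iff.2 fun i _ => pow_ne_zero _ (hx0 n i), ?_⟩
    unfold mon
    rw [← Finset.prod_mul_distrib]
    refine Finset.prod_congr rfl fun i _ => ?_
    have hne := hx0 n i
    rcases le_total 0 (e i) with h4 | h4
    · obtain ⟨m, hm⟩ := Int.eq_ofNat_of_zero_le h4
      rw [hm]
      simp
    · obtain ⟨m, hm⟩ := Int.eq_ofNat_of_zero_le (neg_nonneg.2 h4)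
      have h5 : e i = -(m : ℤ) := by omega
      rw [h5]
      simp [hne]
  refine h.rat _ (Sum.elim (fun i => X (Sum.inl i)) (Sum.elim
    (fun j => ∏ i, X (Sum.inr i) ^ (E j i).toNat) (fun j => ∏ i, X (Sum.inr i) ^ (-E j i).toNat)))
    (Sum.elim (fun _ => 1) (Sum.elim
    (fun j => ∏ i, X (Sum.inr i) ^ (-E j i).toNat) (fun j => ∏ i, X (Sum.inr i) ^ (E j i).toNat)))
    (Eventually.of_forall fun n q => ?_)
  rcases q with i | (j | j)
  · simp
  · simp only [Sum.elim_inr, Sum.elim_inl, mons, map_prod, map_pow, eval_X]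
    exact hsplit n (E j)
  · simp only [Sum.elim_inr, Sum.elim_inl, mons, map_prod, map_pow, eval_X]
    refine ⟨Finset.prod_ne_zero_iff.2 fun i _ => pow_ne_zero _ (hx0 n i), ?_⟩
    rw [← (hsplit n (E j)).2, inv_mul_cancel_left₀ (mon_ne (hx0 n) _)]

/-- **Eventually periodic monomials of height zero.** -/
theorem TwS.dml_ep (h : TwS d y x a) (hy : Dml y)
    (hep : ∀ e, Zr d x e → EPf (fun n => mon (x n) e)) : Dml (fun n => Sum.elim (y n) (x n)) := by
  obtain ⟨r, E, hE0, hE⟩ := exists_gens d h.hx0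
  refine h.reduce E hE0 hE (hy.ep ?_)
  refine EPf.pi fun q => ?_
  rcases q with j | j
  · exact hep _ (hE0 j)
  · exact (hep _ (hE0 j)).comp (fun w => w⁻¹)

end

end Pool.Agent.Y556.TW
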