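import Mathlib
import Pool.Agent.Y556.TW.Gen
import Pool.Agent.Y556.DM.Lin

set_option autoImplicit false

/-!
# Skew products over polynomial maps
-/

namespace Pool.Agent.Y556.TW

open Finset NumberField Height Module Filter Topology MvPolynomial
open Pool.Agent.Helper259.AbsHt
open Pool.Agent.Y215.SK (h1 h1_nonneg h1_zero h1_one h1_mul_le h1_add_le h1_pow h1_inv h1_div_le
  h1_val exists_galois)
open Pool.Agent.Y556.SK (h1_swap)
open Pool.Agent.Y556.DM (EPf EP Dml Psi eval_Psi hm hm_hom hm_eval rec_bound)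

/-- heights along the orbits of polynomial maps -/
theorem poly_bound {m : ℕ} (Φ : Fin m → MvPolynomial (Fin m) Qbar) (δ : ℕ)
    (hδ : ∀ j, (Φ j).totalDegree ≤ δ) (h1δ : 1 ≤ δ) (y : ℕ → Fin m → Qbar)
    (hy : ∀ n j, y (n + 1) j = eval (y n) (Φ j)) :
    ∃ C : ℝ, 0 ≤ C ∧ ∀ n, 1 + ∑ j, h1 (y n j) ≤ C * ((n + 1) * (δ : ℝ) ^ n) := by
  obtain ⟨C, hC⟩ := absLogHeight_eval δ (fun o : Option (Fin m) =>
    o.elim (X none ^ δ) (fun j => hm δ (Φ j))) (fun o => by
      rcases o with _ | j
      · exact isHomogeneous_X_pow _ _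
      · exact hm_hom (hδ j))
  obtain ⟨a, ha⟩ : ∃ a : ℕ → ℝ, a = fun n =>
    absLogHeight (fun o : Option (Fin m) => o.elim 1 (y n)) := ⟨_, rfl⟩
  have ha0 : ∀ n, 0 ≤ a n := fun n => by
    rw [ha]
    exact absLogHeight_nonneg _
  have hrec : ∀ n, a (n + 1) ≤ δ * a n + |C| := by
    intro n
    have h2 := hC (fun o : Option (Fin m) => o.elim 1 (y n))
    have e : (fun j : Option (Fin m) => eval (fun o : Option (Fin m) => o.elim 1 (y n))
        (j.elim (X none ^ δ) (fun j => hm δ (Φ j)))) =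
        fun o : Option (Fin m) => o.elim 1 (y (n + 1)) := by
      funext j
      rcases j with _ | j
      · simp
      · show eval (fun o : Option (Fin m) => o.elim 1 (y n)) (hm δ (Φ j)) = y (n + 1) j
        rw [hm_eval, hy]
    rw [e] at h2
    have h3 := le_abs_self C
    rw [ha]
    linarith
  have hb := rec_bound a ha0 δ h1δ |C| (abs_nonneg C) hrec
  have hle : ∀ n j, h1 (y n j) ≤ a n := by
    intro n j
    have h2 := aff_le_of_eq_one (fun o : Option (Fin m) => o.elim 1 (y n)) none rfl (some j)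
    rw [← h1_swap, ha]
    exact h2
  have ha00 := ha0 0
  have hC0 := abs_nonneg C
  refine ⟨1 + (m : ℝ) * (|C| + a 0), by positivity, fun n => ?_⟩
  have h2 : ∑ j, h1 (y n j) ≤ (m : ℝ) * (|C| + a 0) * ((n + 1) * (δ : ℝ) ^ n) := by
    calc ∑ j, h1 (y n j) ≤ ∑ _j : Fin m, (|C| + a 0) * (n + 1) * (δ : ℝ) ^ n :=
          Finset.sum_le_sum fun j _ => (hle n j).trans (hb n)
      _ = _ := by
          rw [Finset.sum_const, Finset.card_univ, Fintype.card_fin, nsmul_eq_mul]
          ring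
  have h3 : (1 : ℝ) ≤ (n + 1) * (δ : ℝ) ^ n := by
    have h4 : (1 : ℝ) ≤ (δ : ℝ) ^ n := one_le_pow₀ (by exact_mod_cast h1δ)
    have h5 : (0 : ℝ) ≤ n := Nat.cast_nonneg n
    nlinarith
  rw [add_mul, one_mul]
  linarith

theorem summ (δ d : ℕ) (hd : δ < d) :
    Summable (fun n : ℕ => ((n + 1 : ℝ) * (δ : ℝ) ^ n) / (d : ℝ) ^ n) := by
  have hDR : (0 : ℝ) < d := by
    have : 0 < d := by omega
    exact_mod_cast this
  have hr : ‖(δ : ℝ) / d‖ < 1 := by
    rw [Real.norm_eq_abs, abs_of_nonneg (by positivity), div_lt_one hDR]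
    exact_mod_cast hd
  have h2 := summable_pow_mul_geometric_of_norm_lt_one 1 hr
  have h3 := summable_pow_mul_geometric_of_norm_lt_one 0 hr
  refine (h2.add h3).congr fun n => ?_
  rw [div_pow]
  ring

theorem TwS.of_poly {m k : ℕ} (Φ : Fin m → MvPolynomial (Fin m) Qbar)
    (A : Fin k → MvPolynomial (Fin m) Qbar) (d : ℕ) (hd : 2 ≤ d)
    (hΦ : ∀ j, (Φ j).totalDegree < d) {y : ℕ → Fin m → Qbar} {x : ℕ → Fin k → Qbar}
    (hy : ∀ n j, y (n + 1) j = eval (y n) (Φ j))
    (hx : ∀ n i, x (n + 1) i = eval (y n) (A i) * x n i ^ d) (hx0 : ∀ n i, x n i ≠ 0) :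
    TwS d y x (fun n i => eval (y n) (A i)) := by
  obtain ⟨δ, hδ⟩ : ∃ δ, δ = max 1 (Finset.univ.sup fun j => (Φ j).totalDegree) := ⟨_, rfl⟩
  have hδ1 : 1 ≤ δ := by
    rw [hδ]
    exact le_max_left _ _
  have hδj : ∀ j, (Φ j).totalDegree ≤ δ := fun j => by
    rw [hδ]
    exact (Finset.le_sup (f := fun j => (Φ j).totalDegree) (Finset.mem_univ j)).trans
      (le_max_right _ _)
  have hδd : δ < d := by
    rw [hδ]
    refine max_lt (by omega) ?_
    rw [Finset.sup_lt_iff (by rw [Nat.bot_eq_zero]; omega)]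
    exact fun j _ => hΦ j
  obtain ⟨C, hC0, hC⟩ := poly_bound Φ δ hδj hδ1 y hy
  refine ⟨hd, ?_, hx0, ?_, hx, ?_, ?_⟩
  · refine ⟨(⋃ j, ⋃ s ∈ (Φ j).support, {coeff s (Φ j)}) ∪ (⋃ i, ⋃ s ∈ (A i).support,
      {coeff s (A i)}) ∪ Set.range (y 0) ∪ Set.range (x 0), ?_, ?_⟩
    · refine (((Set.finite_iUnion fun j => (Finset.finite_toSet _).biUnion fun s _ =>
        Set.finite_singleton _).union (Set.finite_iUnion fun i =>
        (Finset.finite_toSet _).biUnion fun s _ => Set.finite_singleton _)).union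
        (Set.finite_range _)).union (Set.finite_range _)
    · have hsub := IntermediateField.subset_adjoin ℚ
        ((⋃ j, ⋃ s ∈ (Φ j).support, {coeff s (Φ j)}) ∪ (⋃ i, ⋃ s ∈ (A i).support,
        {coeff s (A i)}) ∪ Set.range (y 0) ∪ Set.range (x 0))
      have hyK : ∀ n j, y n j ∈ IntermediateField.adjoin ℚ
          ((⋃ j, ⋃ s ∈ (Φ j).support, {coeff s (Φ j)}) ∪ (⋃ i, ⋃ s ∈ (A i).support,
          {coeff s (A i)}) ∪ Set.range (y 0) ∪ Set.range (x 0)) := by
        intro n
        induction n with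
        | zero => exact fun j => hsub (Or.inl (Or.inr ⟨j, rfl⟩))
        | succ n ih =>
          intro j
          rw [hy]
          exact eval_mem _ _ (fun s hs => hsub (Or.inl (Or.inl (Or.inl
            (Set.mem_iUnion.2 ⟨j, Set.mem_biUnion hs rfl⟩))))) ih
      intro n
      refine ⟨hyK n, ?_⟩
      induction n with
      | zero => exact fun i => hsub (Or.inr ⟨i, rfl⟩)
      | succ n ih =>
        intro i
        rw [hx]
        exact mul_mem (eval_mem _ _ (fun s hs => hsub (Or.inl (Or.inl (Or.inr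
          (Set.mem_iUnion.2 ⟨i, Set.mem_biUnion hs rfl⟩))))) (hyK n)) (pow_mem (ih i) d)
  · intro n i h
    apply hx0 (n + 1) i
    rw [hx, h, zero_mul]
  · intro i
    obtain ⟨C', hC'0, hC'⟩ := Pool.Agent.Helper259.Uniform.h1_eval (A i)
    have h1' : ∀ x, Pool.Agent.Helper259.Uniform.h1 x = h1 x := fun x => h1_swap x
    simp only [h1'] at hC'
    refine Summable.of_nonneg_of_le (fun n => div_nonneg (h1_nonneg _) (by positivity))
      (fun n => ?_) ((summ δ d hδd).mul_left (C' * C))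
    rw [mul_div_assoc']
    refine div_le_div_of_nonneg_right ?_ (by positivity)
    rw [mul_assoc]
    exact (hC' (y n)).trans (mul_le_mul_of_nonneg_left (hC n) hC'0)
  · exact Pool.Agent.Y556.DM.poly_growth Φ δ hδj hδ1 y hy d hδd

/-- reduction to nonvanishing coordinates -/
theorem nz_reduce {ι : Type} {k : ℕ} {d : ℕ} (hd : 2 ≤ d) {y : ℕ → ι → Qbar}
    {x a : ℕ → Fin k → Qbar} (hrec : ∀ n i, x (n + 1) i = a n i * x n i ^ d) [Fintype ι]
    (h : ∀ (n1 k' : ℕ) (em : Fin k' → Fin k), (∀ n j, x (n1 + n) (em j) ≠ 0) →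
      Dml (fun n => Sum.elim (y (n1 + n)) (fun j => x (n1 + n) (em j)))) :
    Dml (fun n => Sum.elim (y n) (x n)) := by
  classical
  have hz : ∀ i n, x n i = 0 → ∀ j, x (n + j) i = 0 := by
    intro i n h0 j
    induction j with
    | zero => exact h0
    | succ j ih => rw [← add_assoc, hrec, ih, zero_pow (by omega), mul_zero]
  have hex : ∀ i, ∃ N, (∀ n, N ≤ n → x n i = 0) ∨ ∀ n, x n i ≠ 0 := by
    intro i
    by_cases hi : ∃ n, x n i = 0
    · obtain ⟨N, hN⟩ := hi
      refine ⟨N, Or.inl fun n hn => ?_⟩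
      have h2 := hz i N hN (n - N)
      rwa [Nat.add_sub_cancel' hn] at h2
    · push Not at hi
      exact ⟨0, Or.inr hi⟩
  choose N hN using hex
  obtain ⟨n1, hn1⟩ : ∃ n1, n1 = ∑ i, N i := ⟨_, rfl⟩
  have hNn : ∀ i, N i ≤ n1 := fun i => by
    rw [hn1]
    exact Finset.single_le_sum (f := N) (fun _ _ => Nat.zero_le _) (Finset.mem_univ i)
  let J := {i : Fin k // ∀ n, x n i ≠ 0}
  let em : Fin (Fintype.card J) → Fin k := fun j => ((Fintype.equivFin J).symm j).1
  have h2 := h n1 (Fintype.card J) em (fun n j => ((Fintype.equivFin J).symm j).2 _)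
  refine Dml.of_shift n1 ?_
  refine h2.rat _ (Sum.elim (fun i => X (Sum.inl i)) (fun i => if hi : ∀ n, x n i ≠ 0 then
    X (Sum.inr (Fintype.equivFin J ⟨i, hi⟩)) else 0)) (fun _ => 1)
    (Eventually.of_forall fun n q => ⟨by simp, ?_⟩)
  rcases q with i | i
  · simp
  · simp only [Sum.elim_inr, map_one, mul_one]
    by_cases hi : ∀ n, x n i ≠ 0
    · rw [dif_pos hi, eval_X, Sum.elim_inr]
      simp only [em, Equiv.symm_apply_apply]
    · rw [dif_neg hi, map_zero]
      rcases hN i with h3 | h3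
      · exact h3 _ ((hNn i).trans (Nat.le_add_right _ _))
      · exact absurd h3 hi

/-- products of constants and powers of one function -/
theorem mon_cB {k : ℕ} (c : Fin k → Qbar) (μ : Fin k → ℕ) (b : Qbar) (hb : b ≠ 0)
    (e : Fin k → ℤ) :
    mon (fun i => c i * b ^ μ i) e = mon c e * b ^ (∑ i, (μ i : ℤ) * e i) := by
  classical
  have : ∀ s : Finset (Fin k), ∏ i ∈ s, (c i * b ^ μ i) ^ e i =
      (∏ i ∈ s, c i ^ e i) * b ^ (∑ i ∈ s, (μ i : ℤ) * e i) := by
    intro s
    induction s using Finset.induction_on with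
    | empty => simp
    | insert i s hi ih =>
      rw [Finset.prod_insert hi, Finset.prod_insert hi, Finset.sum_insert hi, ih, mul_zpow,
        zpow_add₀ hb, zpow_mul, zpow_natCast]
      ring
  exact this univ

/-- **Twists by powers of one function.** -/
theorem main_fg {m k : ℕ} (Φ : Fin m → MvPolynomial (Fin m) Qbar)
    (B : MvPolynomial (Fin m) Qbar) (c : Fin k → Qbar) (μ : Fin k → ℕ) (d : ℕ) (hd : 2 ≤ d)
    (hΦ : ∀ j, (Φ j).totalDegree < d) {y : ℕ → Fin m → Qbar} {x : ℕ → Fin k → Qbar}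
    (hy : ∀ n j, y (n + 1) j = eval (y n) (Φ j))
    (hx : ∀ n i, x (n + 1) i = (c i * eval (y n) B ^ μ i) * x n i ^ d)
    (hDml : Dml y) (hfg : ∀ Γ : Subgroup Qbarˣ, Γ.FG →
      ∃ᶠ n in atTop, ∀ u ∈ Γ, (u : Qbar) ≠ eval (y n) B) :
    Dml (fun n => Sum.elim (y n) (x n)) := by
  classical
  refine nz_reduce (a := fun n i => c i * eval (y n) B ^ μ i) hd hx
    fun n1 k' em hne => ?_
  have hc0 : ∀ j, c (em j) ≠ 0 := by
    intro j h0
    apply hne 1 j
    rw [hx, h0, zero_mul, zero_mul]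
  have hS := TwS.of_poly Φ (fun j => C (c (em j)) * B ^ μ (em j)) d hd hΦ
    (y := fun n => y (n1 + n)) (x := fun n j => x (n1 + n) (em j))
    (fun n j => by rw [← add_assoc, hy]) (fun n i => by
      rw [← add_assoc, hx, map_mul, map_pow, eval_C]) hne
  have hD1 : Dml (fun n => y (n1 + n)) := by
    have := hDml.sub n1 1 one_pos
    simpa using this
  refine hS.dml_ep hD1 fun e he => ?_
  obtain ⟨K, hK, -, -, hyK, hxK, hsK⟩ := hS.field ((⋃ j, ⋃ s ∈ (Φ j).support, {coeff s (Φ j)}) ∪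
    (⋃ s ∈ B.support, {coeff s B}) ∪ Set.range c) (((Set.finite_iUnion fun j =>
      (Finset.finite_toSet _).biUnion fun s _ => Set.finite_singleton _).union
      ((Finset.finite_toSet _).biUnion fun s _ => Set.finite_singleton _)).union
      (Set.finite_range _))
  have hcoef : ∀ n, (fun i => eval (y (n1 + n)) (C (c (em i)) * B ^ μ (em i))) =
      fun i => c (em i) * eval (y (n1 + n)) B ^ μ (em i) := by
    intro n
    funext i
    rw [map_mul, map_pow, eval_C]
  by_cases hμ : ∀ j, μ (em j) = 0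
  · refine zr_ep K d hd hxK hS.ha0 hS.hrec e ?_ he
    refine (EPf.const (mon (fun j => c (em j)) e)).congr (Eventually.of_forall fun n => ?_)
    rw [hcoef]
    congr 1
    funext j
    rw [hμ j, pow_zero, mul_one]
  · push Not at hμ
    obtain ⟨j0, hj0⟩ := hμ
    have hB0 : ∀ n, eval (y (n1 + n)) B ≠ 0 := by
      intro n h0
      apply hne (n + 1) j0
      rw [← add_assoc, hx, h0, zero_pow hj0, mul_zero, zero_mul]
    obtain ⟨M, hM⟩ : ∃ M : ℤ, M = ∑ j, (μ (em j) : ℤ) * e j := ⟨_, rfl⟩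
    have hmon : ∀ n, mon (fun i => eval (y (n1 + n)) (C (c (em i)) * B ^ μ (em i))) e =
        mon (fun j => c (em j)) e * eval (y (n1 + n)) B ^ M := by
      intro n
      rw [hcoef, mon_cB (fun j => c (em j)) (fun j => μ (em j)) _ (hB0 n), hM]
    by_cases hM0 : M = 0
    · refine zr_ep K d hd hxK hS.ha0 hS.hrec e ?_ he
      refine (EPf.const (mon (fun j => c (em j)) e)).congr (Eventually.of_forall fun n => ?_)
      rw [hmon, hM0, zpow_zero, mul_one]
    · exfalso
      -- the exponent with positive twist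
      obtain ⟨e', M', hM'1, hM', he'⟩ : ∃ (e' : Fin k' → ℤ) (M' : ℕ), 1 ≤ M' ∧
          (∀ n, mon (fun i => eval (y (n1 + n)) (C (c (em i)) * B ^ μ (em i))) e' =
            mon (fun j => c (em j)) e' * eval (y (n1 + n)) B ^ M') ∧
          Zr d (fun n j => x (n1 + n) (em j)) e' := by
        rcases lt_or_gt_of_ne hM0 with h | h
        · refine ⟨-e, M.natAbs, by omega, fun n => ?_, ?_⟩
          · rw [hcoef, mon_cB (fun j => c (em j)) (fun j => μ (em j)) _ (hB0 n)]
            congr 1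
            rw [← zpow_natCast]
            congr 1
            have : ∑ i, (μ (em i) : ℤ) * (-e) i = -M := by
              rw [hM, ← Finset.sum_neg_distrib]
              exact Finset.sum_congr rfl fun i _ => by
                rw [Pi.neg_apply]
                ring
            rw [this]
            omega
          · have h2 := zr_sub hS.hx0 (zr_zero d _) he
            rwa [zero_sub] at h2
        · refine ⟨e, M.natAbs, by omega, fun n => ?_, he⟩
          rw [hmon, ← zpow_natCast]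
          congr 2
          omega
      have hcK : ∀ j, c (em j) ∈ K := fun j => hsK _ (Or.inr ⟨_, rfl⟩)
      have hΦK : ∀ j, ∀ s ∈ (Φ j).support, coeff s (Φ j) ∈ K := fun j s hs =>
        hsK _ (Or.inl (Or.inl (Set.mem_iUnion.2 ⟨j, Set.mem_biUnion hs rfl⟩)))
      have hBK : ∀ s ∈ B.support, coeff s B ∈ K := fun s hs =>
        hsK _ (Or.inl (Or.inr (Set.mem_biUnion hs rfl)))
      obtain ⟨E, hE⟩ : ∃ E : Set Qbar, E = (⋃ j, ⋃ s ∈ (Φ j).support, {coeff s (Φ j)}) ∪
        (⋃ s ∈ B.support, {coeff s B}) ∪ Set.range (y n1) := ⟨_, rfl⟩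
      have hEfin : E.Finite := by
        rw [hE]
        exact ((Set.finite_iUnion fun j =>
          (Finset.finite_toSet _).biUnion fun s _ => Set.finite_singleton _).union
          ((Finset.finite_toSet _).biUnion fun s _ => Set.finite_singleton _)).union
          (Set.finite_range _)
      have hEK : ∀ w ∈ E, w ∈ K := by
        rw [hE]
        rintro w ((hw | hw) | ⟨j, rfl⟩)
        · exact hsK _ (Or.inl (Or.inl hw))
        · exact hsK _ (Or.inl (Or.inr hw))
        · exact hyK 0 j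
      have hOv : ∀ v, v ∉ {v : IsDedekindDomain.HeightOneSpectrum (𝓞 K) | ∃ w ∈ E, w ∉ Ov v} →
          ∀ w ∈ E, w ∈ Ov v := by
        intro v hv w hw
        by_contra h
        exact hv ⟨w, hw, h⟩
      have hevO : ∀ (v : IsDedekindDomain.HeightOneSpectrum (𝓞 K)) (P : MvPolynomial (Fin m) Qbar),
          (∀ s ∈ P.support, coeff s P ∈ Ov v) → ∀ w : Fin m → Qbar, (∀ j, w j ∈ Ov v) →
          eval w P ∈ Ov v := by
        intro v P hP w hw
        rw [eval_eq']
        exact sum_mem fun s hs => (Ov v).mul_mem (hP s hs)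
          (prod_mem fun j _ => (Ov v).pow_mem (hw j) _)
      have hyO : ∀ v, v ∉ {v : IsDedekindDomain.HeightOneSpectrum (𝓞 K) | ∃ w ∈ E, w ∉ Ov v} →
          ∀ n j, y (n1 + n) j ∈ Ov v := by
        intro v hv n
        induction n with
        | zero =>
          intro j
          refine hOv v hv _ ?_
          rw [hE]
          exact Or.inr ⟨j, rfl⟩
        | succ n ih =>
          intro j
          rw [← add_assoc, hy]
          refine hevO v _ (fun s hs => hOv v hv _ ?_) _ ih
          rw [hE]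
          exact Or.inl (Or.inl (Set.mem_iUnion.2 ⟨j, Set.mem_biUnion hs rfl⟩))
      obtain ⟨S', hS'fin, hSS', hS'⟩ := units_of_small d hd
        {v : IsDedekindDomain.HeightOneSpectrum (𝓞 K) | ∃ w ∈ E, w ∉ Ov v}
        (bad_finite E hEfin hEK)
        (fun n => mon (fun j => x (n1 + n) (em j)) e') (fun n => eval (y (n1 + n)) B)
        (mon (fun j => c (em j)) e') M' hM'1 (mon_ne hc0 _) (fun n => mon_ne (hS.hx0 n) _)
        (fun n => by
          have h2 := mon_rec d (x := fun n j => x (n1 + n) (em j))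
            (a := fun n i => eval (y (n1 + n)) (C (c (em i)) * B ^ μ (em i))) hS.hrec n e'
          rw [← hM']
          exact h2)
        (fun n => mon_mem K (hxK n) _) (fun n => eval_mem K B hBK (hyK n))
        (mon_mem K hcK _) he'
        (fun v hv n => hevO v B (fun s hs => hOv v hv _ (by
          rw [hE]
          exact Or.inl (Or.inr (Set.mem_biUnion hs rfl)))) _ (hyO v hv n))
      have h5 := hfg (GS S') (GS_fg S' hS'fin)
      obtain ⟨n, hn, hn1⟩ := (h5.and_eventually (eventually_ge_atTop n1)).exists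
      obtain ⟨n, rfl⟩ := Nat.exists_eq_add_of_le hn1
      refine hn (Units.mk0 _ (hB0 n)) (mem_GS (hB0 n) (eval_mem K B hBK (hyK n))
        fun v hv => ⟨?_, hS' v hv n⟩) rfl
      have hv' : v ∉ {v : IsDedekindDomain.HeightOneSpectrum (𝓞 K) | ∃ w ∈ E, w ∉ Ov v} :=
        fun h => hv (hSS' h)
      exact hevO v B (fun s hs => hOv v hv' _ (by
          rw [hE]
          exact Or.inl (Or.inr (Set.mem_biUnion hs rfl)))) _ (hyO v hv' n)

end Pool.Agent.Y556.TW
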