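import Mathlib
import Pool.Agent.Y556.TW.Sys

set_option autoImplicit false

/-!
# Skew products over polynomials in one variable
-/

namespace Pool.Agent.Y556.TW

open Finset NumberField Height Module Filter Topology MvPolynomial
open Pool.Agent.Helper259.AbsHt
open Pool.Agent.Y215.SK (h1 h1_nonneg h1_zero h1_one h1_mul_le h1_add_le h1_pow h1_inv h1_div_le
  h1_val exists_galois h1_zpow)
open Pool.Agent.Y556.SK (h1_swap)
open Pool.Agent.Y556.DM (EPf EP Dml Psi eval_Psi)

/-- the exceptional case -/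
theorem exc {k : ℕ} (d D : ℕ) (hDd : D < d) (hd : 2 ≤ d) (t : ℕ → Qbar)
    (r c' b : Qbar) (q : ℕ) (c : Fin k → Qbar) (μ : Fin k → ℕ)
    (ht : ∀ n, t (n + 1) = r + c' * (t n - r) ^ D) (htr : ∀ n, t n ≠ r) (x : ℕ → Fin k → Qbar)
    (hx : ∀ n i, x (n + 1) i = (c i * (b * (t n - r) ^ q) ^ μ i) * x n i ^ d)
    (hx0 : ∀ n i, x n i ≠ 0) : Dml (fun n => Sum.elim (fun _ : Fin 1 => t n) (x n)) := by
  classical
  obtain ⟨v0, hv0⟩ := IsAlgClosed.exists_pow_nat_eq (t 0 - r) (n := d - D) (by omega)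
  obtain ⟨c2, hc2⟩ := IsAlgClosed.exists_pow_nat_eq c' (n := d - D) (by omega)
  obtain ⟨v, hvz, hv⟩ : ∃ v : ℕ → Qbar, v 0 = v0 ∧ ∀ n, v (n + 1) = c2 * v n ^ D :=
    ⟨fun n => Nat.rec v0 (fun _ w => c2 * w ^ D) n, rfl, fun _ => rfl⟩
  have hvw : ∀ n, v n ^ (d - D) = t n - r := by
    intro n
    induction n with
    | zero => rw [hvz, hv0]
    | succ n ih =>
      rw [hv, ht, mul_pow, hc2, ← pow_mul, mul_comm D, pow_mul, ih]
      ring
  have hvn : ∀ n, v n ≠ 0 := by
    intro n h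
    apply htr n
    have h2 := hvw n
    rw [h, zero_pow (by omega)] at h2
    exact (sub_eq_zero.1 h2.symm)
  have hc2' : c2 ≠ 0 := by
    rintro h
    apply hvn 1
    rw [hv, h, zero_mul]
  have hS := TwS.of_poly (m := 1) (fun _ => C c2 * X 0 ^ D)
    (fun i => C (c i) * (C b * X 0 ^ ((d - D) * q)) ^ μ i) d hd (fun j => by
      refine lt_of_le_of_lt (totalDegree_mul _ _) ?_
      rw [totalDegree_C, zero_add]
      exact lt_of_le_of_lt (totalDegree_pow _ _) (by rw [totalDegree_X, mul_one]; exact hDd))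
    (y := fun n _ => v n) (x := x) (fun n j => by
      rw [hv, map_mul, map_pow, eval_C, eval_X]) (fun n i => by
      rw [hx, map_mul, map_pow, map_mul, map_pow, eval_C, eval_C, eval_X, pow_mul, hvw]) hx0
  obtain ⟨r', E, hE0, hE⟩ := exists_gens d hx0
  obtain ⟨K, hK, -, -, hvK, hxK, -⟩ := hS.field ∅ Set.finite_empty
  obtain ⟨ν, hν⟩ : ∃ ν : Fin r' → ℤ, ν = fun j => ∑ i, ((q * μ i : ℕ) : ℤ) * E j i := ⟨_, rfl⟩
  obtain ⟨U, hU⟩ : ∃ U : ℕ → Fin r' → Qbar, U = fun n j => mon (x n) (E j) * v n ^ ν j := ⟨_, rfl⟩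
  have hUrec : ∀ n j, U (n + 1) j = (mon (fun i => c i * b ^ μ i) (E j) * c2 ^ ν j) *
      U n j ^ d := by
    intro n j
    have h2 := mon_rec d hS.hrec n (E j)
    have h3 : (fun i => eval (fun _ : Fin 1 => v n) (C (c i) * (C b * X 0 ^ ((d - D) * q)) ^ μ i)) =
        fun i => (c i * b ^ μ i) * (v n ^ (d - D)) ^ (q * μ i) := by
      funext i
      rw [map_mul, map_pow, map_mul, map_pow, eval_C, eval_C, eval_X, mul_pow, pow_mul, pow_mul]
      ring
    rw [h3, mon_cB (fun i => c i * b ^ μ i) (fun i => q * μ i) _ (pow_ne_zero _ (hvn n))] at h2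
    have h4 : (v n ^ (d - D)) ^ ν j * (v n ^ D) ^ ν j = (v n ^ ν j) ^ d := by
      rw [← mul_zpow, ← pow_add, Nat.sub_add_cancel hDd.le, ← zpow_natCast, ← zpow_natCast,
        ← zpow_mul, ← zpow_mul, mul_comm]
    have h5 : (∑ i, ((q * μ i : ℕ) : ℤ) * E j i) = ν j := by rw [hν]
    rw [h5] at h2
    rw [hU]
    show mon (x (n + 1)) (E j) * v (n + 1) ^ ν j = _ * (mon (x n) (E j) * v n ^ ν j) ^ d
    rw [h2, hv, mul_zpow, mul_pow, ← h4]
    ring
  have hUK : ∀ n j, U n j ∈ K := by
    intro n j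
    rw [hU]
    exact K.mul_mem (mon_mem K (hxK n) _) (zpow_mem (hvK n 0) _)
  have hK0 : ∀ j, mon (fun i => c i * b ^ μ i) (E j) * c2 ^ ν j ≠ 0 := by
    intro j h0
    have h2 := hUrec 0 j
    rw [h0, zero_mul, hU] at h2
    exact mul_ne_zero (mon_ne (hx0 _) _) (zpow_ne_zero _ (hvn _)) h2
  have hUsm : ∀ j, Tendsto (fun n => h1 (U n j) / (d : ℝ) ^ n) atTop (𝓝 0) := by
    intro j
    have h2 := (hE0 j).add (hS.hgr.const_mul |(ν j : ℝ)|)
    rw [mul_zero, add_zero] at h2
    refine squeeze_zero (fun n => div_nonneg (h1_nonneg _) (by positivity)) (fun n => ?_) h2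
    rw [mul_div_assoc', ← add_div]
    refine div_le_div_of_nonneg_right ?_ (by positivity)
    rw [hU]
    refine (h1_mul_le _ _).trans ?_
    rw [h1_zpow]
    simp
  have hUep : ∀ j, EPf (fun n => U n j) := by
    intro j
    refine ep_of_fin (EPf.const (mon (fun i => c i * b ^ μ i) (E j) * c2 ^ ν j))
      (fun A z => A * z ^ d) (fun n => hUrec n j) ?_
    refine (northcott_field K (h1 (mon (fun i => c i * b ^ μ i) (E j) * c2 ^ ν j))).subset ?_
    rintro _ ⟨n, rfl⟩
    exact ⟨hUK n j, zr_bdd d hd _ (fun _ => le_rfl) (fun _ => hK0 j) (fun n => hUrec n j)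
      (hUsm j) n⟩
  have hV : Dml (fun n (_ : Fin 1) => v n) := by
    refine (dml_one (y := v) (f := fun w => c2 * w ^ D) hv).rat _ (fun _ => X ()) (fun _ => 1)
      (Eventually.of_forall fun n _ => ⟨by simp, by simp⟩)
  have hV2 : Dml (fun n => Sum.elim (fun _ : Fin 1 => v n) (mons x E n)) := by
    have h2 : EPf (fun n => (Sum.elim (U n) (fun j => (U n j)⁻¹) : Fin r' ⊕ Fin r' → Qbar)) := by
      refine EPf.pi fun q => ?_
      rcases q with j | j
      · exact hUep j
      · exact (hUep j).comp (fun w => w⁻¹)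
    refine (hV.ep h2).rat _ (Sum.elim (fun i => X (Sum.inl i)) (Sum.elim
      (fun j => X (Sum.inr (Sum.inl j)) * X (Sum.inl 0) ^ (-ν j).toNat)
      (fun j => X (Sum.inr (Sum.inr j)) * X (Sum.inl 0) ^ (ν j).toNat)))
      (Sum.elim (fun _ => 1) (Sum.elim (fun j => X (Sum.inl 0) ^ (ν j).toNat)
      (fun j => X (Sum.inl 0) ^ (-ν j).toNat))) (Eventually.of_forall fun n s => ?_)
    have hpm : ∀ j, v n ^ ν j * v n ^ (-ν j).toNat = v n ^ (ν j).toNat := by
      intro j
      have hne := hvn n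
      rcases le_total 0 (ν j) with h4 | h4
      · obtain ⟨m, hm⟩ := Int.eq_ofNat_of_zero_le h4
        rw [hm]
        simp
      · obtain ⟨m, hm⟩ := Int.eq_ofNat_of_zero_le (neg_nonneg.2 h4)
        have h5 : ν j = -(m : ℤ) := by omega
        rw [h5]
        simp [hne]
    rcases s with i | (j | j)
    · simp
    · simp only [Sum.elim_inr, Sum.elim_inl, mons, map_mul, map_pow, eval_X]
      refine ⟨pow_ne_zero _ (hvn n), ?_⟩
      rw [← hpm, hU]
      ring
    · simp only [Sum.elim_inr, Sum.elim_inl, mons, map_mul, map_pow, eval_X]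
      refine ⟨pow_ne_zero _ (hvn n), ?_⟩
      rw [← hpm, hU]
      have h6 := mon_ne (hx0 n) (E j)
      have h7 : v n ^ ν j ≠ 0 := zpow_ne_zero _ (hvn n)
      field_simp
  have hfin := hS.reduce E hE0 hE hV2
  refine hfin.rat _ (Sum.elim (fun _ => C r + X (Sum.inl 0) ^ (d - D)) (fun i => X (Sum.inr i)))
    (fun _ => 1) (Eventually.of_forall fun n s => ⟨by simp, ?_⟩)
  rcases s with i | i
  · simp only [Sum.elim_inl, map_one, mul_one, map_add, map_pow, eval_C, eval_X, hvw]
    ring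
  · simp

theorem eq_pow_of_roots (P : Polynomial Qbar) (hP : P ≠ 0) (r : Qbar)
    (h : ∀ s, P.eval s = 0 → s = r) :
    P = Polynomial.C P.leadingCoeff * (Polynomial.X - Polynomial.C r) ^ P.natDegree := by
  have h2 := (IsAlgClosed.splits P).eq_prod_roots
  have h3 : P.roots = Multiset.replicate P.natDegree r := by
    rw [Multiset.eq_replicate]
    refine ⟨?_, fun s hs => h s ((Polynomial.mem_roots hP).1 hs)⟩
    exact ((IsAlgClosed.splits P).natDegree_eq_card_roots).symm
  conv_lhs => rw [h2]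
  rw [h3, Multiset.map_replicate, Multiset.prod_replicate]

theorem eval_aeval (P : Polynomial Qbar) (w : Fin 1 → Qbar) :
    eval w (Polynomial.aeval (X 0 : MvPolynomial (Fin 1) Qbar) P) = P.eval (w 0) := by
  rw [Polynomial.aeval_def, Polynomial.hom_eval₂, eval_X]
  have : (eval w).comp (algebraMap Qbar (MvPolynomial (Fin 1) Qbar)) = RingHom.id _ := by
    ext r
    simp
  rw [this, Polynomial.eval₂_id]

theorem deg_aeval (P : Polynomial Qbar) :
    (Polynomial.aeval (X 0 : MvPolynomial (Fin 1) Qbar) P).totalDegree ≤ P.natDegree := by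
  rw [Polynomial.aeval_eq_sum_range]
  refine totalDegree_finsetSum_le fun i hi => ?_
  refine (totalDegree_smul_le _ _).trans ((totalDegree_pow _ _).trans ?_)
  rw [totalDegree_X, mul_one]
  exact Nat.lt_succ_iff.1 (Finset.mem_range.1 hi)

theorem main_one_nz {k : ℕ} (g B : Polynomial Qbar) (c : Fin k → Qbar) (μ : Fin k → ℕ) (d : ℕ)
    (hd : 2 ≤ d) (hg : g.natDegree < d) (t : ℕ → Qbar) (ht : ∀ n, t (n + 1) = g.eval (t n))
    (x : ℕ → Fin k → Qbar) (hx : ∀ n i, x (n + 1) i = (c i * (B.eval (t n)) ^ μ i) * x n i ^ d)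
    (hx0 : ∀ n i, x n i ≠ 0) : Dml (fun n => Sum.elim (fun _ : Fin 1 => t n) (x n)) := by
  classical
  have hc0 : ∀ j, c j ≠ 0 := by
    intro j h0
    apply hx0 1 j
    rw [hx, h0, zero_mul, zero_mul]
  have hS := TwS.of_poly (m := 1) (fun _ => Polynomial.aeval (X 0) g)
    (fun i => C (c i) * (Polynomial.aeval (X 0) B) ^ μ i) d hd
    (fun j => lt_of_le_of_lt (deg_aeval g) hg) (y := fun n _ => t n) (x := x)
    (fun n j => by rw [ht, eval_aeval]) (fun n i => by
      rw [hx, map_mul, map_pow, eval_C, eval_aeval]) hx0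
  have hV : Dml (fun n (_ : Fin 1) => t n) := by
    refine (dml_one (y := t) (f := fun w => g.eval w) ht).rat _ (fun _ => X ()) (fun _ => 1)
      (Eventually.of_forall fun n _ => ⟨by simp, by simp⟩)
  obtain ⟨K, hK, -, -, hvK, hxK, -⟩ := hS.field ∅ Set.finite_empty
  have hco : ∀ n, (fun i => eval (fun _ : Fin 1 => t n)
      (C (c i) * (Polynomial.aeval (X 0) B) ^ μ i)) = fun i => c i * (B.eval (t n)) ^ μ i := by
    intro n
    funext i
    rw [map_mul, map_pow, eval_C, eval_aeval]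
  by_cases hep : EPf t
  · refine hS.dml_ep hV fun e he => zr_ep K d hd hxK hS.ha0 hS.hrec e ?_ he
    simp only [hco]
    exact hep.comp (fun w => mon (fun i => c i * (B.eval w) ^ μ i) e)
  by_cases hμ : ∀ j, μ j = 0
  · refine hS.dml_ep hV fun e he => zr_ep K d hd hxK hS.ha0 hS.hrec e ?_ he
    simp only [hμ, pow_zero, mul_one, eval_C]
    exact EPf.const _
  push Not at hμ
  obtain ⟨j0, hj0⟩ := hμ
  have hB0 : ∀ n, B.eval (t n) ≠ 0 := by
    intro n h0
    apply hx0 (n + 1) j0
    rw [hx, h0, zero_pow hj0, mul_zero, zero_mul]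
  by_cases hBd : B.natDegree = 0
  · refine hS.dml_ep hV fun e he => zr_ep K d hd hxK hS.ha0 hS.hrec e ?_ he
    rw [Polynomial.eq_C_of_natDegree_eq_zero hBd]
    simp only [map_mul, map_pow, eval_C, eval_aeval, Polynomial.eval_C]
    exact EPf.const _
  have hmon : ∀ n e, mon (fun i => c i * (B.eval (t n)) ^ μ i) e =
      mon c e * B.eval (t n) ^ (∑ i, (μ i : ℤ) * e i) := fun n e =>
    mon_cB c μ _ (hB0 n) e
  by_cases hM : ∃ e, Zr d x e ∧ ∑ i, (μ i : ℤ) * e i ≠ 0
  · obtain ⟨e, he, hM0⟩ := hM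
    obtain ⟨e', M', hM'1, hM', he'⟩ : ∃ (e' : Fin k → ℤ) (M' : ℕ), 1 ≤ M' ∧
        ((∑ i, (μ i : ℤ) * e' i) = M') ∧ Zr d x e' := by
      rcases lt_or_gt_of_ne hM0 with h | h
      · refine ⟨-e, (∑ i, (μ i : ℤ) * e i).natAbs, by omega, ?_, ?_⟩
        · have : ∑ i, (μ i : ℤ) * (-e) i = -∑ i, (μ i : ℤ) * e i := by
            rw [← Finset.sum_neg_distrib]
            exact Finset.sum_congr rfl fun i _ => by
              rw [Pi.neg_apply]
              ring
          rw [this]
          omega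
        · have h2 := zr_sub hx0 (zr_zero d _) he
          rwa [zero_sub] at h2
      · exact ⟨e, (∑ i, (μ i : ℤ) * e i).natAbs, by omega, by omega, he⟩
    have hroots := roots_eq d hd g B t ht hB0 (fun n => mon (x n) e') (mon c e') M' hM'1
      (mon_ne hc0 _) (fun n => mon_ne (hx0 n) _) (fun n => by
        have h2 := mon_rec d hS.hrec n e'
        rw [hco, hmon, hM', zpow_natCast] at h2
        exact h2) he' hep
    have hgd : g.natDegree ≠ 0 := by
      intro h0
      apply hep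
      rw [Polynomial.eq_C_of_natDegree_eq_zero h0] at ht
      refine (EPf.const (g.coeff 0)).congr ?_
      filter_upwards [eventually_ge_atTop 1] with n hn
      obtain ⟨m, rfl⟩ : ∃ m, n = m + 1 := ⟨n - 1, by omega⟩
      rw [ht, Polynomial.eval_C]
    obtain ⟨r, hr⟩ := IsAlgClosed.exists_root B (fun h => hBd (Polynomial.natDegree_eq_of_degree_eq_some
      (by rw [h]; rfl)))
    obtain ⟨s, hs⟩ := IsAlgClosed.exists_root (B.comp g) (fun h => by
      have h2 : (B.comp g).natDegree = 0 := Polynomial.natDegree_eq_of_degree_eq_some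
        (by rw [h]; rfl)
      rw [Polynomial.natDegree_comp, mul_eq_zero] at h2
      exact h2.elim hBd hgd)
    have hr' : B.eval r = 0 := hr
    have hs' : (B.comp g).eval s = 0 := hs
    have hsr : s = r := hroots s r (Or.inr hs') (Or.inl hr')
    rw [hsr, Polynomial.eval_comp] at hs'
    have hgr : g.eval r = r := hroots _ _ (Or.inl hs') (Or.inl hr')
    have hB2 := eq_pow_of_roots B (by rintro rfl; simp at hBd) r fun s hs =>
      hroots s r (Or.inl hs) (Or.inl hr')
    have hgC : (g - Polynomial.C r).natDegree = g.natDegree := Polynomial.natDegree_sub_C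
    have hg2 := eq_pow_of_roots (g - Polynomial.C r) (by
        rintro h0
        rw [h0] at hgC
        exact hgd (by rw [← hgC]; simp)) r fun s hs => by
      rw [Polynomial.eval_sub, Polynomial.eval_C, sub_eq_zero] at hs
      refine hroots s r (Or.inr ?_) (Or.inl hr')
      rw [Polynomial.eval_comp, hs]
      exact hr'
    have hBe : ∀ w, B.eval w = B.leadingCoeff * (w - r) ^ B.natDegree := by
      intro w
      conv_lhs => rw [hB2]
      simp
    have hge : ∀ w, g.eval w = r + (g - Polynomial.C r).leadingCoeff * (w - r) ^ g.natDegree := by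
      intro w
      have h2 := congrArg (Polynomial.eval w) hg2
      rw [hgC] at h2
      simp only [Polynomial.eval_sub, Polynomial.eval_C, Polynomial.eval_mul, Polynomial.eval_pow,
        Polynomial.eval_X] at h2
      rw [← h2]
      ring
    refine exc d g.natDegree hg hd t r (g - Polynomial.C r).leadingCoeff B.leadingCoeff B.natDegree
      c μ (fun n => by rw [ht, hge]) (fun n h => hB0 n ?_) x (fun n i => by rw [hx, hBe]) hx0
    rw [h]
    exact hr'
  · push Not at hM
    refine hS.dml_ep hV fun e he => zr_ep K d hd hxK hS.ha0 hS.hrec e ?_ he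
    simp only [hco, hmon, hM e he, zpow_zero, mul_one]
    exact EPf.const _

theorem main_one {k : ℕ} (g B : Polynomial Qbar) (c : Fin k → Qbar) (μ : Fin k → ℕ) (d : ℕ)
    (hd : 2 ≤ d) (hg : g.natDegree < d) (t : ℕ → Qbar) (ht : ∀ n, t (n + 1) = g.eval (t n))
    (x : ℕ → Fin k → Qbar) (hx : ∀ n i, x (n + 1) i = (c i * (B.eval (t n)) ^ μ i) * x n i ^ d) :
    Dml (fun n => Sum.elim (fun _ : Fin 1 => t n) (x n)) :=
  nz_reduce (a := fun n i => c i * (B.eval (t n)) ^ μ i) (y := fun n (_ : Fin 1) => t n) hd hx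
    fun n1 k' em hne => main_one_nz g B (fun j => c (em j)) (fun j => μ (em j)) d hd hg
      (fun n => t (n1 + n)) (fun n => by rw [← add_assoc, ht])
      (fun n j => x (n1 + n) (em j)) (fun n j => by rw [← add_assoc, hx]) hne

end Pool.Agent.Y556.TW
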