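import Mathlib
import Pool.Agent.Y556.TW.Ex
import Pool.Agent.Y556.DM.Fin

set_option autoImplicit false

/-!
# Skew products and return sets over the complex numbers
-/

namespace Pool.Agent.Y556.TW

open Finset NumberField Height Module Filter Topology MvPolynomial
open Pool.Agent.Helper259.AbsHt
open Pool.Agent.Y215.SK (h1 h1_nonneg h1_zero h1_one h1_mul_le h1_add_le h1_pow h1_inv h1_div_le
  h1_val exists_galois h1_zpow)
open Pool.Agent.Y556.DM (EPf EP Dml Psi eval_Psi IsAP EP.isAP IsAP.ep exists_order)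

section

variable {ι : Type} {k : ℕ}

/-- the skew product `(y, x) ↦ (G(y), A_1(y) x_1 ^ d, ..., A_k(y) x_k ^ d)` -/
noncomputable def skew (d : ℕ) (G : (ι → Qbar) → ι → Qbar) (A : (ι → Qbar) → Fin k → Qbar)
    (w : ι ⊕ Fin k → Qbar) : ι ⊕ Fin k → Qbar :=
  Sum.elim (G (fun j => w (Sum.inl j))) (fun i => A (fun j => w (Sum.inl j)) i * w (Sum.inr i) ^ d)

/-- the first coordinates of the orbit -/
noncomputable def bas (d : ℕ) (G : (ι → Qbar) → ι → Qbar) (A : (ι → Qbar) → Fin k → Qbar)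
    (w : ι ⊕ Fin k → Qbar) (n : ℕ) (j : ι) : Qbar := (skew d G A)^[n] w (Sum.inl j)

/-- the last coordinates of the orbit -/
noncomputable def fib (d : ℕ) (G : (ι → Qbar) → ι → Qbar) (A : (ι → Qbar) → Fin k → Qbar)
    (w : ι ⊕ Fin k → Qbar) (n : ℕ) (i : Fin k) : Qbar := (skew d G A)^[n] w (Sum.inr i)

/-- the return set in a closed set over the complex numbers -/
def RetC (σ : Qbar →+* ℂ) (w : ℕ → ι → Qbar) (V : Set (MvPolynomial ι ℂ)) : Set ℕ :=
  {n | ∀ F ∈ V, eval (fun i => σ (w n i)) F = 0}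

theorem orbit_eq (d : ℕ) (G : (ι → Qbar) → ι → Qbar) (A : (ι → Qbar) → Fin k → Qbar)
    (w : ι ⊕ Fin k → Qbar) : (fun n => (skew d G A)^[n] w) =
      fun n => Sum.elim (bas d G A w n) (fib d G A w n) := by
  funext n i
  rcases i with i | i <;> rfl

theorem bas_succ (d : ℕ) (G : (ι → Qbar) → ι → Qbar) (A : (ι → Qbar) → Fin k → Qbar)
    (w : ι ⊕ Fin k → Qbar) (n : ℕ) : bas d G A w (n + 1) = G (bas d G A w n) := by
  funext j
  unfold bas
  rw [Function.iterate_succ_apply']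
  rfl

theorem bas_eq (d : ℕ) (G : (ι → Qbar) → ι → Qbar) (A : (ι → Qbar) → Fin k → Qbar)
    (w : ι ⊕ Fin k → Qbar) (n : ℕ) : bas d G A w n = G^[n] (fun j => w (Sum.inl j)) := by
  induction n with
  | zero => rfl
  | succ n ih => rw [bas_succ, ih, Function.iterate_succ_apply']

theorem fib_succ (d : ℕ) (G : (ι → Qbar) → ι → Qbar) (A : (ι → Qbar) → Fin k → Qbar)
    (w : ι ⊕ Fin k → Qbar) (n : ℕ) (i : Fin k) :
    fib d G A w (n + 1) i = A (bas d G A w n) i * fib d G A w n i ^ d := by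
  unfold fib bas
  rw [Function.iterate_succ_apply']
  rfl

theorem conclC [Fintype ι] {w : ℕ → ι → Qbar} (h : Dml w) (σ : Qbar →+* ℂ)
    (V : Set (MvPolynomial ι ℂ)) : IsAP (RetC σ w V) := by
  obtain ⟨W, hW⟩ := Pool.Agent.TH166.DMR.descend σ V
  obtain ⟨G, hG⟩ := Pool.Agent.TH166.DMR.noeth W
  have h1 : EP {n | ∀ F ∈ G, n ∈ {n | eval (w n) F = 0}} := EP.forall_mem G fun F _ => h F
  apply EP.isAP
  refine h1.congr (Eventually.of_forall fun n => ?_)
  simp only [Set.mem_setOf_eq]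
  rw [← hG, ← hW]
  rfl

theorem genC [Fintype ι] {d : ℕ} {y : ℕ → ι → Qbar} {x a : ℕ → Fin k → Qbar} (h : TwS d y x a)
    (hZ : ∀ e, Zr d x e → e = 0) (σ : Qbar →+* ℂ) (V : Set (MvPolynomial (ι ⊕ Fin k) ℂ)) :
    ∀ᶠ n in atTop, (n ∈ RetC σ (fun n => Sum.elim (y n) (x n)) V ↔
      ∀ x' : Fin k → Qbar, n ∈ RetC σ (fun n => Sum.elim (y n) x') V) := by
  obtain ⟨W, hW⟩ := Pool.Agent.TH166.DMR.descend σ V
  obtain ⟨G, hG⟩ := Pool.Agent.TH166.DMR.noeth W
  have h2 : ∀ᶠ n in atTop, ∀ F ∈ G, (eval (Sum.elim (y n) (x n)) F = 0 ↔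
      ∀ m, eval (y n) (coeff m (Psi F)) = 0) := by
    rw [Filter.eventually_all_finset]
    exact fun F _ => h.generic hZ F
  refine h2.mono fun n hn => ?_
  have h3 : ∀ w : ι ⊕ Fin k → Qbar, (∀ F ∈ V, eval (fun i => σ (w i)) F = 0) ↔
      ∀ F ∈ G, eval w F = 0 := fun w => by
    rw [← hG, ← hW]
  constructor
  · intro h4 x'
    have h5 := (h3 (Sum.elim (y n) (x n))).1 h4
    refine (h3 (Sum.elim (y n) x')).2 fun F hF => ?_
    have h6 := (hn F hF).1 (h5 F hF)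
    have h7 : MvPolynomial.map (eval (y n)) (Psi F) = 0 := by
      ext m
      rw [coeff_map, h6, coeff_zero]
    rw [← eval_Psi, h7, map_zero]
  · intro h4
    exact h4 (x n)

/-- the values of canonical height zero -/
theorem zero_class {d : ℕ} (hd : 2 ≤ d) {x x' a : ℕ → Fin k → Qbar}
    (hx : ∀ n i, x (n + 1) i = a n i * x n i ^ d) (hx' : ∀ n i, x' (n + 1) i = a n i * x' n i ^ d)
    (hx0 : ∀ n i, x n i ≠ 0) (hx0' : ∀ n i, x' n i ≠ 0) (e : Fin k → ℤ) (h : Zr d x e)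
    (h' : Zr d x' e) : ∃ L : ℕ, 0 < L ∧ mon (x 0) e ^ L = mon (x' 0) e ^ L := by
  have hd0 : (0 : ℝ) < d := by
    have : 0 < d := by omega
    exact_mod_cast this
  have ha0 : ∀ n i, a n i ≠ 0 := by
    intro n i h0
    apply hx0 (n + 1) i
    rw [hx, h0, zero_mul]
  have hq : ∀ n, mon (x n) e / mon (x' n) e = (mon (x 0) e / mon (x' 0) e) ^ d ^ n := by
    intro n
    induction n with
    | zero => simp
    | succ n ih =>
      rw [mon_rec d hx, mon_rec d hx', mul_div_mul_left _ _ (mon_ne (ha0 n) e), ← div_pow, ih,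
        ← pow_mul, pow_succ]
  have h2 : ∀ n, h1 (mon (x 0) e / mon (x' 0) e) ≤
      h1 (mon (x n) e) / (d : ℝ) ^ n + h1 (mon (x' n) e) / (d : ℝ) ^ n := by
    intro n
    rw [← add_div, le_div_iff₀ (by positivity), mul_comm]
    have h3 := h1_pow (mon (x 0) e / mon (x' 0) e) (d ^ n)
    rw [← hq] at h3
    push_cast at h3
    rw [← h3]
    exact h1_div_le _ _
  have h3 := ge_of_tendsto' (h.add h') h2
  rw [add_zero] at h3
  have h4 : h1 (mon (x 0) e / mon (x' 0) e) = 0 := le_antisymm h3 (h1_nonneg _)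
  obtain ⟨L, hL, h5⟩ := exists_order _ (div_ne_zero (mon_ne (hx0 0) e) (mon_ne (hx0' 0) e)) h4
  refine ⟨L, hL, ?_⟩
  rwa [div_pow, div_eq_one_iff_eq (pow_ne_zero _ (mon_ne (hx0' 0) e))] at h5

end

end Pool.Agent.Y556.TW
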